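import Pool.Agent.Lib.MP_91447a_gt.Up

open scoped Manifold ContDiff Topology Quaternion
open Set Function Filter Metric

noncomputable section

namespace Pool.Agent.Lib.MP_91447a_gt

def sg : ℝ := Real.sqrt (2 * Real.pi)

theorem sg_pos : 0 < sg := Real.sqrt_pos.2 (by positivity)

theorem sg_sq : sg * sg = 2 * Real.pi := Real.mul_self_sqrt (by positivity)

/-- The lattice. -/
def Gam := Fin 4 → ℤ

instance : AddCommGroup Gam := inferInstanceAs (AddCommGroup (Fin 4 → ℤ))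

def ell (γ : Gam) : R4 := fun i => sg * (γ i : ℝ)

theorem Gam_add (γ γ' : Gam) (i : Fin 4) : (γ + γ') i = γ i + γ' i := rfl

theorem ell_add (γ γ' : Gam) : ell (γ + γ') = ell γ + ell γ' := by
  ext i; simp [ell, Gam_add, mul_add]

theorem ell_zero : ell 0 = 0 := by
  ext i
  have : (0 : Gam) i = 0 := rfl
  simp [ell, this]

theorem ell_inj {γ γ' : Gam} (h : ell γ = ell γ') : γ = γ' := by
  funext i
  have := congrFun h i
  simp only [ell] at this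
  exact_mod_cast mul_left_cancel₀ sg_pos.ne' this

def cc (γ : Gam) : R4 →L[ℝ] ℝ := dotL 4 (Jop (ell γ))

theorem cc_add (γ γ' : Gam) (x : R4) : cc (γ + γ') x = cc γ x + cc γ' x := by
  simp [cc, ell_add]

theorem cc_zero (x : R4) : cc 0 x = 0 := by simp [cc, ell_zero]

theorem cc_ell (γ γ' : Gam) : ∃ k : ℤ, cc γ (ell γ') = k * (2 * Real.pi) :=
  ⟨-γ 2 * γ' 0 + γ 3 * γ' 1 + γ 0 * γ' 2 - γ 1 * γ' 3, by
    rw [← sg_sq]; simp [cc, dot4, ell]; ring⟩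

def uu (θ : ℝ) : Qu := ⟨Real.cos θ, Real.sin θ, 0, 0⟩

@[simp] theorem uu_re (θ : ℝ) : (uu θ).re = Real.cos θ := rfl
@[simp] theorem uu_imI (θ : ℝ) : (uu θ).imI = Real.sin θ := rfl
@[simp] theorem uu_imJ (θ : ℝ) : (uu θ).imJ = 0 := rfl
@[simp] theorem uu_imK (θ : ℝ) : (uu θ).imK = 0 := rfl

theorem ns_uu (θ : ℝ) : ns (uu θ) = 1 := by simp [ns]

theorem uu_add (θ φ : ℝ) : uu (θ + φ) = uu θ * uu φ := by
  ext <;> simp [Real.cos_add, Real.sin_add]; ring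

theorem uu_zero : uu 0 = 1 := by ext <;> simp

theorem uu_cocycle (γ γ' : Gam) (x : R4) :
    uu (cc (γ + γ') x) = uu (cc γ (x + ell γ')) * uu (cc γ' x) := by
  obtain ⟨k, hk⟩ := cc_ell γ γ'
  rw [cc_add, uu_add, map_add, hk]
  congr 1
  ext <;> simp [Real.cos_add_int_mul_two_pi, Real.sin_add_int_mul_two_pi]

theorem uu_eq (θ : ℝ) : uu θ = Real.cos θ • (1 : Qu) + Real.sin θ • hat e0 := by
  ext <;> simp

theorem hasDerivAt_uu (θ : ℝ) : HasDerivAt uu (hat e0 * uu θ) θ := by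
  have h := ((Real.hasDerivAt_cos θ).smul_const (1 : Qu)).add
    ((Real.hasDerivAt_sin θ).smul_const (hat e0))
  have e : uu = fun θ => Real.cos θ • (1 : Qu) + Real.sin θ • hat e0 := funext uu_eq
  rw [e]
  convert! h using 1
  ext <;> simp

theorem contDiff_uu : ContDiff ℝ ∞ uu := by
  have e : uu = fun θ => Real.cos θ • (1 : Qu) + Real.sin θ • hat e0 := funext uu_eq
  rw [e]
  fun_prop

theorem contDiff_uc (γ : Gam) : ContDiff ℝ ∞ (fun x : R4 => uu (cc γ x)) :=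
  contDiff_uu.comp (cc γ).contDiff

instance : AddAction Gam E7 where
  vadd γ z := (z.1 + ell γ, Ad (uu (cc γ z.1)) z.2)
  zero_vadd z := by
    change (z.1 + ell 0, Ad (uu (cc 0 z.1)) z.2) = z
    rw [ell_zero, cc_zero, uu_zero, Ad_one, add_zero]
  add_vadd γ γ' z := by
    change (z.1 + ell (γ + γ'), Ad (uu (cc (γ + γ') z.1)) z.2) =
      (z.1 + ell γ' + ell γ, Ad (uu (cc γ (z.1 + ell γ'))) (Ad (uu (cc γ' z.1)) z.2))
    rw [uu_cocycle, Ad_mul, ell_add, add_assoc, add_comm (ell γ)]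

theorem vadd_E7 (γ : Gam) (z : E7) : γ +ᵥ z = (z.1 + ell γ, Ad (uu (cc γ z.1)) z.2) := rfl

theorem contDiff_vadd_E7 (γ : Gam) : ContDiff ℝ ∞ (fun z : E7 => γ +ᵥ z) :=
  contDiff_iff_contDiffAt.2 fun _ => (contDiff_fst.add contDiff_const).contDiffAt.prodMk
    (contDiffAt_Ad ((contDiff_uc γ).comp contDiff_fst).contDiffAt contDiff_snd.contDiffAt)

instance : ContinuousConstVAdd Gam E7 := ⟨fun γ => (contDiff_vadd_E7 γ).continuous⟩

theorem vadd_E7_cancel {γ γ' : Gam} {z : E7} (h : γ +ᵥ z = γ' +ᵥ z) : γ = γ' :=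
  ell_inj (add_left_cancel (Prod.ext_iff.1 h).1)

instance : IsCancelVAdd Gam E7 where
  left_cancel' γ _ _ h := AddAction.injective γ h
  right_cancel' _ _ _ h := vadd_E7_cancel h

theorem finite_ell {K L : Set R4} (hK : IsCompact K) (hL : IsCompact L) :
    {γ : Gam | ∃ x ∈ K, x + ell γ ∈ L}.Finite := by
  obtain ⟨C, hC⟩ := hK.isBounded.exists_norm_le
  obtain ⟨C', hC'⟩ := hL.isBounded.exists_norm_le
  obtain ⟨N, hN⟩ := exists_nat_ge ((C + C') / sg)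
  refine (Set.finite_Icc (fun _ : Fin 4 => (-N : ℤ)) (fun _ => (N : ℤ))).subset ?_
  rintro γ ⟨x, hx, hx'⟩
  have h1 : ‖ell γ‖ ≤ C + C' := by
    have : ell γ = (x + ell γ) - x := by abel
    rw [this]
    linarith [norm_sub_le (x + ell γ) x, hC x hx, hC' _ hx']
  have h2 : ∀ i, |(γ i : ℝ)| ≤ N := by
    intro i
    have h3 := (norm_le_pi_norm (ell γ) i).trans h1
    rw [ell, Real.norm_eq_abs, abs_mul, abs_of_pos sg_pos] at h3
    refine le_trans ?_ hN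
    rw [le_div_iff₀ sg_pos]; linarith
  constructor <;> intro i
  · have := (abs_le.1 (h2 i)).1
    exact_mod_cast this
  · have := (abs_le.1 (h2 i)).2
    exact_mod_cast this

instance : ProperlyDiscontinuousVAdd Gam E7 := ⟨fun {K L} hK hL => by
  refine (finite_ell (hK.image continuous_fst) (hL.image continuous_fst)).subset ?_
  rintro γ ⟨_, ⟨z, hz, rfl⟩, hz'⟩
  exact ⟨z.1, mem_image_of_mem _ hz, mem_image_of_mem Prod.fst hz'⟩⟩

def TV (δ : Gam × Gam) (q : VV) : VV :=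
  ((q.1.1 + ell δ.1, q.1.2.1 + ell δ.2, Ad (uu (cc δ.1 q.1.1)) q.1.2.2),
    uu (cc δ.1 q.1.1) * q.2 * star (uu (cc δ.2 q.1.2.1)))

theorem contDiff_TV (δ : Gam × Gam) : ContDiff ℝ ∞ (TV δ) := by
  have h1 := (contDiff_uc δ.1).comp pX.contDiff
  have h2 := (contDiff_uc δ.2).comp pY.contDiff
  exact ((pX.contDiff.add contDiff_const).prodMk ((pY.contDiff.add contDiff_const).prodMk
    (contDiff_iff_contDiffAt.2 fun _ => contDiffAt_Ad h1.contDiffAt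
      pXi.contDiff.contDiffAt))).prodMk ((h1.mul pG.contDiff).mul (contDiff_star.comp h2))

def TT (δ : Gam × Gam) (a : GT) : GT :=
  ((TV δ (iota a)).1, mkS (TV δ (iota a)).2 (by
    simp only [TV]; rw [ns_mul, ns_mul, ns_star, ns_uu, ns_uu, ns_iota]; simp))

theorem iota_TT (δ : Gam × Gam) (a : GT) : iota (TT δ a) = TV δ (iota a) := rfl

instance : AddAction (Gam × Gam) GT where
  vadd := TT
  zero_vadd a := by
    refine iota_inj ?_
    change TV 0 (iota a) = iota a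
    simp [TV, ell_zero, cc_zero, uu_zero, Ad_one]
  add_vadd δ δ' a := by
    refine iota_inj ?_
    change TV (δ + δ') (iota a) = TV δ (TV δ' (iota a))
    simp only [TV, Prod.fst_add, Prod.snd_add, uu_cocycle, Ad_mul, ell_add, star_mul, mul_assoc,
      add_assoc, add_comm (ell δ.1), add_comm (ell δ.2)]

theorem iota_vadd (δ : Gam × Gam) (a : GT) : iota (δ +ᵥ a) = TV δ (iota a) := rfl

theorem smAt_vadd_GT (δ : Gam × Gam) (a : GT) : SmAt EG EG (fun a : GT => δ +ᵥ a) a :=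
  smAt_of_iota ((smAt_iff_contDiffAt.2 (contDiff_TV δ).contDiffAt).comp_eq (smAt_iota a) rfl)

instance : ContinuousConstVAdd (Gam × Gam) GT :=
  ⟨fun δ => continuous_iff_continuousAt.2 fun a => (smAt_vadd_GT δ a).continuousAt⟩

theorem tT_vadd (δ : Gam × Gam) (a : GT) : tT (δ +ᵥ a) = δ.1 +ᵥ tT a := rfl

theorem sT_vadd (δ : Gam × Gam) (a : GT) : sT (δ +ᵥ a) = δ.2 +ᵥ sT a := by
  refine Prod.ext rfl ?_
  change Ad (star (uu (cc δ.1 a.1.1) * a.2.1 * star (uu (cc δ.2 a.1.2.1))))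
    (Ad (uu (cc δ.1 a.1.1)) a.1.2.2) = Ad (uu (cc δ.2 a.1.2.1)) (Ad (star a.2.1) a.1.2.2)
  rw [star_mul, star_mul, star_star, Ad_mul, Ad_mul, Ad_star_Ad (ns_uu _)]

instance : IsCancelVAdd (Gam × Gam) GT where
  left_cancel' γ _ _ h := AddAction.injective γ h
  right_cancel' δ δ' a h := by
    have h1 := congrArg tT h
    have h2 := congrArg sT h
    rw [tT_vadd, tT_vadd] at h1
    rw [sT_vadd, sT_vadd] at h2
    exact Prod.ext (vadd_E7_cancel h1) (vadd_E7_cancel h2)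

theorem continuous_tT : Continuous tT :=
  continuous_iff_continuousAt.2 fun a => (smAt_tT a).continuousAt

theorem continuous_sT : Continuous sT :=
  continuous_iff_continuousAt.2 fun a => (smAt_sT a).continuousAt

instance : ProperlyDiscontinuousVAdd (Gam × Gam) GT := ⟨fun {K L} hK hL => by
  refine ((finite_disjoint_inter_image (Γ := Gam) (hK.image continuous_tT)
    (hL.image continuous_tT)).prod (finite_disjoint_inter_image (Γ := Gam)
      (hK.image continuous_sT) (hL.image continuous_sT))).subset ?_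
  rintro δ ⟨_, ⟨z, hz, rfl⟩, hz'⟩
  exact ⟨⟨_, ⟨_, mem_image_of_mem _ hz, rfl⟩, ⟨_, hz', tT_vadd δ z⟩⟩,
    ⟨_, ⟨_, mem_image_of_mem _ hz, rfl⟩, ⟨_, hz', sT_vadd δ z⟩⟩⟩⟩

theorem uT_vadd (γ : Gam) (z : E7) : uT (γ +ᵥ z) = (γ, γ) +ᵥ uT z := by
  refine iota_inj ?_
  rw [iota_vadd]
  simp [iota, uT, TV, mkS, vadd_E7, mul_star_of (ns_uu _)]

theorem iT_vadd (δ : Gam × Gam) (a : GT) : iT (δ +ᵥ a) = (δ.2, δ.1) +ᵥ iT a := by
  refine GT_ext (Prod.ext rfl (Prod.ext rfl (Prod.ext_iff.1 (sT_vadd δ a)).2)) ?_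
  change star (uu (cc δ.1 a.1.1) * a.2.1 * star (uu (cc δ.2 a.1.2.1))) =
    uu (cc δ.2 a.1.2.1) * star a.2.1 * star (uu (cc δ.1 a.1.1))
  rw [star_mul, star_mul, star_star, mul_assoc]

theorem mT_vadd (γ γ' γ'' : Gam) {a b : GT} (h : sT a = tT b) :
    mT ((γ, γ') +ᵥ a) ((γ', γ'') +ᵥ b) = (γ, γ'') +ᵥ mT a b := by
  refine GT_ext rfl ?_
  have h1 : a.1.2.1 = b.1.1 := (Prod.ext_iff.1 h).1
  change uu (cc γ a.1.1) * a.2.1 * star (uu (cc γ' a.1.2.1)) *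
    (uu (cc γ' b.1.1) * b.2.1 * star (uu (cc γ'' b.1.2.1))) =
      uu (cc γ a.1.1) * (a.2.1 * b.2.1) * star (uu (cc γ'' b.1.2.1))
  rw [h1]
  simp only [mul_assoc]
  rw [← mul_assoc (star (uu (cc γ' b.1.1))), star_mul_of (ns_uu _), one_mul]

/-- The Poisson manifold. -/
def MM := AddAction.orbitRel.Quotient Gam E7

/-- The groupoid. -/
def GG := AddAction.orbitRel.Quotient (Gam × Gam) GT

instance : TopologicalSpace MM :=
  inferInstanceAs (TopologicalSpace (Quotient (AddAction.orbitRel Gam E7)))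
instance : TopologicalSpace GG :=
  inferInstanceAs (TopologicalSpace (Quotient (AddAction.orbitRel (Gam × Gam) GT)))

theorem exM : ∃ _ : ChartedSpace E7 (AddAction.orbitRel.Quotient Gam E7),
    IsManifold 𝓘(ℝ, E7) ∞ (AddAction.orbitRel.Quotient Gam E7) ∧
      LocDiff E7 E7 (Quotient.mk (AddAction.orbitRel Gam E7)) :=
  quot_manifold fun γ _ => smAt_iff_contDiffAt.2 (contDiff_vadd_E7 γ).contDiffAt

theorem exG : ∃ _ : ChartedSpace EG (AddAction.orbitRel.Quotient (Gam × Gam) GT),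
    IsManifold 𝓘(ℝ, EG) ∞ (AddAction.orbitRel.Quotient (Gam × Gam) GT) ∧
      LocDiff EG EG (Quotient.mk (AddAction.orbitRel (Gam × Gam) GT)) :=
  quot_manifold smAt_vadd_GT

instance : ChartedSpace E7 MM := exM.choose
instance : IsManifold 𝓘(ℝ, E7) ∞ MM := exM.choose_spec.1
instance : ChartedSpace EG GG := exG.choose
instance : IsManifold 𝓘(ℝ, EG) ∞ GG := exG.choose_spec.1
instance : T2Space MM := inferInstanceAs (T2Space (Quotient (AddAction.orbitRel Gam E7)))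
instance : T2Space GG :=
  inferInstanceAs (T2Space (Quotient (AddAction.orbitRel (Gam × Gam) GT)))
instance : SecondCountableTopology MM :=
  ContinuousConstVAdd.secondCountableTopology (Γ := Gam) (T := E7)
instance : SecondCountableTopology GG :=
  ContinuousConstVAdd.secondCountableTopology (Γ := Gam × Gam) (T := GT)

def pM : E7 → MM := Quotient.mk (AddAction.orbitRel Gam E7)
def pP : GT → GG := Quotient.mk (AddAction.orbitRel (Gam × Gam) GT)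

theorem pM_ld : LocDiff E7 E7 pM := exM.choose_spec.2
theorem pP_ld : LocDiff EG EG pP := exG.choose_spec.2
theorem pM_surj : Surjective pM := Quotient.mk_surjective
theorem pP_surj : Surjective pP := Quotient.mk_surjective

theorem pM_eq {z z' : E7} : pM z = pM z' ↔ ∃ γ : Gam, γ +ᵥ z' = z :=
  Quotient.eq.trans AddAction.orbitRel_apply

theorem pP_eq {a b : GT} : pP a = pP b ↔ ∃ δ : Gam × Gam, δ +ᵥ b = a :=
  Quotient.eq.trans AddAction.orbitRel_apply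

theorem pM_vadd (γ : Gam) (z : E7) : pM (γ +ᵥ z) = pM z := pM_eq.2 ⟨γ, rfl⟩

theorem pP_vadd (δ : Gam × Gam) (a : GT) : pP (δ +ᵥ a) = pP a := pP_eq.2 ⟨δ, rfl⟩

instance : ConnectedSpace MM := pM_surj.connectedSpace pM_ld.cont

def tG : GG → MM := Quotient.lift (fun a => pM (tT a)) (by
  rintro a b ⟨δ, rfl⟩; exact pM_vadd δ.1 (tT b))

def sG : GG → MM := Quotient.lift (fun a => pM (sT a)) (by
  rintro a b ⟨δ, rfl⟩
  change pM (sT (δ +ᵥ b)) = _
  rw [sT_vadd, pM_vadd])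

def uG : MM → GG := Quotient.lift (fun z => pP (uT z)) (by
  rintro a b ⟨γ, rfl⟩
  change pP (uT (γ +ᵥ b)) = _
  rw [uT_vadd, pP_vadd])

def iG : GG → GG := Quotient.lift (fun a => pP (iT a)) (by
  rintro a b ⟨δ, rfl⟩
  change pP (iT (δ +ᵥ b)) = _
  rw [iT_vadd, pP_vadd])

open Classical in
def mG (a b : GG) : GG :=
  if h : ∃ c : GT × GT, pP c.1 = a ∧ pP c.2 = b ∧ sT c.1 = tT c.2 then
    pP (mT h.choose.1 h.choose.2) else a

theorem tG_pP (a : GT) : tG (pP a) = pM (tT a) := rfl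
theorem sG_pP (a : GT) : sG (pP a) = pM (sT a) := rfl
theorem uG_pM (z : E7) : uG (pM z) = pP (uT z) := rfl
theorem iG_pP (a : GT) : iG (pP a) = pP (iT a) := rfl

theorem mG_pP {a b : GT} (h : sT a = tT b) : mG (pP a) (pP b) = pP (mT a b) := by
  have hex : ∃ c : GT × GT, pP c.1 = pP a ∧ pP c.2 = pP b ∧ sT c.1 = tT c.2 :=
    ⟨(a, b), rfl, rfl, h⟩
  rw [mG, dif_pos hex]
  obtain ⟨h1, h2, h3⟩ := hex.choose_spec
  obtain ⟨⟨γ1, γ2⟩, e1⟩ := pP_eq.1 h1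
  obtain ⟨⟨γ3, γ4⟩, e2⟩ := pP_eq.1 h2
  rw [← e1, ← e2, sT_vadd, tT_vadd, h] at h3
  obtain rfl : γ2 = γ3 := vadd_E7_cancel h3
  rw [← e1, ← e2, mT_vadd _ _ _ h, pP_vadd]

theorem lift_t (b : GG) {z : E7} (h : pM z = tG b) : ∃ b', pP b' = b ∧ tT b' = z := by
  obtain ⟨b, rfl⟩ := pP_surj b
  obtain ⟨γ, rfl⟩ := pM_eq.1 h
  exact ⟨((γ, 0) : Gam × Gam) +ᵥ b, pP_vadd _ _, rfl⟩

theorem lift_s (b : GG) {z : E7} (h : pM z = sG b) : ∃ b', pP b' = b ∧ sT b' = z := by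
  obtain ⟨b, rfl⟩ := pP_surj b
  obtain ⟨γ, rfl⟩ := pM_eq.1 h
  exact ⟨((0, γ) : Gam × Gam) +ᵥ b, pP_vadd _ _, sT_vadd _ _⟩

theorem lift_st (b : GG) {z z' : E7} (h : pM z = tG b) (h' : pM z' = sG b) :
    ∃ b', pP b' = b ∧ tT b' = z ∧ sT b' = z' := by
  obtain ⟨b, rfl⟩ := pP_surj b
  obtain ⟨γ, rfl⟩ := pM_eq.1 h
  obtain ⟨γ', rfl⟩ := pM_eq.1 h'
  exact ⟨(γ, γ') +ᵥ b, pP_vadd _ _, rfl, sT_vadd _ _⟩

theorem smAt_tG (a : GG) : SmAt EG E7 tG a := by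
  obtain ⟨a, rfl⟩ := pP_surj a
  exact pP_ld.smAt_of_comp ((pM_ld.sm _).comp_eq (smAt_tT a) rfl)

theorem smAt_sG (a : GG) : SmAt EG E7 sG a := by
  obtain ⟨a, rfl⟩ := pP_surj a
  exact pP_ld.smAt_of_comp ((pM_ld.sm _).comp_eq (smAt_sT a) rfl)

theorem smAt_uG (a : MM) : SmAt E7 EG uG a := by
  obtain ⟨a, rfl⟩ := pM_surj a
  exact pM_ld.smAt_of_comp ((pP_ld.sm _).comp_eq (smAt_uT a) rfl)

theorem smAt_iG (a : GG) : SmAt EG EG iG a := by
  obtain ⟨a, rfl⟩ := pP_surj a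
  exact pP_ld.smAt_of_comp ((pP_ld.sm _).comp_eq (smAt_iT a) rfl)

theorem D_tG (a : GT) (v : EG) :
    D EG E7 tG (pP a) (D EG EG pP a v) = D E7 E7 pM (tT a) (D EG E7 tT a v) := by
  have h1 := D_comp_eq (smAt_tG (pP a)) (pP_ld.sm a) rfl
  have h2 := D_comp_eq (pM_ld.sm (tT a)) (smAt_tT a) rfl
  exact congrArg (fun L : EG →L[ℝ] E7 => L v) (h1.symm.trans h2)

theorem isGroupoid (Ω : GG → EG →L[ℝ] EG →L[ℝ] ℝ) :
    (⟨sG, tG, uG, iG, mG, Ω⟩ : Grpd EG GG MM).IsGroupoid := by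
  refine ⟨fun x => ?_, fun x => ?_, fun a b h => ?_, fun a b h => ?_, fun a b c h h' => ?_,
    fun a => ?_, fun a => ?_, fun a => ?_, fun a => ?_, fun a => ?_, fun a => ?_⟩ <;> dsimp only
  · obtain ⟨x, rfl⟩ := pM_surj x
    rw [uG_pM, sG_pP, sT_uT]
  · obtain ⟨x, rfl⟩ := pM_surj x
    rfl
  · obtain ⟨a, rfl⟩ := pP_surj a
    obtain ⟨b, rfl, hb⟩ := lift_t b h
    rw [mG_pP hb.symm, sG_pP, sT_mT hb.symm, sG_pP]
  · obtain ⟨a, rfl⟩ := pP_surj a
    obtain ⟨b, rfl, hb⟩ := lift_t b h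
    rw [mG_pP hb.symm]; rfl
  · obtain ⟨a, rfl⟩ := pP_surj a
    obtain ⟨b, rfl, hb⟩ := lift_t b h
    obtain ⟨c, rfl, hc⟩ := lift_t c h'
    rw [mG_pP hb.symm, mG_pP hc.symm, mG_pP ((sT_mT hb.symm).trans hc.symm),
      mG_pP (hb.symm.trans (tT_mT b c).symm), mT_assoc]
  · obtain ⟨a, rfl⟩ := pP_surj a
    rw [tG_pP, uG_pM, mG_pP (sT_uT _), uT_mT]
  · obtain ⟨a, rfl⟩ := pP_surj a
    rw [sG_pP, uG_pM, mG_pP (tT_uT _).symm, mT_uT]
  · obtain ⟨a, rfl⟩ := pP_surj a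
    rw [iG_pP, sG_pP, sT_iT, tG_pP]
  · obtain ⟨a, rfl⟩ := pP_surj a
    rfl
  · obtain ⟨a, rfl⟩ := pP_surj a
    rw [iG_pP, mG_pP (tT_iT a).symm, mT_iT]; rfl
  · obtain ⟨a, rfl⟩ := pP_surj a
    rw [iG_pP, mG_pP (sT_iT a), iT_mT]; rfl

theorem D_tG_surj (a : GG) : Surjective (D EG E7 tG a) := by
  obtain ⟨a, rfl⟩ := pP_surj a
  intro w
  obtain ⟨w', rfl⟩ := (pM_ld.D_bij (tT a)).2 w
  refine ⟨D EG EG pP a ((w'.1, 0, w'.2), 0), ?_⟩
  rw [D_tG, D_tT]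

theorem D_sG_surj (a : GG) : Surjective (D EG E7 sG a) := by
  have hg := isGroupoid fun _ => 0
  have hi : ∀ a, iG (iG a) = a := fun a => by
    obtain ⟨a, rfl⟩ := pP_surj a
    rw [iG_pP, iG_pP, iT_iT]
  have h1 := D_comp_eq (smAt_sG a) (smAt_iG (iG a)) (hi a)
  have h2 : (fun y => sG (iG y)) = tG := funext hg.s_i
  rw [h2] at h1
  have h3 := D_tG_surj (iG a)
  rw [h1] at h3
  exact Surjective.of_comp h3

end Pool.Agent.Lib.MP_91447a_gt
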