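import Pool.Agent.Lib.MP_91447a_gt.Forms

open scoped Manifold ContDiff Topology Quaternion
open Set Function Filter

noncomputable section

namespace Pool.Agent.Lib.MP_91447a_gt

abbrev R4 := Fin 4 → ℝ
abbrev R3 := Fin 3 → ℝ
abbrev E7 := R4 × R3
abbrev Qu := Quaternion ℝ
abbrev W := R4 × R4 × R3
abbrev VV := W × Qu

def dotL (n : ℕ) : (Fin n → ℝ) →L[ℝ] (Fin n → ℝ) →L[ℝ] ℝ :=
  ∑ i, (ContinuousLinearMap.proj i : (Fin n → ℝ) →L[ℝ] ℝ).smulRight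
    (ContinuousLinearMap.proj i : (Fin n → ℝ) →L[ℝ] ℝ)

theorem dotL_apply {n : ℕ} (x y : Fin n → ℝ) : dotL n x y = ∑ i, x i * y i := by
  simp [dotL]

theorem dot4 (x y : R4) : dotL 4 x y = x 0 * y 0 + x 1 * y 1 + x 2 * y 2 + x 3 * y 3 := by
  rw [dotL_apply, Fin.sum_univ_four]

theorem dot3 (x y : R3) : dotL 3 x y = x 0 * y 0 + x 1 * y 1 + x 2 * y 2 := by
  rw [dotL_apply, Fin.sum_univ_three]

def Iop : R4 →L[ℝ] R4 := LinearMap.toContinuousLinearMap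
  { toFun := fun x => ![-x 1, x 0, -x 3, x 2]
    map_add' := fun x y => by ext i; fin_cases i <;> simp <;> ring
    map_smul' := fun c x => by ext i; fin_cases i <;> simp }

def Jop : R4 →L[ℝ] R4 := LinearMap.toContinuousLinearMap
  { toFun := fun x => ![-x 2, x 3, x 0, -x 1]
    map_add' := fun x y => by ext i; fin_cases i <;> simp <;> ring
    map_smul' := fun c x => by ext i; fin_cases i <;> simp }

@[simp] theorem Iop_0 (x : R4) : Iop x 0 = -x 1 := rfl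
@[simp] theorem Iop_1 (x : R4) : Iop x 1 = x 0 := rfl
@[simp] theorem Iop_2 (x : R4) : Iop x 2 = -x 3 := rfl
@[simp] theorem Iop_3 (x : R4) : Iop x 3 = x 2 := rfl
@[simp] theorem Jop_0 (x : R4) : Jop x 0 = -x 2 := rfl
@[simp] theorem Jop_1 (x : R4) : Jop x 1 = x 3 := rfl
@[simp] theorem Jop_2 (x : R4) : Jop x 2 = x 0 := rfl
@[simp] theorem Jop_3 (x : R4) : Jop x 3 = -x 1 := rfl

def hat : R3 →L[ℝ] Qu := LinearMap.toContinuousLinearMap
  { toFun := fun x => ⟨0, x 0, x 1, x 2⟩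
    map_add' := fun x y => by ext <;> simp
    map_smul' := fun c x => by ext <;> simp }

@[simp] theorem hat_re (x : R3) : (hat x).re = 0 := rfl
@[simp] theorem hat_imI (x : R3) : (hat x).imI = x 0 := rfl
@[simp] theorem hat_imJ (x : R3) : (hat x).imJ = x 1 := rfl
@[simp] theorem hat_imK (x : R3) : (hat x).imK = x 2 := rfl

def vee : Qu →L[ℝ] R3 := LinearMap.toContinuousLinearMap
  { toFun := fun q => ![q.imI, q.imJ, q.imK]
    map_add' := fun x y => by ext i; fin_cases i <;> simp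
    map_smul' := fun c x => by ext i; fin_cases i <;> simp }

@[simp] theorem vee_0 (q : Qu) : vee q 0 = q.imI := rfl
@[simp] theorem vee_1 (q : Qu) : vee q 1 = q.imJ := rfl
@[simp] theorem vee_2 (q : Qu) : vee q 2 = q.imK := rfl

def cj : Qu →L[ℝ] Qu := LinearMap.toContinuousLinearMap
  { toFun := fun q => star q
    map_add' := fun x y => by simp
    map_smul' := fun c x => by ext <;> simp }

@[simp] theorem cj_apply (q : Qu) : cj q = star q := rfl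

theorem ext3 {a b : R3} (h0 : a 0 = b 0) (h1 : a 1 = b 1) (h2 : a 2 = b 2) : a = b := by
  ext i; fin_cases i <;> assumption

theorem ext4 {a b : R4} (h0 : a 0 = b 0) (h1 : a 1 = b 1) (h2 : a 2 = b 2) (h3 : a 3 = b 3) :
    a = b := by
  ext i; fin_cases i <;> assumption

theorem vee_hat (x : R3) : vee (hat x) = x := ext3 rfl rfl rfl

theorem hat_vee {q : Qu} (h : q.re = 0) : hat (vee q) = q := by
  ext <;> simp [h]

theorem inner_qu (a b : Qu) :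
    inner ℝ a b = a.re * b.re + a.imI * b.imI + a.imJ * b.imJ + a.imK * b.imK := by
  rw [Quaternion.inner_def]; simp

/-- Squared norm. -/
def ns (g : Qu) : ℝ := g.re ^ 2 + g.imI ^ 2 + g.imJ ^ 2 + g.imK ^ 2

theorem ns_eq (g : Qu) : ns g = ‖g‖ ^ 2 := by
  rw [sq, ← Quaternion.normSq_eq_norm_mul_self, Quaternion.normSq_def']; rfl

theorem ns_mul (g h : Qu) : ns (g * h) = ns g * ns h := by simp [ns]; ring

theorem ns_star (g : Qu) : ns (star g) = ns g := by simp [ns]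

theorem mul_star_of {g : Qu} (h : ns g = 1) : g * star g = 1 := by
  unfold ns at h
  ext <;> simp <;> linarith

theorem star_mul_of {g : Qu} (h : ns g = 1) : star g * g = 1 := by
  unfold ns at h
  ext <;> simp <;> linarith

def cross (a b : R3) : R3 := ![a 1 * b 2 - a 2 * b 1, a 2 * b 0 - a 0 * b 2, a 0 * b 1 - a 1 * b 0]

@[simp] theorem cross_0 (a b : R3) : cross a b 0 = a 1 * b 2 - a 2 * b 1 := rfl
@[simp] theorem cross_1 (a b : R3) : cross a b 1 = a 2 * b 0 - a 0 * b 2 := rfl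
@[simp] theorem cross_2 (a b : R3) : cross a b 2 = a 0 * b 1 - a 1 * b 0 := rfl

def e0 : R3 := ![1, 0, 0]

@[simp] theorem e0_0 : e0 0 = 1 := rfl
@[simp] theorem e0_1 : e0 1 = 0 := rfl
@[simp] theorem e0_2 : e0 2 = 0 := rfl

def Ad (g : Qu) (ξ : R3) : R3 := vee (g * hat ξ * star g)

theorem hat_Ad (g : Qu) (ξ : R3) : hat (Ad g ξ) = g * hat ξ * star g :=
  hat_vee (by simp; ring)

theorem Ad_mul (g h : Qu) (ξ : R3) : Ad (g * h) ξ = Ad g (Ad h ξ) := by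
  rw [Ad, Ad, hat_Ad, star_mul]; simp only [mul_assoc]

theorem Ad_one (ξ : R3) : Ad 1 ξ = ξ := by simp [Ad, vee_hat]

theorem Ad_star_Ad {g : Qu} (h : ns g = 1) (ξ : R3) : Ad (star g) (Ad g ξ) = ξ := by
  rw [← Ad_mul, star_mul_of h, Ad_one]

theorem Ad_Ad_star {g : Qu} (h : ns g = 1) (ξ : R3) : Ad g (Ad (star g) ξ) = ξ := by
  rw [← Ad_mul, mul_star_of h, Ad_one]

theorem dot_Ad (g : Qu) (ξ η : R3) : dotL 3 (Ad g ξ) (Ad g η) = ns g ^ 2 * dotL 3 ξ η := by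
  simp [dot3, Ad, ns]; ring

theorem Ad_zero (g : Qu) : Ad g 0 = 0 := by simp [Ad]

def nv (g : Qu) : R3 := Ad g e0

theorem dot_nv (g : Qu) (ξ : R3) : dotL 3 ξ (nv g) = Ad (star g) ξ 0 := by
  simp [dot3, nv, Ad]; ring

theorem contDiff_star : ContDiff ℝ ∞ (fun q : Qu => star q) := cj.contDiff

theorem contDiffAt_Ad {Z : Type} [NormedAddCommGroup Z] [NormedSpace ℝ Z] {g : Z → Qu}
    {ξ : Z → R3} {z : Z} (hg : ContDiffAt ℝ ∞ g z) (hξ : ContDiffAt ℝ ∞ ξ z) :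
    ContDiffAt ℝ ∞ (fun w => Ad (g w) (ξ w)) z :=
  vee.contDiff.contDiffAt.comp z ((hg.mul (hat.contDiff.contDiffAt.comp z hξ)).mul
    (contDiff_star.contDiffAt.comp z hg))

theorem hasFDerivAt_Ad {Z : Type} [NormedAddCommGroup Z] [NormedSpace ℝ Z] {g : Z → Qu}
    {ξ : Z → R3} {z : Z} {g' : Z →L[ℝ] Qu} {ξ' : Z →L[ℝ] R3} (hg : HasFDerivAt g g' z)
    (hξ : HasFDerivAt ξ ξ' z) : ∃ L : Z →L[ℝ] R3, HasFDerivAt (fun w => Ad (g w) (ξ w)) L z ∧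
      ∀ v, L v = vee (g' v * hat (ξ z) * star (g z) + g z * hat (ξ' v) * star (g z) +
        g z * hat (ξ z) * star (g' v)) := by
  refine ⟨_, vee.hasFDerivAt.comp z ((hg.mul' (hat.hasFDerivAt.comp z hξ)).mul'
    (cj.hasFDerivAt.comp z hg)), fun v => ?_⟩
  simp
  abel

def pX : VV →L[ℝ] R4 := (ContinuousLinearMap.fst ℝ R4 (R4 × R3)).comp (.fst ℝ W Qu)
def pY : VV →L[ℝ] R4 :=
  (ContinuousLinearMap.fst ℝ R4 R3).comp ((ContinuousLinearMap.snd ℝ R4 (R4 × R3)).comp (.fst ℝ W Qu))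
def pXi : VV →L[ℝ] R3 :=
  (ContinuousLinearMap.snd ℝ R4 R3).comp ((ContinuousLinearMap.snd ℝ R4 (R4 × R3)).comp (.fst ℝ W Qu))
def pG : VV →L[ℝ] Qu := .snd ℝ W Qu

@[simp] theorem pX_apply (q : VV) : pX q = q.1.1 := rfl
@[simp] theorem pY_apply (q : VV) : pY q = q.1.2.1 := rfl
@[simp] theorem pXi_apply (q : VV) : pXi q = q.1.2.2 := rfl
@[simp] theorem pG_apply (q : VV) : pG q = q.2 := rfl

/-- The primitive of the symplectic form. -/
def Lam (q : VV) : VV →L[ℝ] ℝ :=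
  (dotL 4 (Iop (pX q) - pXi q 0 • Jop (pX q))).comp pX -
    (dotL 4 (Iop (pY q) - dotL 3 (pXi q) (nv (pG q)) • Jop (pY q))).comp pY +
    (innerSL ℝ (hat (pXi q) * pG q)).comp pG

theorem Lam_apply (q w : VV) : Lam q w =
    dotL 4 (Iop q.1.1 - q.1.2.2 0 • Jop q.1.1) w.1.1 -
      dotL 4 (Iop q.1.2.1 - dotL 3 q.1.2.2 (nv q.2) • Jop q.1.2.1) w.1.2.1 +
      inner ℝ (hat q.1.2.2 * q.2) w.2 := rfl

theorem contDiff_nv : ContDiff ℝ ∞ nv :=
  contDiff_iff_contDiffAt.2 fun _ => contDiffAt_Ad contDiffAt_id contDiffAt_const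

theorem contDiff_Lam : ContDiff ℝ ∞ Lam := by
  have h0 : ContDiff ℝ ∞ (fun q : VV => pXi q 0) :=
    (contDiff_apply ℝ ℝ (0 : Fin 3)).comp pXi.contDiff
  have h1 : ContDiff ℝ ∞ (fun q : VV => dotL 3 (pXi q) (nv (pG q))) :=
    ((dotL 3).contDiff.comp pXi.contDiff).clm_apply (contDiff_nv.comp pG.contDiff)
  refine (ContDiff.sub ?_ ?_).add ?_
  · exact ((dotL 4).contDiff.comp ((Iop.contDiff.comp pX.contDiff).sub
      (h0.smul (Jop.contDiff.comp pX.contDiff)))).clm_comp contDiff_const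
  · exact ((dotL 4).contDiff.comp ((Iop.contDiff.comp pY.contDiff).sub
      (h1.smul (Jop.contDiff.comp pY.contDiff)))).clm_comp contDiff_const
  · exact ((innerSL ℝ (E := Qu)).contDiff.comp
      ((hat.contDiff.comp pXi.contDiff).mul pG.contDiff)).clm_comp contDiff_const

theorem fderiv_Lam (q u w : VV) : fderiv ℝ Lam q u w =
    dotL 4 (Iop u.1.1 - (q.1.2.2 0 • Jop u.1.1 + u.1.2.2 0 • Jop q.1.1)) w.1.1 -
      dotL 4 (Iop u.1.2.1 - (dotL 3 q.1.2.2 (nv q.2) • Jop u.1.2.1 +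
        (dotL 3 u.1.2.2 (nv q.2) + dotL 3 q.1.2.2
          (vee (u.2 * hat e0 * star q.2 + q.2 * hat e0 * star u.2))) • Jop q.1.2.1)) w.1.2.1 +
      inner ℝ (hat u.1.2.2 * q.2 + hat q.1.2.2 * u.2) w.2 := by
  have hd : DifferentiableAt ℝ Lam q := cda_diff contDiff_Lam.contDiffAt
  have e : fderiv ℝ Lam q u w = fderiv ℝ (fun q => Lam q w) q u := by
    rw [fderiv_clm_apply hd (differentiableAt_const _)]; simp
  obtain ⟨L, hL, hL'⟩ := hasFDerivAt_Ad (g := fun q : VV => pG q) (ξ := fun _ => e0) (z := q)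
    pG.hasFDerivAt (hasFDerivAt_const e0 q)
  have h0 : HasFDerivAt (fun q : VV => pXi q 0)
      ((ContinuousLinearMap.proj (0 : Fin 3) : R3 →L[ℝ] ℝ).comp pXi) q :=
    ((ContinuousLinearMap.proj (0 : Fin 3) : R3 →L[ℝ] ℝ).comp pXi).hasFDerivAt
  have h1 := ((dotL 3).hasFDerivAt.comp q pXi.hasFDerivAt).clm_apply hL
  have h2 := ((dotL 4).flip w.1.1).hasFDerivAt.comp q
    ((Iop.hasFDerivAt.comp q pX.hasFDerivAt).sub
      (h0.smul (Jop.hasFDerivAt.comp q pX.hasFDerivAt)))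
  have h3 := ((dotL 4).flip w.1.2.1).hasFDerivAt.comp q
    ((Iop.hasFDerivAt.comp q pY.hasFDerivAt).sub
      (h1.smul (Jop.hasFDerivAt.comp q pY.hasFDerivAt)))
  have h4 := ((innerSL ℝ (E := Qu)).flip w.2).hasFDerivAt.comp q
    ((hat.hasFDerivAt.comp q pXi.hasFDerivAt).mul' pG.hasFDerivAt)
  have h5 : HasFDerivAt (fun q => Lam q w) _ q := (h2.sub h3).add h4
  rw [e, h5.fderiv]
  simp [hL', nv, inner_add_left]
  rw [innerSL_apply_apply, innerSL_apply_apply, real_inner_comm w.2, real_inner_comm w.2]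
  ring

/-- A tangent vector to `W × S³` in the right-invariant frame. -/
def tv (g : Qu) (X Y : R4) (Ξ Z : R3) : VV := ((X, Y, Ξ), hat Z * g)

def omF (x y : R4) (ξ n : R3) (X Y : R4) (Ξ Z : R3) (X' Y' : R4) (Z' : R3) : ℝ :=
  dotL 4 (Iop X - (ξ 0 • Jop X + Ξ 0 • Jop x)) X' -
    dotL 4 (Iop Y - (dotL 3 ξ n • Jop Y + (dotL 3 Ξ n + 2 * dotL 3 ξ (cross Z n)) • Jop y)) Y' +
    (dotL 3 Ξ Z' + dotL 3 (cross ξ Z) Z')

theorem fderiv_Lam_tv {x y : R4} {ξ : R3} {g : Qu} (hg : ns g = 1) (X Y : R4) (Ξ Z : R3)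
    (X' Y' : R4) (Ξ' Z' : R3) :
    fderiv ℝ Lam ((x, y, ξ), g) (tv g X Y Ξ Z) (tv g X' Y' Ξ' Z') =
      omF x y ξ (nv g) X Y Ξ Z X' Y' Z' := by
  rw [fderiv_Lam, omF]
  have e1 : dotL 3 ξ (vee (hat Z * g * hat e0 * star g + g * hat e0 * star (hat Z * g))) =
      2 * dotL 3 ξ (cross Z (nv g)) := by
    simp [dot3, nv, Ad]; ring
  have e2 : inner ℝ (hat Ξ * g + hat ξ * (hat Z * g)) (hat Z' * g) =
      ns g * (dotL 3 Ξ Z' + dotL 3 (cross ξ Z) Z') := by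
    simp [inner_qu, dot3, ns]; ring
  simp only [tv]
  rw [e1, e2, hg, one_mul]

theorem dForm_tv {x y : R4} {ξ : R3} {g : Qu} (hg : ns g = 1) (X Y : R4) (Ξ Z : R3)
    (X' Y' : R4) (Ξ' Z' : R3) :
    dForm Lam ((x, y, ξ), g) (tv g X Y Ξ Z) (tv g X' Y' Ξ' Z') =
      omF x y ξ (nv g) X Y Ξ Z X' Y' Z' - omF x y ξ (nv g) X' Y' Ξ' Z' X Y Z := by
  rw [dForm_apply, fderiv_Lam_tv hg, fderiv_Lam_tv hg]

theorem exists_tv {g : Qu} (hg : ns g = 1) (u : VV) (hu : inner ℝ g u.2 = 0) :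
    ∃ Z, u = tv g u.1.1 u.1.2.1 u.1.2.2 Z := by
  refine ⟨vee (u.2 * star g), ?_⟩
  have : (u.2 * star g).re = 0 := by
    rw [inner_qu] at hu; simp; linarith
  simp only [tv]
  rw [hat_vee this, mul_assoc, star_mul_of hg, mul_one]

theorem inner_tv (g : Qu) (X Y : R4) (Ξ Z : R3) : inner ℝ g (tv g X Y Ξ Z).2 = 0 := by
  simp [tv, inner_qu]; ring

/-- The Poisson tensor upstairs, on the components of a covector. -/
def Kx (x : R4) (ξ : R3) (a : R4) (ζ : R3) : R4 :=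
  (-(2 * (1 + ξ 0 ^ 2))⁻¹) • (Iop (a + (2 * cross ξ ζ 0) • Jop x) -
    ξ 0 • Jop (a + (2 * cross ξ ζ 0) • Jop x))

def Kxi (x : R4) (ξ : R3) (a : R4) (ζ : R3) : R3 :=
  (2 : ℝ) • cross ξ ζ - (2 * dotL 4 (Jop x) (Kx x ξ a ζ)) • cross ξ e0

theorem solve_IJ {t : ℝ} {X b : R4} (h0 : 2 * (-X 1 + t * X 2) = b 0)
    (h1 : 2 * (X 0 - t * X 3) = b 1) (h2 : 2 * (-X 3 - t * X 0) = b 2)
    (h3 : 2 * (X 2 + t * X 1) = b 3) :
    X = (-(2 * (1 + t ^ 2))⁻¹) • (Iop b - t • Jop b) := by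
  have ht : (1 + t ^ 2) ≠ 0 := by positivity
  refine ext4 ?_ ?_ ?_ ?_ <;> simp [← h0, ← h1, ← h2, ← h3] <;> field_simp <;> ring

theorem solve_om {x y : R4} {ξ n : R3} {X Y : R4} {Ξ Z : R3} {a : R4} {ζ : R3}
    (h : ∀ X' Y' Ξ' Z', omF x y ξ n X Y Ξ Z X' Y' Z' - omF x y ξ n X' Y' Ξ' Z' X Y Z =
      dotL 4 a X' + dotL 3 ζ Ξ') :
    X = Kx x ξ a ζ ∧ Ξ = Kxi x ξ a ζ ∧
      Z = dotL 4 (Jop x) X • e0 - dotL 4 (Jop y) Y • n - ζ ∧
      (a = 0 → ζ = 0 → Y = 0) := by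
  have a0 := h 0 0 ![1, 0, 0] 0
  have a1 := h 0 0 ![0, 1, 0] 0
  have a2 := h 0 0 ![0, 0, 1] 0
  have b0 := h 0 0 0 ![1, 0, 0]
  have b1 := h 0 0 0 ![0, 1, 0]
  have b2 := h 0 0 0 ![0, 0, 1]
  have c0 := h ![1, 0, 0, 0] 0 0 0
  have c1 := h ![0, 1, 0, 0] 0 0 0
  have c2 := h ![0, 0, 1, 0] 0 0 0
  have c3 := h ![0, 0, 0, 1] 0 0 0
  have d0 := h 0 ![1, 0, 0, 0] 0 0
  have d1 := h 0 ![0, 1, 0, 0] 0 0
  have d2 := h 0 ![0, 0, 1, 0] 0 0
  have d3 := h 0 ![0, 0, 0, 1] 0 0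
  simp [omF, dot3, dot4] at a0 a1 a2 b0 b1 b2 c0 c1 c2 c3 d0 d1 d2 d3
  set s := dotL 4 (Jop x) X with hs
  set r := dotL 4 (Jop y) Y with hr
  simp [dot4] at hs hr
  have z0 : Z 0 = s - r * n 0 - ζ 0 := by linear_combination -a0 - hs + n 0 * hr
  have z1 : Z 1 = -r * n 1 - ζ 1 := by linear_combination -a1 + n 1 * hr
  have z2 : Z 2 = -r * n 2 - ζ 2 := by linear_combination -a2 + n 2 * hr
  have x0 : Ξ 0 = 2 * (ξ 1 * ζ 2 - ξ 2 * ζ 1) := by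
    linear_combination b0 - 2 * ξ 1 * z2 + 2 * ξ 2 * z1 + 2 * (ξ 1 * n 2 - ξ 2 * n 1) * hr
  have x1 : Ξ 1 = 2 * (ξ 2 * ζ 0 - ξ 0 * ζ 2) - 2 * s * ξ 2 := by
    linear_combination b1 - 2 * ξ 2 * z0 + 2 * ξ 0 * z2 + 2 * (ξ 2 * n 0 - ξ 0 * n 2) * hr
  have x2 : Ξ 2 = 2 * (ξ 0 * ζ 1 - ξ 1 * ζ 0) + 2 * s * ξ 1 := by
    linear_combination b2 - 2 * ξ 0 * z1 + 2 * ξ 1 * z0 + 2 * (ξ 0 * n 1 - ξ 1 * n 0) * hr
  have hX : X = Kx x ξ a ζ := by
    refine solve_IJ ?_ ?_ ?_ ?_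
    · simp; linear_combination c0 - x 2 * x0
    · simp; linear_combination c1 + x 3 * x0
    · simp; linear_combination c2 + x 0 * x0
    · simp; linear_combination c3 - x 1 * x0
  refine ⟨hX, ?_, ?_, fun ha hζ => ?_⟩
  · unfold Kxi
    rw [← hX]
    refine ext3 ?_ ?_ ?_
    · simp; linear_combination x0
    · simp [dot4]; linear_combination x1 - 2 * ξ 2 * hs
    · simp [dot4]; linear_combination x2 + 2 * ξ 1 * hs
  · refine ext3 ?_ ?_ ?_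
    · simp; linear_combination z0
    · simp; linear_combination z1
    · simp; linear_combination z2
  · have hX0 : X = 0 := by rw [hX, ha, hζ]; ext i; simp [Kx]
    have hs0 : s = 0 := by rw [hs, hX0]; simp
    subst hζ
    simp [hs0] at x0 x1 x2 z0 z1 z2
    have hY : Y = (-(2 * (1 + (ξ 0 * n 0 + ξ 1 * n 1 + ξ 2 * n 2) ^ 2))⁻¹) •
        (Iop 0 - (ξ 0 * n 0 + ξ 1 * n 1 + ξ 2 * n 2) • Jop 0) := by
      rw [x0, x1, x2, z0, z1, z2] at d0 d1 d2 d3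
      refine solve_IJ ?_ ?_ ?_ ?_
      · simp; linear_combination -d0 / 2
      · simp; linear_combination -d1 / 2
      · simp; linear_combination -d2 / 2
      · simp; linear_combination -d3 / 2
    rw [hY]; simp

end Pool.Agent.Lib.MP_91447a_gt
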