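import Pool.Agent.Lib.MP_91447a_gt.Defs

open scoped Manifold ContDiff Topology
open Set Function Filter

noncomputable section

namespace Pool.Agent.Lib.MP_91447a_gt

variable
  {E₁ : Type} [NormedAddCommGroup E₁] [NormedSpace ℝ E₁]
  {M₁ : Type} [TopologicalSpace M₁] [ChartedSpace E₁ M₁]
  {E₂ : Type} [NormedAddCommGroup E₂] [NormedSpace ℝ E₂]
  {M₂ : Type} [TopologicalSpace M₂] [ChartedSpace E₂ M₂]
  {E₃ : Type} [NormedAddCommGroup E₃] [NormedSpace ℝ E₃]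
  {M₃ : Type} [TopologicalSpace M₃] [ChartedSpace E₃ M₃]

variable (E₁ E₂) in
/-- Smooth at a point. -/
abbrev SmAt (f : M₁ → M₂) (x : M₁) : Prop := ContMDiffAt 𝓘(ℝ, E₁) 𝓘(ℝ, E₂) ∞ f x

theorem SmAt.mdiff {f : M₁ → M₂} {x : M₁} (h : SmAt E₁ E₂ f x) :
    MDifferentiableAt 𝓘(ℝ, E₁) 𝓘(ℝ, E₂) f x := h.mdifferentiableAt (by simp)

theorem Sm.smAt {f : M₁ → M₂} {U : Set M₁} (h : Sm E₁ E₂ f U) (hU : IsOpen U) {x : M₁}
    (hx : x ∈ U) : SmAt E₁ E₂ f x := ContMDiffOn.contMDiffAt h (hU.mem_nhds hx)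

theorem sm_of_smAt {f : M₁ → M₂} {U : Set M₁} (h : ∀ x ∈ U, SmAt E₁ E₂ f x) : Sm E₁ E₂ f U :=
  fun x hx => (h x hx).contMDiffWithinAt

theorem SmAt.comp' {f : M₁ → M₂} {g : M₂ → M₃} {x : M₁} (hg : SmAt E₂ E₃ g (f x))
    (hf : SmAt E₁ E₂ f x) : SmAt E₁ E₃ (fun y => g (f y)) x := ContMDiffAt.comp x hg hf

theorem SmAt.comp_eq {f : M₁ → M₂} {g : M₂ → M₃} {x : M₁} {y : M₂} (hg : SmAt E₂ E₃ g y)
    (hf : SmAt E₁ E₂ f x) (h : f x = y) : SmAt E₁ E₃ (fun y => g (f y)) x := by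
  subst h; exact hg.comp' hf

theorem SmAt.congr' {f g : M₁ → M₂} {x : M₁} (hf : SmAt E₁ E₂ f x) (h : g =ᶠ[𝓝 x] f) :
    SmAt E₁ E₂ g x := ContMDiffAt.congr_of_eventuallyEq hf h

theorem smAt_iff_contDiffAt {f : E₁ → E₂} {x : E₁} : SmAt E₁ E₂ f x ↔ ContDiffAt ℝ ∞ f x :=
  contMDiffAt_iff_contDiffAt

theorem D_comp {f : M₁ → M₂} {g : M₂ → M₃} {x : M₁} (hg : SmAt E₂ E₃ g (f x))
    (hf : SmAt E₁ E₂ f x) :
    D E₁ E₃ (fun y => g (f y)) x = (D E₂ E₃ g (f x)).comp (D E₁ E₂ f x) :=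
  mfderiv_comp x hg.mdiff hf.mdiff

theorem D_comp_eq {f : M₁ → M₂} {g : M₂ → M₃} {x : M₁} {y : M₂} (hg : SmAt E₂ E₃ g y)
    (hf : SmAt E₁ E₂ f x) (h : f x = y) :
    D E₁ E₃ (fun y => g (f y)) x = (D E₂ E₃ g y).comp (D E₁ E₂ f x) := by
  subst h; exact D_comp hg hf

theorem D_congr {f g : M₁ → M₂} {x : M₁} (h : f =ᶠ[𝓝 x] g) : D E₁ E₂ f x = D E₁ E₂ g x :=
  h.mfderiv_eq

theorem D_id {x : M₁} : D E₁ E₁ (fun y : M₁ => y) x = ContinuousLinearMap.id ℝ E₁ := mfderiv_id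

theorem D_eq_fderiv {f : E₁ → E₂} {x : E₁} : D E₁ E₂ f x = fderiv ℝ f x := mfderiv_eq_fderiv

/-- A smooth local section of `p` through `x`. -/
structure IsSec (E₁ E₂ : Type) [NormedAddCommGroup E₁] [NormedSpace ℝ E₁]
    [NormedAddCommGroup E₂] [NormedSpace ℝ E₂] [ChartedSpace E₁ M₁] [ChartedSpace E₂ M₂]
    (p : M₁ → M₂) (x : M₁) (σ : M₂ → M₁) : Prop where
  self : σ (p x) = x
  sm : ∀ᶠ y in 𝓝 (p x), SmAt E₂ E₁ σ y
  right : ∀ᶠ y in 𝓝 (p x), p (σ y) = y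
  left : ∀ᶠ x' in 𝓝 x, σ (p x') = x'

variable (E₁ E₂) in
/-- A local diffeomorphism, in the form used below. -/
structure LocDiff (p : M₁ → M₂) : Prop where
  sm : ∀ x, SmAt E₁ E₂ p x
  sec : ∀ x, ∃ σ, IsSec E₁ E₂ p x σ

theorem locDiff_of {p : M₁ → M₂} (h : IsLocalDiffeomorph 𝓘(ℝ, E₁) 𝓘(ℝ, E₂) ∞ p) :
    LocDiff E₁ E₂ p := by
  refine ⟨fun x => (h x).contMDiffAt, fun x => ⟨(h x).localInverse, ?_, ?_, ?_, ?_⟩⟩
  · exact (h x).localInverse_left_inv (h x).localInverse_mem_target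
  · filter_upwards [(h x).localInverse_open_source.mem_nhds (h x).localInverse_mem_source]
      with y hy
    exact (h x).localInverse_contMDiffOn.contMDiffAt
      ((h x).localInverse_open_source.mem_nhds hy)
  · exact (h x).localInverse_eventuallyEq_right
  · exact (h x).localInverse_eventuallyEq_left

namespace IsSec

variable {p : M₁ → M₂} {x : M₁} {σ : M₂ → M₁}

theorem smAt (h : IsSec E₁ E₂ p x σ) : SmAt E₂ E₁ σ (p x) := h.sm.self_of_nhds

theorem D_right (h : IsSec E₁ E₂ p x σ) (hp : SmAt E₁ E₂ p x) (v : E₂) :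
    D E₁ E₂ p x (D E₂ E₁ σ (p x) v) = v := by
  have h1 := D_comp_eq (f := σ) (g := p) (x := p x) hp h.smAt h.self
  have h2 : D E₂ E₂ (fun y => p (σ y)) (p x) = D E₂ E₂ (fun y : M₂ => y) (p x) :=
    D_congr h.right
  rw [h2, D_id] at h1
  exact (congrArg (fun L : E₂ →L[ℝ] E₂ => L v) h1).symm

theorem D_left (h : IsSec E₁ E₂ p x σ) (hp : SmAt E₁ E₂ p x) (v : E₁) :
    D E₂ E₁ σ (p x) (D E₁ E₂ p x v) = v := by
  have h1 := D_comp (f := p) (g := σ) (x := x) h.smAt hp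
  have h2 : D E₁ E₁ (fun y => σ (p y)) x = D E₁ E₁ (fun y : M₁ => y) x := D_congr h.left
  rw [h2, D_id] at h1
  exact (congrArg (fun L : E₁ →L[ℝ] E₁ => L v) h1).symm

end IsSec

namespace LocDiff

variable {p : M₁ → M₂}

theorem cont (hp : LocDiff E₁ E₂ p) : Continuous p :=
  continuous_iff_continuousAt.2 fun x => (hp.sm x).continuousAt

theorem D_bij (hp : LocDiff E₁ E₂ p) (x : M₁) : Bijective (D E₁ E₂ p x) := by
  obtain ⟨σ, hσ⟩ := hp.sec x
  exact ⟨LeftInverse.injective (hσ.D_left (hp.sm x)),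
    RightInverse.surjective (hσ.D_right (hp.sm x))⟩

theorem unique {Z : Type} [TopologicalSpace Z] (hp : LocDiff E₁ E₂ p) {a b : Z → M₁} {z : Z}
    (ha : ContinuousAt a z) (hb : ContinuousAt b z) (h0 : a z = b z)
    (h : ∀ᶠ w in 𝓝 z, p (a w) = p (b w)) : a =ᶠ[𝓝 z] b := by
  obtain ⟨σ, hσ⟩ := hp.sec (a z)
  have h1 := ha.eventually hσ.left
  have h2 := hb.eventually (h0 ▸ hσ.left)
  filter_upwards [h, h1, h2] with w hw h1 h2
  rw [← h1, ← h2, hw]

theorem lift (hp : LocDiff E₁ E₂ p) {a : M₃ → M₂} {z : M₃}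
    (ha : ∀ᶠ w in 𝓝 z, SmAt E₃ E₂ a w) {x : M₁} (hx : p x = a z) :
    ∃ b : M₃ → M₁, b z = x ∧ (∀ᶠ w in 𝓝 z, SmAt E₃ E₁ b w) ∧ ∀ᶠ w in 𝓝 z, p (b w) = a w := by
  obtain ⟨σ, hσ⟩ := hp.sec x
  have hc : ContinuousAt a z := ha.self_of_nhds.continuousAt
  refine ⟨fun w => σ (a w), by simp only [← hx, hσ.self], ?_, ?_⟩
  · filter_upwards [ha, hc.eventually (hx ▸ hσ.sm)] with w h1 h2
    exact h2.comp' h1
  · exact hc.eventually (hx ▸ hσ.right)

theorem smAt_of_comp (hp : LocDiff E₁ E₂ p) {f : M₂ → M₃} {x : M₁}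
    (h : SmAt E₁ E₃ (fun y => f (p y)) x) : SmAt E₂ E₃ f (p x) := by
  obtain ⟨σ, hσ⟩ := hp.sec x
  refine (h.comp_eq hσ.smAt hσ.self).congr' ?_
  filter_upwards [hσ.right] with y hy
  rw [hy]

theorem isOpenMap (hp : LocDiff E₁ E₂ p) : IsOpenMap p := by
  refine isOpenMap_iff_nhds_le.2 fun x => ?_
  obtain ⟨σ, hσ⟩ := hp.sec x
  intro s hs
  have h1 : ∀ᶠ y in 𝓝 (p x), σ y ∈ p ⁻¹' s :=
    hσ.smAt.continuousAt.eventually (by rw [hσ.self]; exact hs)
  filter_upwards [h1, hσ.right] with y h1 h2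
  rwa [mem_preimage, h2] at h1

/-- The differential as a continuous linear equivalence. -/
def De (hp : LocDiff E₁ E₂ p) (x : M₁) : E₁ ≃L[ℝ] E₂ :=
  ContinuousLinearEquiv.equivOfInverse (D E₁ E₂ p x) (D E₂ E₁ (hp.sec x).choose (p x))
    ((hp.sec x).choose_spec.D_left (hp.sm x)) ((hp.sec x).choose_spec.D_right (hp.sm x))

theorem De_apply (hp : LocDiff E₁ E₂ p) (x : M₁) (v : E₁) : hp.De x v = D E₁ E₂ p x v := rfl

theorem exists_desc2 (hp : LocDiff E₁ E₂ p) (hs : Surjective p)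
    (T : M₁ → E₁ →L[ℝ] E₁ →L[ℝ] ℝ)
    (hT : ∀ x x' u u' v v', p x = p x' → D E₁ E₂ p x u = D E₁ E₂ p x' u' →
      D E₁ E₂ p x v = D E₁ E₂ p x' v' → T x u v = T x' u' v') :
    ∃ S : M₂ → E₂ →L[ℝ] E₂ →L[ℝ] ℝ, ∀ x u v,
      S (p x) (D E₁ E₂ p x u) (D E₁ E₂ p x v) = T x u v := by
  refine ⟨fun y => (T (surjInv hs y)).bilinearComp
    ((hp.De (surjInv hs y)).symm : E₂ →L[ℝ] E₁) ((hp.De (surjInv hs y)).symm : E₂ →L[ℝ] E₁),
    fun x u v => ?_⟩
  simp only [ContinuousLinearMap.bilinearComp_apply, ContinuousLinearEquiv.coe_coe]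
  refine hT _ _ _ _ _ _ (surjInv_eq hs _) ?_ ?_ <;>
    rw [← De_apply hp, ContinuousLinearEquiv.apply_symm_apply]

theorem exists_descB (hp : LocDiff E₁ E₂ p) (hs : Surjective p)
    (T : M₁ → (E₁ →L[ℝ] ℝ) →L[ℝ] E₁)
    (hT : ∀ x x' (α : E₂ →L[ℝ] ℝ), p x = p x' →
      D E₁ E₂ p x (T x (α.comp (D E₁ E₂ p x))) = D E₁ E₂ p x' (T x' (α.comp (D E₁ E₂ p x')))) :
    ∃ S : M₂ → (E₂ →L[ℝ] ℝ) →L[ℝ] E₂, ∀ x (α : E₂ →L[ℝ] ℝ),
      S (p x) α = D E₁ E₂ p x (T x (α.comp (D E₁ E₂ p x))) := by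
  refine ⟨fun y => (D E₁ E₂ p (surjInv hs y)).comp ((T (surjInv hs y)).comp
    ((ContinuousLinearMap.compL ℝ E₁ E₂ ℝ).flip (D E₁ E₂ p (surjInv hs y)))), fun x α => ?_⟩
  exact hT _ _ α (surjInv_eq hs _)

end LocDiff

/-- Quotient of a manifold by a free, properly discontinuous, smooth action. -/
theorem quot_manifold {Γ : Type} [AddGroup Γ] [AddAction Γ M₁] [ProperlyDiscontinuousVAdd Γ M₁]
    [ContinuousConstVAdd Γ M₁] [IsCancelVAdd Γ M₁] [T2Space M₁] [LocallyCompactSpace M₁]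
    [IsManifold 𝓘(ℝ, E₁) ∞ M₁] (hsm : ∀ (γ : Γ) (x : M₁), SmAt E₁ E₁ (fun y : M₁ => γ +ᵥ y) x) :
    ∃ _ : ChartedSpace E₁ (AddAction.orbitRel.Quotient Γ M₁),
      IsManifold 𝓘(ℝ, E₁) ∞ (AddAction.orbitRel.Quotient Γ M₁) ∧
      LocDiff E₁ E₁ (Quotient.mk (AddAction.orbitRel Γ M₁)) := by
  set p : M₁ → AddAction.orbitRel.Quotient Γ M₁ := Quotient.mk (AddAction.orbitRel Γ M₁) with hp
  have hl : IsLocalHomeomorph p :=
    (isAddQuotientCoveringMap_quotientMk_of_properlyDiscontinuousVAdd (G := Γ)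
      (E := M₁)).isCoveringMap.isLocalHomeomorph
  have hs : Surjective p := Quotient.mk_surjective
  let g := surjInv hs
  have hg : RightInverse g p := rightInverse_surjInv hs
  let cs : ChartedSpace E₁ (AddAction.orbitRel.Quotient Γ M₁) := hl.chartedSpaceOfRightInverse hg
  have key : ∀ (x y : M₁), p y ∈ (hl.localInverseAt x).source →
      SmAt E₁ E₁ (fun w => hl.localInverseAt x (p w)) y := by
    intro x y hy
    have h1 : p (hl.localInverseAt x (p y)) = p y := hl.apply_localInverseAt_of_mem hy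
    obtain ⟨γ, hγ⟩ : ∃ γ : Γ, γ +ᵥ y = hl.localInverseAt x (p y) :=
      (AddAction.orbitRel_apply.1 (Quotient.exact h1))
    refine (hsm γ y).congr' ?_
    have hc : ContinuousAt (fun w => hl.localInverseAt x (p w)) y :=
      ((hl.localInverseAt x).continuousAt hy).comp hl.continuous.continuousAt
    have ht : γ +ᵥ y ∈ (hl.localInverseAt x).target := by
      rw [hγ]; exact (hl.localInverseAt x).map_source hy
    have h2 := (hsm γ y).continuousAt.eventually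
      ((hl.localInverseAt x).open_target.mem_nhds ht)
    have h3 := hl.continuous.continuousAt.eventually
      ((hl.localInverseAt x).open_source.mem_nhds hy)
    filter_upwards [h2, h3] with w h2 h3
    refine hl.injOn_localInverseAt_target ((hl.localInverseAt x).map_source h3) h2 ?_
    rw [hl.apply_localInverseAt_of_mem h3]
    exact (Quotient.sound (AddAction.orbitRel_apply.2 ⟨γ, rfl⟩)).symm
  have hM : IsManifold 𝓘(ℝ, E₁) ∞ (AddAction.orbitRel.Quotient Γ M₁) := by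
    refine isManifold_of_contDiffOn _ _ _ ?_
    rintro _ _ ⟨q, rfl⟩ ⟨q', rfl⟩
    simp only [mfld_simps]
    intro z hz
    simp only [mfld_simps] at hz
    obtain ⟨⟨hz1, hz2⟩, hz3, hz4⟩ := hz
    simp only [IsLocalHomeomorph.localInverseAt_symm] at hz3 hz4 ⊢
    have h1 : SmAt E₁ E₁ (chartAt E₁ (g q)).symm z :=
      (contMDiffOn_chart_symm (n := ∞)).contMDiffAt ((chartAt E₁ (g q)).open_target.mem_nhds hz1)
    have h2 := key (g q') _ hz3
    have h3 : SmAt E₁ E₁ (chartAt E₁ (g q')) (hl.localInverseAt (g q')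
        (p ((chartAt E₁ (g q)).symm z))) :=
      (contMDiffOn_chart (n := ∞)).contMDiffAt ((chartAt E₁ (g q')).open_source.mem_nhds hz4)
    exact (smAt_iff_contDiffAt.1 (h3.comp_eq (h2.comp_eq h1 rfl) rfl)).contDiffWithinAt
  have hch : ∀ q : AddAction.orbitRel.Quotient Γ M₁,
      chartAt E₁ q = (hl.localInverseAt (g q)).trans (chartAt E₁ (g q)) := fun q => rfl
  have hpsm : ∀ x, SmAt E₁ E₁ p x := by
    intro x
    have hx := mem_chart_source E₁ (p x)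
    have h0 : SmAt E₁ E₁ (chartAt E₁ (p x)).symm (chartAt E₁ (p x) (p x)) :=
      (contMDiffOn_chart_symm (n := ∞)).contMDiffAt
        ((chartAt E₁ (p x)).open_target.mem_nhds ((chartAt E₁ (p x)).map_source hx))
    have h1 : SmAt E₁ E₁ (fun w => chartAt E₁ (p x) (p w)) x := by
      rw [hch] at hx ⊢
      simp only [mfld_simps] at hx ⊢
      have h3 : SmAt E₁ E₁ (chartAt E₁ (g (p x))) (hl.localInverseAt (g (p x)) (p x)) :=
        (contMDiffOn_chart (n := ∞)).contMDiffAt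
          ((chartAt E₁ (g (p x))).open_source.mem_nhds hx.2)
      exact h3.comp_eq (key _ _ hx.1) rfl
    refine (h0.comp_eq h1 rfl).congr' ?_
    filter_upwards [hl.continuous.continuousAt.eventually (chart_source_mem_nhds E₁ (p x))]
      with w hw
    exact ((chartAt E₁ (p x)).left_inv hw).symm
  refine ⟨cs, hM, hpsm, fun x => ⟨hl.localInverseAt x, by simp, ?_, ?_, ?_⟩⟩
  · filter_upwards [(hl.localInverseAt x).open_source.mem_nhds
      hl.apply_self_mem_localInverseAt_source] with y hy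
    have hy' := mem_chart_source E₁ y
    have h0 : SmAt E₁ E₁ (chartAt E₁ y) y :=
      (contMDiffOn_chart (n := ∞)).contMDiffAt (chart_source_mem_nhds E₁ y)
    have hy2 := hy'
    rw [hch] at hy2
    simp only [mfld_simps] at hy2
    set x' := hl.localInverseAt (g y) y with hx'
    have hpx : p x' = y := hl.apply_localInverseAt_of_mem hy2.1
    have h1 : SmAt E₁ E₁ (chartAt E₁ (g y)).symm (chartAt E₁ (g y) x') :=
      (contMDiffOn_chart_symm (n := ∞)).contMDiffAt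
        ((chartAt E₁ (g y)).open_target.mem_nhds ((chartAt E₁ (g y)).map_source hy2.2))
    have h2 := key x x' (by rwa [hpx])
    have h3 := (h2.comp_eq h1 ((chartAt E₁ (g y)).left_inv hy2.2)).comp_eq h0 (by rw [hch]; rfl)
    refine h3.congr' ?_
    filter_upwards [chart_source_mem_nhds E₁ y] with w hw
    rw [hch] at hw ⊢
    simp only [mfld_simps] at hw ⊢
    rw [(chartAt E₁ (g y)).left_inv hw.2, hl.apply_localInverseAt_of_mem hw.1]
  · filter_upwards [(hl.localInverseAt x).open_source.mem_nhds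
      hl.apply_self_mem_localInverseAt_source] with y hy
    exact hl.apply_localInverseAt_of_mem hy
  · filter_upwards [(hl.localInverseAt x).open_target.mem_nhds
      hl.self_mem_localInverseAt_target] with y hy
    have := (hl.localInverseAt x).right_inv hy
    rwa [IsLocalHomeomorph.localInverseAt_symm] at this

end Pool.Agent.Lib.MP_91447a_gt
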