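import Mathlib

open scoped Manifold ContDiff Topology
open Set Function

noncomputable section

namespace Pool.Agent.Lib.MP_91447a_gt

variable (E : Type) [NormedAddCommGroup E] [NormedSpace ℝ E]
  (F : Type) [NormedAddCommGroup F] [NormedSpace ℝ F]
  {M : Type} [TopologicalSpace M] [ChartedSpace E M]
  {G : Type} [TopologicalSpace G] [ChartedSpace F G]

/-- Covectors. -/
abbrev Cov : Type := E →L[ℝ] ℝ

/-- Bivectors, as maps `π♯` from covectors to vectors. -/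
abbrev Biv : Type := Cov E →L[ℝ] E

/-- Bilinear forms. -/
abbrev Bil : Type := E →L[ℝ] Cov E

/-- The differential of a map between manifolds modelled on `E` and `F`. -/
def D (f : M → G) (x : M) : E →L[ℝ] F := mfderiv 𝓘(ℝ, E) 𝓘(ℝ, F) f x

/-- The differential applied to a vector. -/
def Dv (f : M → G) (x : M) (v : E) : F := D E F f x v

/-- Pull-back of a covector. -/
def pb (f : M → G) (x : M) (α : Cov F) : Cov E := α.comp (D E F f x)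

/-- Smooth on a set. -/
def Sm (f : M → G) (U : Set M) : Prop := ContMDiffOn 𝓘(ℝ, E) 𝓘(ℝ, F) ∞ f U

variable {E}

def ev (α : Cov E) (v : E) : ℝ := α v

def sh (p : Biv E) (α : Cov E) : E := p α

def fl (B : Bil E) (v : E) : Cov E := B v

/-- The dimension of the kernel of `π♯`. -/
def corank (p : Biv E) : ℕ := Module.finrank ℝ p.ker

/-- The bracket `{f,g} = dg (π♯ df)`. -/
def br (π : M → Biv E) (f g : M → ℝ) (x : M) : ℝ := ev (D E ℝ g x) (sh (π x) (D E ℝ f x))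

structure IsPoisson (π : M → Biv E) : Prop where
  skew : ∀ (x : M) (α β : Cov E), ev β (sh (π x) α) = -ev α (sh (π x) β)
  smooth : ∀ U f g, IsOpen U → Sm E ℝ f U → Sm E ℝ g U → Sm E ℝ (br π f g) U
  jacobi : ∀ U f g h, IsOpen U → Sm E ℝ f U → Sm E ℝ g U → Sm E ℝ h U → ∀ x ∈ U,
    br π f (br π g h) x + br π g (br π h f) x + br π h (br π f g) x = 0

/-- A smooth map from an open subset of `ℝⁿ`. -/
def Plot {n : ℕ} (a : (Fin n → ℝ) → G) (U : Set (Fin n → ℝ)) : Prop :=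
  IsOpen U ∧ Sm (Fin n → ℝ) F a U

variable {F}

/-- Pull-back of a 2-form along a map from `ℝⁿ`. -/
def pull {n : ℕ} (Ω : G → Bil F) (a : (Fin n → ℝ) → G) (u v z : Fin n → ℝ) : ℝ :=
  ev (fl (Ω (a z)) (Dv (Fin n → ℝ) F a z u)) (Dv (Fin n → ℝ) F a z v)

structure IsSymplectic (Ω : G → Bil F) : Prop where
  skew : ∀ g u v, ev (fl (Ω g) u) v = -ev (fl (Ω g) v) u
  nondeg : ∀ g u, (∀ v, ev (fl (Ω g) u) v = 0) → u = 0
  smooth_closed : ∀ (n : ℕ) (U : Set (Fin n → ℝ)) (a : (Fin n → ℝ) → G), Plot F a U →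
    ∀ u v w, Plot ℝ (pull Ω a u v) U ∧ ∀ z ∈ U, Dv _ ℝ (pull Ω a v w) z u +
      Dv _ ℝ (pull Ω a w u) z v + Dv _ ℝ (pull Ω a u v) z w = 0

/-- Source, target, unit, inverse, product (of `a`, `b` with `s a = t b`) and a 2-form. -/
structure Grpd (F G M : Type) [NormedAddCommGroup F] [NormedSpace ℝ F] where
  s : G → M
  t : G → M
  u : M → G
  i : G → G
  m : G → G → G
  Ω : G → Bil F

structure Grpd.IsGroupoid (𝒢 : Grpd F G M) : Prop where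
  s_u : ∀ x, 𝒢.s (𝒢.u x) = x
  t_u : ∀ x, 𝒢.t (𝒢.u x) = x
  s_m : ∀ a b, 𝒢.s a = 𝒢.t b → 𝒢.s (𝒢.m a b) = 𝒢.s b
  t_m : ∀ a b, 𝒢.s a = 𝒢.t b → 𝒢.t (𝒢.m a b) = 𝒢.t a
  assoc : ∀ a b c, 𝒢.s a = 𝒢.t b → 𝒢.s b = 𝒢.t c → 𝒢.m (𝒢.m a b) c = 𝒢.m a (𝒢.m b c)
  u_m : ∀ a, 𝒢.m (𝒢.u (𝒢.t a)) a = a
  m_u : ∀ a, 𝒢.m a (𝒢.u (𝒢.s a)) = a
  s_i : ∀ a, 𝒢.s (𝒢.i a) = 𝒢.t a
  t_i : ∀ a, 𝒢.t (𝒢.i a) = 𝒢.s a
  m_i : ∀ a, 𝒢.m a (𝒢.i a) = 𝒢.u (𝒢.t a)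
  i_m : ∀ a, 𝒢.m (𝒢.i a) a = 𝒢.u (𝒢.s a)

/-- A symplectic groupoid whose target map is Poisson onto `(M, π)`. -/
structure Grpd.Integrates (𝒢 : Grpd F G M) (π : M → Biv E) : Prop where
  groupoid : 𝒢.IsGroupoid
  sm_s : Sm F E 𝒢.s univ
  sm_t : Sm F E 𝒢.t univ
  sm_u : Sm E F 𝒢.u univ
  sm_i : Sm F F 𝒢.i univ
  subm : ∀ a, Surjective (Dv F E 𝒢.s a) ∧ Surjective (Dv F E 𝒢.t a)
  sympl : IsSymplectic 𝒢.Ω
  mult : ∀ (n : ℕ) (U : Set (Fin n → ℝ)) (a b : (Fin n → ℝ) → G), Plot F a U → Plot F b U →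
    (∀ z ∈ U, 𝒢.s (a z) = 𝒢.t (b z)) →
    Plot F (fun z => 𝒢.m (a z) (b z)) U ∧ ∀ u v, ∀ z ∈ U,
      pull 𝒢.Ω (fun z => 𝒢.m (a z) (b z)) u v z = pull 𝒢.Ω a u v z + pull 𝒢.Ω b u v z
  poisson : ∀ a α v, fl (𝒢.Ω a) v = pb F E 𝒢.t a α → Dv F E 𝒢.t a v = sh (π (𝒢.t a)) α

variable (E) in
/-- The lattice `ker (exp : 𝔤ₓ → 𝒢ₓ)` inside `T*ₓ M`. -/
def Grpd.lattice (𝒢 : Grpd F G M) (x : M) : Set (Cov E) :=
  {α | ∃ c : ℝ → G, Sm ℝ F c univ ∧ (∀ τ, 𝒢.s (c τ) = x ∧ 𝒢.t (c τ) = x) ∧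
    (∀ τ σ, c (τ + σ) = 𝒢.m (c τ) (c σ)) ∧ c 1 = 𝒢.u x ∧
    fl (𝒢.Ω (c 0)) (Dv ℝ F c 0 1) = pb F E 𝒢.t (c 0) α}

/-- `v` is linearly independent and spans the lattice `L`. -/
def IsZBasis {V : Type} [AddCommGroup V] [Module ℝ V] {q : ℕ} (v : Fin q → V) (L : Set V) :
    Prop :=
  LinearIndependent ℝ v ∧ L = Submodule.span ℤ (range v)

/-- A properly discontinuous action on `ℝ^q` by integral affine maps. -/
def IsIntAffine (q : ℕ) (Γ : Type) [Group Γ] [MulAction Γ (Fin q → ℝ)] : Prop :=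
  ProperlyDiscontinuousSMul Γ (Fin q → ℝ) ∧ ∀ γ : Γ, ∃ (A : Fin q → Fin q → ℤ) (b : Fin q → ℝ),
    ∀ y : Fin q → ℝ, γ • y = fun i => ∑ j, A i j * y j + b i

/-- The leaf space with its integral affine structure is `ℝ^q / Γ`. -/
def Grpd.IsComplete (𝒢 : Grpd F G M) (π : M → Biv E) : Prop :=
  ∃ (q : ℕ) (Γ : Type) (_ : Group Γ) (_ : MulAction Γ (Fin q → ℝ))
    (β : M → MulAction.orbitRel.Quotient Γ (Fin q → ℝ)), IsIntAffine q Γ ∧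
    Topology.IsQuotientMap β ∧ (∀ x y, β x = β y ↔ ∃ a, 𝒢.t a = x ∧ 𝒢.s a = y) ∧
    ∀ x, (∀ᶠ y in 𝓝 x, corank (π y) = corank (π x)) →
      ∃ (U : Set M) (b : M → Fin q → ℝ), IsOpen U ∧ x ∈ U ∧ (∀ i, Sm E ℝ (fun z => b z i) U) ∧
        ∀ y ∈ U, β y = Quotient.mk _ (b y) ∧
          IsZBasis (fun i => (D E ℝ (fun z => b z i) y : Cov E)) (𝒢.lattice E y)

/-- `(M, π)` has a source-connected, source-proper integration with complete leaf space. -/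
def IsCompleteSProper (π : M → Biv E) : Prop :=
  ∃ (F : Type) (_ : NormedAddCommGroup F) (_ : NormedSpace ℝ F) (_ : FiniteDimensional ℝ F)
    (G : Type) (_ : TopologicalSpace G) (_ : ChartedSpace F G) (𝒢 : Grpd F G M),
    IsManifold 𝓘(ℝ, F) ∞ G ∧ T2Space G ∧ SecondCountableTopology G ∧ 𝒢.Integrates π ∧
    IsProperMap 𝒢.s ∧ (∀ x, IsConnected (𝒢.s ⁻¹' {x})) ∧ 𝒢.IsComplete π

/-- The isotropy Lie algebra `ker π♯ₓ`, with bracket `[df, dg] = d{f,g}`, is not abelian. -/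
def NonAbelianAt (π : M → Biv E) (x : M) : Prop :=
  ∃ U f g, IsOpen U ∧ x ∈ U ∧ Sm E ℝ f U ∧ Sm E ℝ g U ∧ sh (π x) (D E ℝ f x) = 0 ∧
    sh (π x) (D E ℝ g x) = 0 ∧ ∃ v, Dv E ℝ (br π f g) x v ≠ 0

variable {𝔨 V : Type} [LieRing 𝔨] [LieAlgebra ℝ 𝔨] [NormedAddCommGroup V] [NormedSpace ℝ V]

/-- `e` identifies `V` with the dual of `𝔨`, and `Δ` acts on `V` by duals of automorphisms. -/
def IsDualAction (e : 𝔨 → Cov V) (Δ : Type) [Group Δ] [MulAction Δ V] : Prop :=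
  IsLinearMap ℝ e ∧ Bijective e ∧
    ∀ δ : Δ, ∃ ρ : 𝔨 ≃ₗ⁅ℝ⁆ 𝔨, ∀ a ξ, ev (e (ρ a)) (δ • ξ) = ev (e a) ξ

/-- `Φ` is Poisson for the product of `πN` and the linear Poisson structure of `V = 𝔨*`. -/
def IsProdPoisson (π : M → Biv E) (πN : G → Biv F) (e : 𝔨 → Cov V) (Φ : G × V → M) : Prop :=
  ∀ (y : G) (ξ : V) (α β : Cov E) (a b : 𝔨), pb V E (fun η => Φ (y, η)) ξ α = e a →
    pb V E (fun η => Φ (y, η)) ξ β = e b →
    ev β (sh (π (Φ (y, ξ))) α) = ev (pb F E (fun y' => Φ (y', ξ)) y β)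
      (sh (πN y) (pb F E (fun y' => Φ (y', ξ)) y α)) + ev (e ⁅a, b⁆) ξ

/-- `Φ` identifies `(M, π)` with the quotient of `N × 𝔨*` by a group acting diagonally. -/
def IsModel (π : M → Biv E) (πN : G → Biv F) (e : 𝔨 → Cov V) (Δ : Type) [Group Δ]
    [MulAction Δ G] [MulAction Δ V] (Φ : G × V → M) : Prop :=
  IsDualAction e Δ ∧ IsLocalDiffeomorph (𝓘(ℝ, F).prod 𝓘(ℝ, V)) 𝓘(ℝ, E) ∞ Φ ∧ Surjective Φ ∧
    (∀ z z', Φ z = Φ z' ↔ ∃ δ : Δ, z' = (δ • z.1, δ • z.2)) ∧ IsProdPoisson π πN e Φ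

end Pool.Agent.Lib.MP_91447a_gt
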