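import Pool.Agent.Lib.MP_91447a_gt.Act

open scoped Manifold ContDiff Topology
open Set Function Filter MeasureTheory

noncomputable section

namespace Pool.Agent.Lib.MP_91447a_gt

variable {𝔸 : Type} [NormedRing 𝔸] [NormedAlgebra ℝ 𝔸]

def c3 (tr : 𝔸 →L[ℝ] ℝ) (x y z : 𝔸) : ℝ := tr (x * (y * z)) - tr (x * (z * y))

theorem div_alg (tr : 𝔸 →L[ℝ] ℝ) (htr : ∀ a b, tr (a * b) = tr (b * a))
    (T a0 a1 a2 a3 p01 p02 p03 p10 p12 p13 p20 p21 p23 p30 p31 p32 : 𝔸) (j0 j1 j2 j3 : ℝ)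
    (h01 : p01 = p10 - (a0 * a1 - a1 * a0) + j1 • (a0 * T - T * a0) +
      j0 • (T * a1 - a1 * T))
    (h02 : p02 = p20 - (a0 * a2 - a2 * a0) + j2 • (a0 * T - T * a0) +
      j0 • (T * a2 - a2 * T) + (2 : ℝ) • T)
    (h03 : p03 = p30 - (a0 * a3 - a3 * a0) + j3 • (a0 * T - T * a0) +
      j0 • (T * a3 - a3 * T))
    (h12 : p12 = p21 - (a1 * a2 - a2 * a1) + j2 • (a1 * T - T * a1) +
      j1 • (T * a2 - a2 * T))
    (h13 : p13 = p31 - (a1 * a3 - a3 * a1) + j3 • (a1 * T - T * a1) +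
      j1 • (T * a3 - a3 * T) - (2 : ℝ) • T)
    (h23 : p23 = p32 - (a2 * a3 - a3 * a2) + j3 • (a2 * T - T * a2) +
      j2 • (T * a3 - a3 * T)) :
    (-2 * tr (p02 * T) - (c3 tr p01 a2 a3 + c3 tr a1 p02 a3 + c3 tr a1 a2 p03)) +
    (2 * tr (p13 * T) + (c3 tr p10 a2 a3 + c3 tr a0 p12 a3 + c3 tr a0 a2 p13)) +
    (2 * tr (p20 * T) - (c3 tr p20 a1 a3 + c3 tr a0 p21 a3 + c3 tr a0 a1 p23)) +
    (-2 * tr (p31 * T) + (c3 tr p30 a1 a2 + c3 tr a0 p31 a2 + c3 tr a0 a1 p32)) =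
      -8 * tr (T * T) := by
  have e1 : tr (T * (a0 * T)) = tr (T * (T * a0)) := by
    simpa only [mul_assoc] using htr (T * a0) (T)
  have e2 : tr (T * (a1 * T)) = tr (T * (T * a1)) := by
    simpa only [mul_assoc] using htr (T * a1) (T)
  have e3 : tr (T * (a2 * T)) = tr (T * (T * a2)) := by
    simpa only [mul_assoc] using htr (T * a2) (T)
  have e4 : tr (T * (a3 * T)) = tr (T * (T * a3)) := by
    simpa only [mul_assoc] using htr (T * a3) (T)
  have e5 : tr (a0 * (T * T)) = tr (T * (T * a0)) := by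
    simpa only [mul_assoc] using htr (a0) (T * T)
  have e6 : tr (a0 * (T * (a1 * a2))) = tr (T * (a1 * (a2 * a0))) := by
    simpa only [mul_assoc] using htr (a0) (T * (a1 * a2))
  have e7 : tr (a0 * (T * (a1 * a3))) = tr (T * (a1 * (a3 * a0))) := by
    simpa only [mul_assoc] using htr (a0) (T * (a1 * a3))
  have e8 : tr (a0 * (T * a2)) = tr (T * (a2 * a0)) := by
    simpa only [mul_assoc] using htr (a0) (T * a2)
  have e9 : tr (a0 * (T * (a2 * a1))) = tr (T * (a2 * (a1 * a0))) := by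
    simpa only [mul_assoc] using htr (a0) (T * (a2 * a1))
  have e10 : tr (a0 * (T * (a2 * a3))) = tr (T * (a2 * (a3 * a0))) := by
    simpa only [mul_assoc] using htr (a0) (T * (a2 * a3))
  have e11 : tr (a0 * (T * (a3 * a1))) = tr (T * (a3 * (a1 * a0))) := by
    simpa only [mul_assoc] using htr (a0) (T * (a3 * a1))
  have e12 : tr (a0 * (T * (a3 * a2))) = tr (T * (a3 * (a2 * a0))) := by
    simpa only [mul_assoc] using htr (a0) (T * (a3 * a2))
  have e13 : tr (a0 * (a1 * (T * a2))) = tr (T * (a2 * (a0 * a1))) := by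
    simpa only [mul_assoc] using htr (a0 * a1) (T * a2)
  have e14 : tr (a0 * (a1 * (T * a3))) = tr (T * (a3 * (a0 * a1))) := by
    simpa only [mul_assoc] using htr (a0 * a1) (T * a3)
  have e15 : tr (a0 * (a1 * (a2 * T))) = tr (T * (a0 * (a1 * a2))) := by
    simpa only [mul_assoc] using htr (a0 * (a1 * a2)) (T)
  have e16 : tr (a0 * (a1 * (a3 * T))) = tr (T * (a0 * (a1 * a3))) := by
    simpa only [mul_assoc] using htr (a0 * (a1 * a3)) (T)
  have e17 : tr (a0 * (a2 * T)) = tr (T * (a0 * a2)) := by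
    simpa only [mul_assoc] using htr (a0 * a2) (T)
  have e18 : tr (a0 * (a2 * (T * a1))) = tr (T * (a1 * (a0 * a2))) := by
    simpa only [mul_assoc] using htr (a0 * a2) (T * a1)
  have e19 : tr (a0 * (a2 * (T * a3))) = tr (T * (a3 * (a0 * a2))) := by
    simpa only [mul_assoc] using htr (a0 * a2) (T * a3)
  have e20 : tr (a0 * (a2 * (a1 * T))) = tr (T * (a0 * (a2 * a1))) := by
    simpa only [mul_assoc] using htr (a0 * (a2 * a1)) (T)
  have e21 : tr (a0 * (a2 * (a3 * T))) = tr (T * (a0 * (a2 * a3))) := by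
    simpa only [mul_assoc] using htr (a0 * (a2 * a3)) (T)
  have e22 : tr (a0 * (a3 * (T * a1))) = tr (T * (a1 * (a0 * a3))) := by
    simpa only [mul_assoc] using htr (a0 * a3) (T * a1)
  have e23 : tr (a0 * (a3 * (T * a2))) = tr (T * (a2 * (a0 * a3))) := by
    simpa only [mul_assoc] using htr (a0 * a3) (T * a2)
  have e24 : tr (a0 * (a3 * (a1 * T))) = tr (T * (a0 * (a3 * a1))) := by
    simpa only [mul_assoc] using htr (a0 * (a3 * a1)) (T)
  have e25 : tr (a0 * (a3 * (a2 * T))) = tr (T * (a0 * (a3 * a2))) := by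
    simpa only [mul_assoc] using htr (a0 * (a3 * a2)) (T)
  have e26 : tr (a1 * (T * T)) = tr (T * (T * a1)) := by
    simpa only [mul_assoc] using htr (a1) (T * T)
  have e27 : tr (a1 * (T * (a0 * a2))) = tr (T * (a0 * (a2 * a1))) := by
    simpa only [mul_assoc] using htr (a1) (T * (a0 * a2))
  have e28 : tr (a1 * (T * (a0 * a3))) = tr (T * (a0 * (a3 * a1))) := by
    simpa only [mul_assoc] using htr (a1) (T * (a0 * a3))
  have e29 : tr (a1 * (T * (a2 * a3))) = tr (T * (a2 * (a3 * a1))) := by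
    simpa only [mul_assoc] using htr (a1) (T * (a2 * a3))
  have e30 : tr (a1 * (T * a3)) = tr (T * (a3 * a1)) := by
    simpa only [mul_assoc] using htr (a1) (T * a3)
  have e31 : tr (a1 * (T * (a3 * a2))) = tr (T * (a3 * (a2 * a1))) := by
    simpa only [mul_assoc] using htr (a1) (T * (a3 * a2))
  have e32 : tr (a1 * (a0 * (T * a2))) = tr (T * (a2 * (a1 * a0))) := by
    simpa only [mul_assoc] using htr (a1 * a0) (T * a2)
  have e33 : tr (a1 * (a0 * (T * a3))) = tr (T * (a3 * (a1 * a0))) := by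
    simpa only [mul_assoc] using htr (a1 * a0) (T * a3)
  have e34 : tr (a1 * (a0 * (a2 * a3))) = tr (a0 * (a2 * (a3 * a1))) := by
    simpa only [mul_assoc] using htr (a1) (a0 * (a2 * a3))
  have e35 : tr (a1 * (a0 * (a3 * a2))) = tr (a0 * (a3 * (a2 * a1))) := by
    simpa only [mul_assoc] using htr (a1) (a0 * (a3 * a2))
  have e36 : tr (a1 * (a2 * (T * a0))) = tr (T * (a0 * (a1 * a2))) := by
    simpa only [mul_assoc] using htr (a1 * a2) (T * a0)
  have e37 : tr (a1 * (a2 * (T * a3))) = tr (T * (a3 * (a1 * a2))) := by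
    simpa only [mul_assoc] using htr (a1 * a2) (T * a3)
  have e38 : tr (a1 * (a2 * (a0 * T))) = tr (T * (a1 * (a2 * a0))) := by
    simpa only [mul_assoc] using htr (a1 * (a2 * a0)) (T)
  have e39 : tr (a1 * (a2 * (a0 * a3))) = tr (a0 * (a3 * (a1 * a2))) := by
    simpa only [mul_assoc] using htr (a1 * a2) (a0 * a3)
  have e40 : tr (a1 * (a2 * (a3 * T))) = tr (T * (a1 * (a2 * a3))) := by
    simpa only [mul_assoc] using htr (a1 * (a2 * a3)) (T)
  have e41 : tr (a1 * (a2 * (a3 * a0))) = tr (a0 * (a1 * (a2 * a3))) := by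
    simpa only [mul_assoc] using htr (a1 * (a2 * a3)) (a0)
  have e42 : tr (a1 * (a3 * T)) = tr (T * (a1 * a3)) := by
    simpa only [mul_assoc] using htr (a1 * a3) (T)
  have e43 : tr (a1 * (a3 * (T * a0))) = tr (T * (a0 * (a1 * a3))) := by
    simpa only [mul_assoc] using htr (a1 * a3) (T * a0)
  have e44 : tr (a1 * (a3 * (T * a2))) = tr (T * (a2 * (a1 * a3))) := by
    simpa only [mul_assoc] using htr (a1 * a3) (T * a2)
  have e45 : tr (a1 * (a3 * (a0 * T))) = tr (T * (a1 * (a3 * a0))) := by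
    simpa only [mul_assoc] using htr (a1 * (a3 * a0)) (T)
  have e46 : tr (a1 * (a3 * (a0 * a2))) = tr (a0 * (a2 * (a1 * a3))) := by
    simpa only [mul_assoc] using htr (a1 * a3) (a0 * a2)
  have e47 : tr (a1 * (a3 * (a2 * T))) = tr (T * (a1 * (a3 * a2))) := by
    simpa only [mul_assoc] using htr (a1 * (a3 * a2)) (T)
  have e48 : tr (a1 * (a3 * (a2 * a0))) = tr (a0 * (a1 * (a3 * a2))) := by
    simpa only [mul_assoc] using htr (a1 * (a3 * a2)) (a0)
  have e49 : tr (a2 * (T * T)) = tr (T * (T * a2)) := by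
    simpa only [mul_assoc] using htr (a2) (T * T)
  have e50 : tr (a2 * (a0 * T)) = tr (T * (a2 * a0)) := by
    simpa only [mul_assoc] using htr (a2 * a0) (T)
  have e51 : tr (a3 * (T * T)) = tr (T * (T * a3)) := by
    simpa only [mul_assoc] using htr (a3) (T * T)
  have e52 : tr (a3 * (a1 * T)) = tr (T * (a3 * a1)) := by
    simpa only [mul_assoc] using htr (a3 * a1) (T)
  have e53 : tr (p10 * (a2 * a3)) = tr (a2 * (a3 * p10)) := by
    simpa only [mul_assoc] using htr (p10) (a2 * a3)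
  have e54 : tr (p10 * (a3 * a2)) = tr (a2 * (p10 * a3)) := by
    simpa only [mul_assoc] using htr (p10 * a3) (a2)
  have e55 : tr (p20 * T) = tr (T * p20) := by
    simpa only [mul_assoc] using htr (p20) (T)
  have e56 : tr (p20 * (a1 * a3)) = tr (a1 * (a3 * p20)) := by
    simpa only [mul_assoc] using htr (p20) (a1 * a3)
  have e57 : tr (p20 * (a3 * a1)) = tr (a1 * (p20 * a3)) := by
    simpa only [mul_assoc] using htr (p20 * a3) (a1)
  have e58 : tr (p30 * (a1 * a2)) = tr (a1 * (a2 * p30)) := by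
    simpa only [mul_assoc] using htr (p30) (a1 * a2)
  have e59 : tr (p30 * (a2 * a1)) = tr (a1 * (p30 * a2)) := by
    simpa only [mul_assoc] using htr (p30 * a2) (a1)
  have e60 : tr (p31 * T) = tr (T * p31) := by
    simpa only [mul_assoc] using htr (p31) (T)
  subst h01 h02 h03 h12 h13 h23
  simp only [c3, mul_add, add_mul, mul_sub, sub_mul, smul_mul_assoc, mul_smul_comm, mul_assoc,
    map_add, map_sub, map_smul, smul_eq_mul]
  simp only [e1, e2, e3, e4, e5, e6, e7, e8, e9, e10, e11, e12, e13, e14, e15, e16, e17, e18, e19, e20,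
    e21, e22, e23, e24, e25, e26, e27, e28, e29, e30, e31, e32, e33, e34, e35, e36, e37, e38,
    e39, e40, e41, e42, e43, e44, e45, e46, e47, e48, e49, e50, e51, e52, e53, e54, e55, e56,
    e57, e58, e59, e60]
  ring

theorem fderiv_c3 (tr : 𝔸 →L[ℝ] ℝ) {f g h : R4 → 𝔸} {x : R4} (hf : DifferentiableAt ℝ f x)
    (hg : DifferentiableAt ℝ g x) (hh : DifferentiableAt ℝ h x) :
    ∃ L : R4 →L[ℝ] ℝ, HasFDerivAt (fun y => c3 tr (f y) (g y) (h y)) L x ∧ ∀ v, L v =
      c3 tr (fderiv ℝ f x v) (g x) (h x) + c3 tr (f x) (fderiv ℝ g x v) (h x) +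
        c3 tr (f x) (g x) (fderiv ℝ h x v) := by
  refine ⟨_, (tr.hasFDerivAt.comp x (hf.hasFDerivAt.mul' (hg.hasFDerivAt.mul' hh.hasFDerivAt))).sub
    (tr.hasFDerivAt.comp x (hf.hasFDerivAt.mul' (hh.hasFDerivAt.mul' hg.hasFDerivAt))),
      fun v => ?_⟩
  simp [c3]
  ring

theorem no_div (V : Fin 4 → R4 → ℝ) (L : Fin 4 → R4 → R4 →L[ℝ] ℝ)
    (hL : ∀ i x, HasFDerivAt (V i) (L i x) x) (hper : ∀ i γ x, V i (x + ell γ) = V i x) {c : ℝ}
    (hc : ∀ x, ∑ i, L i x (Pi.single i 1) = c) : c = 0 := by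
  have h := integral_divergence_of_hasFDerivAt_off_countable' (n := 3) (0 : R4) (fun _ => sg)
    (fun _ => sg_pos.le) V L ∅ countable_empty
    (fun i x _ => (hL i x).continuousAt.continuousWithinAt) (fun x _ i => hL i x)
    (by simp only [hc]; exact integrableOn_const (by simp [Real.volume_Icc_pi]))
  have h1 : ∀ (i : Fin 4) (y : Fin 3 → ℝ),
      V i (Fin.insertNth i sg y) = V i (Fin.insertNth i 0 y) := by
    intro i y
    rw [← hper i (Pi.single i (1 : ℤ) : Fin 4 → ℤ) (Fin.insertNth i 0 y)]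
    congr 1
    refine funext (Fin.succAboveCases i ?_ fun j => ?_)
    · simp [ell]
    · simp [ell]
  simp only [hc, Pi.zero_apply, h1, sub_self, Finset.sum_const_zero, setIntegral_const,
    smul_eq_mul] at h
  refine (mul_eq_zero.1 h).resolve_left ?_
  simp [Measure.real, Real.volume_Icc_pi, sg_pos.le, sg_pos.ne']

theorem no_flat [CompleteSpace 𝔸] (tr : 𝔸 →L[ℝ] ℝ) (htr : ∀ a b, tr (a * b) = tr (b * a))
    (T : 𝔸) (hT : tr (T * T) ≠ 0) (R R' : Gam → R4 → 𝔸) (hR1 : ∀ γ x, R γ x * R' γ x = 1)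
    (hR2 : ∀ γ x, R' γ x * R γ x = 1) (hRT : ∀ γ x, R γ x * T = T * R γ x)
    (hR : ∀ γ x, HasFDerivAt (R γ) ((cc γ).smulRight (R γ x * T)) x)
    (𝓕 : R4 → (R4 → 𝔸) → Prop) (hex : ∀ x, ∃ G, 𝓕 x G)
    (hsm : ∀ x G, 𝓕 x G → ContDiffAt ℝ ∞ G x ∧ IsUnit (G x))
    (hopen : ∀ x G, 𝓕 x G → ∀ᶠ y in 𝓝 x, 𝓕 y G)
    (huniq : ∀ x G G', 𝓕 x G → 𝓕 x G' → ∃ C, G' =ᶠ[𝓝 x] fun y => C * G y)
    (hequiv : ∀ γ x G, 𝓕 (x + ell γ) G → 𝓕 x (fun y => G (y + ell γ) * R γ y)) : False := by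
  choose G₀ hG₀ using hex
  let A : R4 → R4 → 𝔸 := fun v x => Ring.inverse (G₀ x x) * fderiv ℝ (G₀ x) x v
  have hA : ∀ x G, 𝓕 x G → ∀ v, G x * A v x = fderiv ℝ G x v := by
    intro x G hG v
    obtain ⟨C, hC⟩ := huniq x _ _ (hG₀ x) hG
    rw [hC.fderiv_eq, hC.self_of_nhds, fderiv_const_mul (cda_diff (hsm _ _ (hG₀ x)).1)]
    simp only [A]
    rw [mul_assoc, Ring.mul_inverse_cancel_left _ _ (hsm _ _ (hG₀ x)).2]
    rfl
  have hAs : ∀ v x, ContDiffAt ℝ ∞ (A v) x := by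
    intro v x
    obtain ⟨h1, u, hu⟩ := hsm _ _ (hG₀ x)
    have h2 : ContDiffAt ℝ ∞ (fun y => Ring.inverse (G₀ x y) * fderiv ℝ (G₀ x) y v) x :=
      (ContDiffAt.comp (g := Ring.inverse) x (hu ▸ contDiffAt_ringInverse ℝ u) h1).mul
        (cda_fderiv_apply h1 v)
    refine h2.congr_of_eventuallyEq ?_
    filter_upwards [hopen _ _ (hG₀ x)] with y hy
    rw [← hA y _ hy v, Ring.inverse_mul_cancel_left _ _ (hsm _ _ hy).2]
  have hflat : ∀ x u v, fderiv ℝ (A v) x u =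
      fderiv ℝ (A u) x v - (A u x * A v x - A v x * A u x) := by
    intro x u v
    obtain ⟨h1, hu⟩ := hsm _ _ (hG₀ x)
    have h2 : ∀ u v, fderiv ℝ (fun y => fderiv ℝ (G₀ x) y v) x u =
        G₀ x x * (fderiv ℝ (A v) x u + A u x * A v x) := by
      intro u v
      have h3 : (fun y => fderiv ℝ (G₀ x) y v) =ᶠ[𝓝 x] fun y => G₀ x y * A v y :=
        (hopen _ _ (hG₀ x)).mono fun y hy => (hA y _ hy v).symm
      rw [h3.fderiv_eq, ((cda_diff h1).hasFDerivAt.fun_mul' (cda_diff (hAs v x)).hasFDerivAt).fderiv,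
        mul_add, ← mul_assoc, hA x _ (hG₀ x)]
      simp
    have h4 := snd_symm' h1 u v
    rw [h2, h2] at h4
    rw [← sub_add, eq_sub_of_add_eq (hu.mul_left_cancel h4)]
    abel
  let a : R4 → R4 → 𝔸 := fun v x => A v x + dotL 4 (Jop x) v • T
  have hda : ∀ v x, HasFDerivAt (a v)
      (fderiv ℝ (A v) x + (((dotL 4).flip v).comp Jop).smulRight T) x := fun v x =>
    (cda_diff (hAs v x)).hasFDerivAt.add
      ((((dotL 4).flip v).comp Jop).hasFDerivAt.smul_const T)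
  have hd : ∀ v x, DifferentiableAt ℝ (a v) x := fun v x => (hda v x).differentiableAt
  have hfl : ∀ x u v, fderiv ℝ (a v) x u = fderiv ℝ (a u) x v - (a u x * a v x - a v x * a u x) +
      dotL 4 (Jop x) v • (a u x * T - T * a u x) + dotL 4 (Jop x) u • (T * a v x - a v x * T) +
      (dotL 4 (Jop u) v - dotL 4 (Jop v) u) • T := by
    intro x u v
    rw [(hda v x).fderiv, (hda u x).fderiv]
    simp only [add_apply, hflat x u v, a, ContinuousLinearMap.smulRight_apply,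
      ContinuousLinearMap.comp_apply, ContinuousLinearMap.flip_apply, mul_add, add_mul,
      smul_mul_assoc, mul_smul_comm]
    module
  have heq : ∀ γ x v, a v (x + ell γ) = R γ x * (a v x * R' γ x) := by
    intro γ x v
    obtain ⟨h1, hu⟩ := hsm _ _ (hG₀ (x + ell γ))
    have h2 := hA x _ (hequiv γ x _ (hG₀ _)) v
    have h3 : HasFDerivAt (fun y => G₀ (x + ell γ) (y + ell γ))
        (fderiv ℝ (G₀ (x + ell γ)) (x + ell γ)) x := by
      exact (hasFDerivAt_comp_add_right (ell γ)).2 (cda_diff h1).hasFDerivAt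
    rw [(h3.fun_mul' (hR γ x)).fderiv] at h2
    simp only [add_apply, smul_apply, ContinuousLinearMap.smulRight_apply, smul_eq_mul,
      MulOpposite.smul_eq_mul_unop, MulOpposite.unop_op, ← hA _ _ (hG₀ (x + ell γ))] at h2
    rw [mul_assoc, mul_assoc, ← mul_add] at h2
    have h4 := hu.mul_left_cancel h2
    have h5 : A v (x + ell γ) = (R γ x * A v x - cc γ v • (R γ x * T)) * R' γ x := by
      rw [h4, add_sub_cancel_left, mul_assoc, hR1, mul_one]
    have h6 : R γ x * (T * R' γ x) = T := by rw [← mul_assoc, hRT, mul_assoc, hR1, mul_one]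
    simp only [a, h5, cc, map_add, add_apply, sub_mul, add_mul, mul_add, smul_mul_assoc,
      mul_smul_comm, mul_assoc, h6]
    module
  have hc : ∀ γ x (y z : 𝔸), R' γ x * (R γ x * y) = y := fun γ x y _ => by
    rw [← mul_assoc, hR2, one_mul]
  have ht : ∀ γ x v, tr (a v (x + ell γ) * T) = tr (a v x * T) := by
    intro γ x v
    rw [heq, mul_assoc, htr, mul_assoc, mul_assoc, ← hRT, hc _ _ _ T]
  have h3 : ∀ γ x u v w, c3 tr (a u (x + ell γ)) (a v (x + ell γ)) (a w (x + ell γ)) =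
      c3 tr (a u x) (a v x) (a w x) := by
    intro γ x u v w
    simp only [c3, heq, mul_assoc, hc _ _ _ T]
    rw [htr (R γ x), htr (R γ x)]
    simp only [mul_assoc, hR2, mul_one]
  let e : Fin 4 → R4 := fun i => Pi.single i 1
  choose L hL hL' using fun (i j k : Fin 4) (x : R4) =>
    fderiv_c3 tr (hd (e i) x) (hd (e j) x) (hd (e k) x)
  have hK : ∀ (i : Fin 4) x, ∃ K : R4 →L[ℝ] ℝ, HasFDerivAt (fun y => tr (a (e i) y * T)) K x ∧
      ∀ v, K v = tr (fderiv ℝ (a (e i)) x v * T) := fun i x =>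
    ⟨_, tr.hasFDerivAt.comp x ((hd (e i) x).hasFDerivAt.mul_const' T), fun v => by simp⟩
  choose K hK hK' using hK
  have key := no_div
    ![fun y => -2 * tr (a (e 2) y * T) - c3 tr (a (e 1) y) (a (e 2) y) (a (e 3) y),
      fun y => 2 * tr (a (e 3) y * T) + c3 tr (a (e 0) y) (a (e 2) y) (a (e 3) y),
      fun y => 2 * tr (a (e 0) y * T) - c3 tr (a (e 0) y) (a (e 1) y) (a (e 3) y),
      fun y => -2 * tr (a (e 1) y * T) + c3 tr (a (e 0) y) (a (e 1) y) (a (e 2) y)]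
    ![fun y => (-2 : ℝ) • K 2 y - L 1 2 3 y, fun y => (2 : ℝ) • K 3 y + L 0 2 3 y,
      fun y => (2 : ℝ) • K 0 y - L 0 1 3 y, fun y => (-2 : ℝ) • K 1 y + L 0 1 2 y]
    (fun i x => by
      fin_cases i
      · exact ((hK 2 x).const_mul (-2)).sub (hL 1 2 3 x)
      · exact ((hK 3 x).const_mul 2).add (hL 0 2 3 x)
      · exact ((hK 0 x).const_mul 2).sub (hL 0 1 3 x)
      · exact ((hK 1 x).const_mul (-2)).add (hL 0 1 2 x))
    (fun i γ x => by fin_cases i <;> simp [ht, h3]) (c := -8 * tr (T * T)) (fun x => by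
      rw [Fin.sum_univ_four]
      simp only [Matrix.cons_val_zero, Matrix.cons_val_one, Matrix.cons_val, add_apply, sub_apply,
        smul_apply, smul_eq_mul, hK', hL']
      refine div_alg tr htr T _ _ _ _ _ _ _ _ _ _ _ _ _ _ _ _ (dotL 4 (Jop x) (e 0))
        (dotL 4 (Jop x) (e 1)) (dotL 4 (Jop x) (e 2)) (dotL 4 (Jop x) (e 3)) ?_ ?_ ?_ ?_ ?_ ?_ <;>
      rw [hfl] <;> simp [dot4, e] <;> norm_num [sub_eq_add_neg])
  exact hT (by linarith)

end Pool.Agent.Lib.MP_91447a_gt
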