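import Pool.Agent.Lib.MP_91447a_gt.Calc

open scoped Manifold ContDiff Topology
open Set Function Filter

noncomputable section

namespace Pool.Agent.Lib.MP_91447a_gt

variable {Z : Type} [NormedAddCommGroup Z] [NormedSpace ℝ Z]
  {V : Type} [NormedAddCommGroup V] [NormedSpace ℝ V]

theorem cda_fderiv {f : Z → V} {z : Z} (hf : ContDiffAt ℝ ∞ f z) :
    ContDiffAt ℝ ∞ (fderiv ℝ f) z := hf.fderiv_right (m := ∞) (by simp)

theorem cda_fderiv_apply {f : Z → V} {z : Z} (hf : ContDiffAt ℝ ∞ f z) (v : Z) :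
    ContDiffAt ℝ ∞ (fun w => fderiv ℝ f w v) z := (cda_fderiv hf).clm_apply contDiffAt_const

theorem cda_diff {f : Z → V} {z : Z} (hf : ContDiffAt ℝ ∞ f z) : DifferentiableAt ℝ f z :=
  hf.differentiableAt (by simp)

theorem fderiv_fderiv_apply {f : Z → V} {z : Z} (hf : ContDiffAt ℝ ∞ f z) (u v : Z) :
    fderiv ℝ (fun w => fderiv ℝ f w v) z u = fderiv ℝ (fderiv ℝ f) z u v := by
  rw [fderiv_clm_apply (cda_diff (cda_fderiv hf)) (differentiableAt_const _)]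
  simp

theorem snd_symm {f : Z → V} {z : Z} (hf : ContDiffAt ℝ ∞ f z) (u v : Z) :
    fderiv ℝ (fderiv ℝ f) z u v = fderiv ℝ (fderiv ℝ f) z v u :=
  (hf.isSymmSndFDerivAt (by
    rw [minSmoothness_of_isRCLikeNormedField]; exact WithTop.coe_le_coe.2 le_top)).eq u v

theorem snd_symm' {f : Z → V} {z : Z} (hf : ContDiffAt ℝ ∞ f z) (u v : Z) :
    fderiv ℝ (fun w => fderiv ℝ f w v) z u = fderiv ℝ (fun w => fderiv ℝ f w u) z v := by
  rw [fderiv_fderiv_apply hf, fderiv_fderiv_apply hf, snd_symm hf]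

/-- Exterior derivative of a 1-form on a vector space. -/
def dForm (Λ : V → V →L[ℝ] ℝ) (q : V) : V →L[ℝ] V →L[ℝ] ℝ :=
  fderiv ℝ Λ q - (fderiv ℝ Λ q).flip

theorem dForm_apply (Λ : V → V →L[ℝ] ℝ) (q u v : V) :
    dForm Λ q u v = fderiv ℝ Λ q u v - fderiv ℝ Λ q v u := rfl

/-- Pull-back of a 1-form. -/
def pull1 (Λ : V → V →L[ℝ] ℝ) (A : Z → V) (v w : Z) : ℝ := Λ (A w) (fderiv ℝ A w v)

theorem cda_pull1 {Λ : V → V →L[ℝ] ℝ} (hΛ : ContDiff ℝ ∞ Λ) {A : Z → V} {z : Z}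
    (hA : ContDiffAt ℝ ∞ A z) (v : Z) : ContDiffAt ℝ ∞ (pull1 Λ A v) z :=
  (hΛ.contDiffAt.comp z hA).clm_apply (cda_fderiv_apply hA v)

theorem d_pull1 {Λ : V → V →L[ℝ] ℝ} (hΛ : ContDiff ℝ ∞ Λ) {A : Z → V} {z : Z}
    (hA : ContDiffAt ℝ ∞ A z) (u v : Z) :
    fderiv ℝ (pull1 Λ A v) z u - fderiv ℝ (pull1 Λ A u) z v =
      dForm Λ (A z) (fderiv ℝ A z u) (fderiv ℝ A z v) := by
  have h1 : DifferentiableAt ℝ Λ (A z) := cda_diff hΛ.contDiffAt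
  have h2 : ∀ u v, fderiv ℝ (pull1 Λ A v) z u =
      fderiv ℝ Λ (A z) (fderiv ℝ A z u) (fderiv ℝ A z v) +
        Λ (A z) (fderiv ℝ (fderiv ℝ A) z u v) := by
    intro u v
    unfold pull1
    rw [fderiv_clm_apply (c := fun w => Λ (A w)) (h1.comp z (cda_diff hA))
      (cda_diff (cda_fderiv_apply hA v))]
    rw [fderiv_fun_comp z h1 (cda_diff hA)]
    simp [fderiv_fderiv_apply hA, add_comm]
  rw [h2, h2, snd_symm hA u v, dForm_apply]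
  ring

theorem closed_pull {Λ : V → V →L[ℝ] ℝ} (hΛ : ContDiff ℝ ∞ Λ) {A : Z → V} {z : Z}
    (hA : ∀ᶠ w in 𝓝 z, ContDiffAt ℝ ∞ A w) {P : Z → Z → Z → ℝ}
    (hP : ∀ u v, ∀ᶠ w in 𝓝 z, P u v w = dForm Λ (A w) (fderiv ℝ A w u) (fderiv ℝ A w v))
    (u v w : Z) : ContDiffAt ℝ ∞ (P u v) z ∧
      fderiv ℝ (P v w) z u + fderiv ℝ (P w u) z v + fderiv ℝ (P u v) z w = 0 := by
  have h0 := hA.self_of_nhds
  have h1 : ∀ u v, P u v =ᶠ[𝓝 z]
      fun w => fderiv ℝ (pull1 Λ A v) w u - fderiv ℝ (pull1 Λ A u) w v := by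
    intro u v
    filter_upwards [hA, hP u v] with w h1 h2
    rw [h2, d_pull1 hΛ h1]
  have h2 : ∀ u v w, fderiv ℝ (P u v) z w =
      fderiv ℝ (fun y => fderiv ℝ (pull1 Λ A v) y u) z w -
        fderiv ℝ (fun y => fderiv ℝ (pull1 Λ A u) y v) z w := by
    intro u v w
    rw [(h1 u v).fderiv_eq, fderiv_fun_sub (cda_diff (cda_fderiv_apply (cda_pull1 hΛ h0 _) _))
      (cda_diff (cda_fderiv_apply (cda_pull1 hΛ h0 _) _))]
    rfl
  refine ⟨((cda_fderiv_apply (cda_pull1 hΛ h0 _) _).sub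
    (cda_fderiv_apply (cda_pull1 hΛ h0 _) _)).congr_of_eventuallyEq (h1 u v), ?_⟩
  rw [h2, h2, h2, snd_symm' (cda_pull1 hΛ h0 w) u v, snd_symm' (cda_pull1 hΛ h0 v) u w,
    snd_symm' (cda_pull1 hΛ h0 u) v w]
  ring

theorem dForm_add_of {Λ : V → V →L[ℝ] ℝ} (hΛ : ContDiff ℝ ∞ Λ) {A B C : Z → V} {z : Z}
    (hA : ContDiffAt ℝ ∞ A z) (hB : ContDiffAt ℝ ∞ B z) (hC : ContDiffAt ℝ ∞ C z)
    (h : ∀ v, ∀ᶠ w in 𝓝 z, pull1 Λ C v w = pull1 Λ A v w + pull1 Λ B v w) (u v : Z) :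
    dForm Λ (C z) (fderiv ℝ C z u) (fderiv ℝ C z v) =
      dForm Λ (A z) (fderiv ℝ A z u) (fderiv ℝ A z v) +
        dForm Λ (B z) (fderiv ℝ B z u) (fderiv ℝ B z v) := by
  have h1 : ∀ u v, fderiv ℝ (pull1 Λ C v) z u =
      fderiv ℝ (pull1 Λ A v) z u + fderiv ℝ (pull1 Λ B v) z u := by
    intro u v
    have : pull1 Λ C v =ᶠ[𝓝 z] fun w => pull1 Λ A v w + pull1 Λ B v w := h v
    rw [this.fderiv_eq, fderiv_fun_add (cda_diff (cda_pull1 hΛ hA v))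
      (cda_diff (cda_pull1 hΛ hB v))]
    rfl
  rw [← d_pull1 hΛ hA, ← d_pull1 hΛ hB, ← d_pull1 hΛ hC, h1, h1]
  ring

theorem dForm_eq_of {Λ : V → V →L[ℝ] ℝ} (hΛ : ContDiff ℝ ∞ Λ) {A C : Z → V} {z : Z}
    (hA : ContDiffAt ℝ ∞ A z) (hC : ContDiffAt ℝ ∞ C z) (L : V →L[ℝ] ℝ)
    (h : ∀ v, ∀ᶠ w in 𝓝 z, pull1 Λ C v w = pull1 Λ A v w + L (fderiv ℝ A w v)) (u v : Z) :
    dForm Λ (C z) (fderiv ℝ C z u) (fderiv ℝ C z v) =
      dForm Λ (A z) (fderiv ℝ A z u) (fderiv ℝ A z v) := by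
  have h1 : ∀ u v, fderiv ℝ (pull1 Λ C v) z u =
      fderiv ℝ (pull1 Λ A v) z u + L (fderiv ℝ (fderiv ℝ A) z u v) := by
    intro u v
    have : pull1 Λ C v =ᶠ[𝓝 z] fun w => pull1 Λ A v w + L (fderiv ℝ A w v) := h v
    have h2 : HasFDerivAt (fun w => L (fderiv ℝ A w v))
        (L.comp (fderiv ℝ (fun w => fderiv ℝ A w v) z)) z :=
      L.hasFDerivAt.comp z (cda_diff (cda_fderiv_apply hA v)).hasFDerivAt
    rw [this.fderiv_eq, fderiv_fun_add (cda_diff (cda_pull1 hΛ hA v)) h2.differentiableAt,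
      h2.fderiv]
    simp [fderiv_fderiv_apply hA]
  rw [← d_pull1 hΛ hA, ← d_pull1 hΛ hC, h1, h1, snd_symm hA u v]
  ring

/-- The bracket on a vector space. -/
def brE (π : V → (V →L[ℝ] ℝ) →L[ℝ] V) (f g : V → ℝ) (x : V) : ℝ :=
  fderiv ℝ g x (π x (fderiv ℝ f x))

theorem cda_brE {π : V → (V →L[ℝ] ℝ) →L[ℝ] V} (hπ : ContDiff ℝ ∞ π) {f g : V → ℝ} {x : V}
    (hf : ContDiffAt ℝ ∞ f x) (hg : ContDiffAt ℝ ∞ g x) : ContDiffAt ℝ ∞ (brE π f g) x :=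
  (cda_fderiv hg).clm_apply (hπ.contDiffAt.clm_apply (cda_fderiv hf))

theorem fderiv_brE {π : V → (V →L[ℝ] ℝ) →L[ℝ] V} (hπ : ContDiff ℝ ∞ π) {f g : V → ℝ} {x : V}
    (hf : ContDiffAt ℝ ∞ f x) (hg : ContDiffAt ℝ ∞ g x) (v : V) :
    fderiv ℝ (brE π f g) x v = fderiv ℝ (fderiv ℝ g) x v (π x (fderiv ℝ f x)) +
      fderiv ℝ g x (fderiv ℝ π x v (fderiv ℝ f x)) +
      fderiv ℝ g x (π x (fderiv ℝ (fderiv ℝ f) x v)) := by
  have h1 := cda_diff (cda_fderiv hf)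
  have h2 := cda_diff (cda_fderiv hg)
  have h3 : DifferentiableAt ℝ π x := cda_diff hπ.contDiffAt
  unfold brE
  rw [fderiv_clm_apply h2 (h3.clm_apply h1), fderiv_clm_apply h3 h1]
  simp
  ring

theorem jacobi_brE {π : V → (V →L[ℝ] ℝ) →L[ℝ] V} (hπ : ContDiff ℝ ∞ π)
    (hskew : ∀ x (α β : V →L[ℝ] ℝ), β (π x α) = -α (π x β))
    (hcyc : ∀ x (α β γ : V →L[ℝ] ℝ), γ (fderiv ℝ π x (π x α) β) + α (fderiv ℝ π x (π x β) γ) +
      β (fderiv ℝ π x (π x γ) α) = 0)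
    {f g h : V → ℝ} {x : V} (hf : ContDiffAt ℝ ∞ f x) (hg : ContDiffAt ℝ ∞ g x)
    (hh : ContDiffAt ℝ ∞ h x) :
    brE π f (brE π g h) x + brE π g (brE π h f) x + brE π h (brE π f g) x = 0 := by
  have e1 := fderiv_brE hπ hg hh (π x (fderiv ℝ f x))
  have e2 := fderiv_brE hπ hh hf (π x (fderiv ℝ g x))
  have e3 := fderiv_brE hπ hf hg (π x (fderiv ℝ h x))
  have c := hcyc x (fderiv ℝ f x) (fderiv ℝ g x) (fderiv ℝ h x)
  have s1 := snd_symm hf (π x (fderiv ℝ g x)) (π x (fderiv ℝ h x))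
  have s2 := snd_symm hg (π x (fderiv ℝ h x)) (π x (fderiv ℝ f x))
  have s3 := snd_symm hh (π x (fderiv ℝ f x)) (π x (fderiv ℝ g x))
  rw [hskew x (fderiv ℝ (fderiv ℝ g) x _)] at e1
  rw [hskew x (fderiv ℝ (fderiv ℝ h) x _)] at e2
  rw [hskew x (fderiv ℝ (fderiv ℝ f) x _)] at e3
  change fderiv ℝ (brE π g h) x _ + fderiv ℝ (brE π h f) x _ + fderiv ℝ (brE π f g) x _ = 0
  rw [e1, e2, e3]
  linarith

/-- A bivector field that is locally the image of a Poisson structure on a vector space. -/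
theorem isPoisson_of_desc {M : Type} [TopologicalSpace M] [ChartedSpace V M] {p : V → M}
    (hp : LocDiff V V p) (hs : Surjective p) {π : V → (V →L[ℝ] ℝ) →L[ℝ] V}
    (hπ : ContDiff ℝ ∞ π) (hskew : ∀ x (α β : V →L[ℝ] ℝ), β (π x α) = -α (π x β))
    (hcyc : ∀ x (α β γ : V →L[ℝ] ℝ), γ (fderiv ℝ π x (π x α) β) + α (fderiv ℝ π x (π x β) γ) +
      β (fderiv ℝ π x (π x γ) α) = 0)
    {πM : M → (V →L[ℝ] ℝ) →L[ℝ] V}
    (hd : ∀ x (α : V →L[ℝ] ℝ), πM (p x) α = D V V p x (π x (α.comp (D V V p x)))) :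
    IsPoisson πM := by
  have hbr : ∀ (f g : M → ℝ) x, SmAt V ℝ f (p x) → SmAt V ℝ g (p x) →
      br πM f g (p x) = brE π (fun y => f (p y)) (fun y => g (p y)) x := by
    intro f g x hf hg
    unfold br brE ev sh
    rw [← D_eq_fderiv, ← D_eq_fderiv, D_comp hf (hp.sm x), D_comp hg (hp.sm x), hd]
    rfl
  have hbr' : ∀ U (f g : M → ℝ), IsOpen U → Sm V ℝ f U → Sm V ℝ g U → ∀ x, p x ∈ U →
      (fun y => br πM f g (p y)) =ᶠ[𝓝 x] brE π (fun y => f (p y)) (fun y => g (p y)) := by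
    intro U f g hU hf hg x hx
    filter_upwards [hp.cont.continuousAt.eventually (hU.mem_nhds hx)] with y hy
    exact hbr f g y (hf.smAt hU hy) (hg.smAt hU hy)
  have hc : ∀ U (f : M → ℝ), IsOpen U → Sm V ℝ f U → ∀ x, p x ∈ U →
      ContDiffAt ℝ ∞ (fun y => f (p y)) x := fun U f hU hf x hx =>
    smAt_iff_contDiffAt.1 ((hf.smAt hU hx).comp_eq (hp.sm x) rfl)
  have hsm : ∀ U (f g : M → ℝ), IsOpen U → Sm V ℝ f U → Sm V ℝ g U → Sm V ℝ (br πM f g) U := by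
    intro U f g hU hf hg
    refine sm_of_smAt fun y hy => ?_
    obtain ⟨x, rfl⟩ := hs y
    refine hp.smAt_of_comp (smAt_iff_contDiffAt.2 ?_)
    exact (cda_brE hπ (hc U f hU hf x hy) (hc U g hU hg x hy)).congr_of_eventuallyEq
      (hbr' U f g hU hf hg x hy)
  refine ⟨fun y α β => ?_, hsm, fun U f g h hU hf hg hh y hy => ?_⟩
  · obtain ⟨x, rfl⟩ := hs y
    unfold ev sh
    rw [hd, hd]
    exact hskew x (α.comp (D V V p x)) (β.comp (D V V p x))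
  · obtain ⟨x, rfl⟩ := hs y
    have e : ∀ f g h : M → ℝ, Sm V ℝ f U → Sm V ℝ g U → Sm V ℝ h U →
        br πM f (br πM g h) (p x) = brE π (fun y => f (p y))
          (brE π (fun y => g (p y)) (fun y => h (p y))) x := by
      intro f g h hf hg hh
      rw [hbr _ _ x (hf.smAt hU hy) ((hsm U g h hU hg hh).smAt hU hy)]
      unfold brE
      rw [(hbr' U g h hU hg hh x hy).fderiv_eq]
      rfl
    rw [e f g h hf hg hh, e g h f hg hh hf, e h f g hh hf hg]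
    exact jacobi_brE hπ hskew hcyc (hc U f hU hf x hy) (hc U g hU hg x hy) (hc U h hU hh x hy)

end Pool.Agent.Lib.MP_91447a_gt
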