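import Pool.Agent.Lib.MP_91447a_gt.Alg

open scoped Manifold ContDiff Topology Quaternion
open Set Function Filter

noncomputable section

namespace Pool.Agent.Lib.MP_91447a_gt

def cov : (E7 →L[ℝ] ℝ) →L[ℝ] E7 := LinearMap.toContinuousLinearMap
  { toFun := fun α => (fun i => α (Pi.single i 1, 0), fun j => α (0, Pi.single j 1))
    map_add' := fun x y => by ext <;> simp
    map_smul' := fun c x => by ext <;> simp }

theorem cov_spec (α : E7 →L[ℝ] ℝ) (v : E7) :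
    α v = dotL 4 (cov α).1 v.1 + dotL 3 (cov α).2 v.2 := by
  have : v = v.1 0 • ((Pi.single 0 1, 0) : E7) + v.1 1 • ((Pi.single 1 1, 0) : E7) +
      v.1 2 • ((Pi.single 2 1, 0) : E7) + v.1 3 • ((Pi.single 3 1, 0) : E7) +
      v.2 0 • ((0, Pi.single 0 1) : E7) + v.2 1 • ((0, Pi.single 1 1) : E7) +
      v.2 2 • ((0, Pi.single 2 1) : E7) := by
    ext i <;> fin_cases i <;> simp
  conv_lhs => rw [this]
  simp only [map_add, map_smul, dot4, dot3, smul_eq_mul]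
  simp only [cov, LinearMap.coe_toContinuousLinearMap', LinearMap.coe_mk, AddHom.coe_mk]
  ring

/-- The covector with given components. -/
def covI (a : R4) (ζ : R3) : E7 →L[ℝ] ℝ :=
  (dotL 4 a).comp (.fst ℝ R4 R3) + (dotL 3 ζ).comp (.snd ℝ R4 R3)

theorem covI_apply (a : R4) (ζ : R3) (v : E7) : covI a ζ v = dotL 4 a v.1 + dotL 3 ζ v.2 := rfl

theorem cov_covI (a : R4) (ζ : R3) : cov (covI a ζ) = (a, ζ) := by
  ext i <;> fin_cases i <;> simp [cov, covI_apply, dot4, dot3]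

theorem covI_cov (α : E7 →L[ℝ] ℝ) : covI (cov α).1 (cov α).2 = α := by
  refine ContinuousLinearMap.ext fun v => ?_
  rw [covI_apply, ← cov_spec]

def KL (z : E7) : E7 →L[ℝ] E7 := LinearMap.toContinuousLinearMap
  { toFun := fun a => (Kx z.1 z.2 a.1 a.2, Kxi z.1 z.2 a.1 a.2)
    map_add' := fun a b => by
      ext i <;> fin_cases i <;> simp [Kx, Kxi, dot4] <;> ring
    map_smul' := fun c a => by
      ext i <;> fin_cases i <;> simp [Kx, Kxi, dot4] <;> ring }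

/-- The Poisson tensor on `ℝ⁴ × ℝ³`. -/
def piT (z : E7) : (E7 →L[ℝ] ℝ) →L[ℝ] E7 := (KL z).comp cov

theorem piT_apply (z : E7) (α : E7 →L[ℝ] ℝ) :
    piT z α = (Kx z.1 z.2 (cov α).1 (cov α).2, Kxi z.1 z.2 (cov α).1 (cov α).2) := rfl

theorem contDiff_piT : ContDiff ℝ ∞ piT := by
  refine contDiff_clm_apply_iff.2 fun α => ?_
  simp only [piT_apply]
  have h0 : ContDiff ℝ ∞ (fun z : E7 => (1 + z.2 0 ^ 2)⁻¹) :=
    ContDiff.inv (by fun_prop) fun z => by positivity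
  refine ContDiff.prodMk (contDiff_pi.2 fun i => ?_) (contDiff_pi.2 fun i => ?_)
  · fin_cases i <;> simp [Kx] <;> fun_prop
  · fin_cases i <;> simp [Kx, Kxi, dot4] <;> fun_prop

def ah (x : R4) (ξ : R3) (a : R4) (ζ : R3) : R4 := a + (2 * cross ξ ζ 0) • Jop x

def Bf (a : R4) (ζ : R3) (b : R4) (η : R3) (z : E7) : ℝ :=
  -((2 * (1 + z.2 0 ^ 2))⁻¹ * (dotL 4 (Iop (ah z.1 z.2 a ζ)) (ah z.1 z.2 b η) -
    z.2 0 * dotL 4 (Jop (ah z.1 z.2 a ζ)) (ah z.1 z.2 b η))) + 2 * dotL 3 η (cross z.2 ζ)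

theorem piT_eq_Bf (z : E7) (α β : E7 →L[ℝ] ℝ) :
    β (piT z α) = Bf (cov α).1 (cov α).2 (cov β).1 (cov β).2 z := by
  rw [cov_spec β, piT_apply]
  simp [Bf, ah, Kx, Kxi, dot4, dot3]
  ring

theorem piT_skew (z : E7) (α β : E7 →L[ℝ] ℝ) : β (piT z α) = -α (piT z β) := by
  rw [piT_eq_Bf, piT_eq_Bf]
  simp [Bf, dot4, dot3]
  ring

def dah (x : R4) (ξ ζ : R3) (X : R4) (Ξ : R3) : R4 :=
  (2 * cross ξ ζ 0) • Jop X + (2 * cross Ξ ζ 0) • Jop x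

def dB (x : R4) (ξ : R3) (A : R4) (ζ : R3) (B : R4) (η : R3) (X : R4) (Ξ : R3) : ℝ :=
  -((2 * (1 + ξ 0 ^ 2))⁻¹ * (dotL 4 (Iop A) (dah x ξ η X Ξ) + dotL 4 (Iop (dah x ξ ζ X Ξ)) B -
      (ξ 0 * (dotL 4 (Jop A) (dah x ξ η X Ξ) + dotL 4 (Jop (dah x ξ ζ X Ξ)) B) +
        Ξ 0 * dotL 4 (Jop A) B)) -
    4 * ξ 0 * Ξ 0 * ((2 * (1 + ξ 0 ^ 2))⁻¹) ^ 2 * (dotL 4 (Iop A) B - ξ 0 * dotL 4 (Jop A) B)) +
    2 * dotL 3 η (cross Ξ ζ)

def crossL (ζ : R3) : R3 →L[ℝ] R3 := LinearMap.toContinuousLinearMap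
  { toFun := fun ξ => cross ξ ζ
    map_add' := fun a b => by ext i; fin_cases i <;> simp <;> ring
    map_smul' := fun c a => by ext i; fin_cases i <;> simp <;> ring }

@[simp] theorem crossL_apply (ζ ξ : R3) : crossL ζ ξ = cross ξ ζ := rfl

theorem hasFDerivAt_ah (a : R4) (ζ : R3) (z : E7) : ∃ L : E7 →L[ℝ] R4,
    HasFDerivAt (fun z : E7 => ah z.1 z.2 a ζ) L z ∧ ∀ v, L v = dah z.1 z.2 ζ v.1 v.2 := by
  have h1 := ((ContinuousLinearMap.proj (0 : Fin 3) : R3 →L[ℝ] ℝ).comp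
    ((crossL ζ).comp (.snd ℝ R4 R3))).hasFDerivAt (x := z)
  have h2 := (Jop.comp (.fst ℝ R4 R3)).hasFDerivAt (x := z)
  refine ⟨_, ((h1.const_mul 2).smul h2).const_add a, fun v => ?_⟩
  simp [dah]

theorem fderiv_Bf (a : R4) (ζ : R3) (b : R4) (η : R3) (z v : E7) :
    fderiv ℝ (Bf a ζ b η) z v =
      dB z.1 z.2 (ah z.1 z.2 a ζ) ζ (ah z.1 z.2 b η) η v.1 v.2 := by
  obtain ⟨L, hL, hL'⟩ := hasFDerivAt_ah a ζ z
  obtain ⟨L2, hL2, hL2'⟩ := hasFDerivAt_ah b η z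
  have ht := ((ContinuousLinearMap.proj (0 : Fin 3) : R3 →L[ℝ] ℝ).comp
    (.snd ℝ R4 R3)).hasFDerivAt (x := z)
  have hc := (hasDerivAt_inv (x := 2 * (1 + z.2 0 ^ 2)) (by positivity)).comp_hasFDerivAt z
    (((ht.pow 2).const_add 1).const_mul 2)
  have h1 := (((dotL 4).comp Iop).hasFDerivAt.comp z hL).clm_apply hL2
  have h2 := (((dotL 4).comp Jop).hasFDerivAt.comp z hL).clm_apply hL2
  have h3 := ((dotL 3 η).comp ((crossL ζ).comp (.snd ℝ R4 R3))).hasFDerivAt (x := z)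
  have h4 : HasFDerivAt (Bf a ζ b η) _ z :=
    (hc.mul (h1.sub (ht.mul h2))).neg.add (h3.const_mul 2)
  rw [h4.fderiv]
  simp [hL', hL2', dB]
  field_simp
  ring

set_option maxRecDepth 100000 in
theorem cyc_alg (x : R4) (ξ : R3) (A B C : R4) (ζ η θ : R3) :
    let K := fun A : R4 => (-(2 * (1 + ξ 0 ^ 2))⁻¹) • (Iop A - ξ 0 • Jop A)
    let Ki := fun (A : R4) (ζ : R3) =>
      (2 : ℝ) • cross ξ ζ - (2 * dotL 4 (Jop x) (K A)) • cross ξ e0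
    dB x ξ B η C θ (K A) (Ki A ζ) + dB x ξ C θ A ζ (K B) (Ki B η) +
      dB x ξ A ζ B η (K C) (Ki C θ) = 0 := by
  intro K Ki
  have ht : (1 + ξ 0 ^ 2) ≠ 0 := by positivity
  simp only [K, Ki, dB, dah, dot4, dot3, Pi.add_apply, Pi.sub_apply, Pi.smul_apply, smul_eq_mul,
    Iop_0, Iop_1, Iop_2, Iop_3, Jop_0, Jop_1, Jop_2, Jop_3, cross_0,
    cross_1, cross_2, e0_0, e0_1, e0_2]
  field_simp
  ring

theorem piT_cyc (z : E7) (α β γ : E7 →L[ℝ] ℝ) :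
    γ (fderiv ℝ piT z (piT z α) β) + α (fderiv ℝ piT z (piT z β) γ) +
      β (fderiv ℝ piT z (piT z γ) α) = 0 := by
  have hd : DifferentiableAt ℝ piT z := cda_diff contDiff_piT.contDiffAt
  have e : ∀ (β γ : E7 →L[ℝ] ℝ) v, γ (fderiv ℝ piT z v β) =
      fderiv ℝ (Bf (cov β).1 (cov β).2 (cov γ).1 (cov γ).2) z v := by
    intro β γ v
    have h1 : Bf (cov β).1 (cov β).2 (cov γ).1 (cov γ).2 = fun z => γ (piT z β) :=
      funext fun z => (piT_eq_Bf z β γ).symm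
    have h2 := γ.hasFDerivAt.comp z (hd.hasFDerivAt.clm_apply (hasFDerivAt_const β z))
    rw [h1, (show HasFDerivAt (fun z => γ (piT z β)) _ z from h2).fderiv]
    simp
  rw [e, e, e, fderiv_Bf, fderiv_Bf, fderiv_Bf]
  exact cyc_alg z.1 z.2 _ _ _ _ _ _

end Pool.Agent.Lib.MP_91447a_gt
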