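import Pool.Agent.Lib.MP_91447a_gt.Proper

open scoped Manifold ContDiff Topology Quaternion
open Set Function Filter Metric

noncomputable section

namespace Pool.Agent.Lib.MP_91447a_gt

def ex (n : R3) (θ : ℝ) : Qu := Real.cos θ • (1 : Qu) + Real.sin θ • hat n

theorem ex_zero (n : R3) : ex n 0 = 1 := by simp [ex]

theorem ns_ex {n : R3} (hn : dotL 3 n n = 1) (θ : ℝ) : ns (ex n θ) = 1 := by
  rw [dot3] at hn
  simp [ns, ex]
  linear_combination Real.sin θ ^ 2 * hn + Real.cos_sq_add_sin_sq θ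

theorem ex_add {n : R3} (hn : dotL 3 n n = 1) (θ φ : ℝ) : ex n (θ + φ) = ex n θ * ex n φ := by
  rw [dot3] at hn
  ext <;> simp [ex, Real.cos_add, Real.sin_add]
  · linear_combination Real.sin θ * Real.sin φ * hn
  all_goals ring

theorem hasDerivAt_ex {n : R3} (hn : dotL 3 n n = 1) (a τ : ℝ) :
    HasDerivAt (fun τ => ex n (a * τ)) (hat (a • n) * ex n (a * τ)) τ := by
  have h0 : HasDerivAt (fun τ => a * τ) a τ := by simpa using (hasDerivAt_id τ).const_mul a
  have h := (h0.cos.smul_const (1 : Qu)).add (h0.sin.smul_const (hat n))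
  rw [dot3] at hn
  convert! h using 1
  ext <;> simp [ex]
  · linear_combination (-a * Real.sin (a * τ)) * hn
  all_goals ring

theorem contDiff_ex (n : R3) : ContDiff ℝ ∞ (ex n) := by
  unfold ex; fun_prop

theorem Ad_ex {n : R3} (hn : dotL 3 n n = 1) (θ r : ℝ) : Ad (star (ex n θ)) (r • n) = r • n := by
  have h := ns_ex hn θ
  have h1 : hat (r • n) * ex n θ = ex n θ * hat (r • n) := by
    have : hat (r • n) * hat n = hat n * hat (r • n) := by
      rw [map_smul, smul_mul_assoc, mul_smul_comm]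
    rw [ex, mul_add, add_mul, mul_smul_comm, mul_smul_comm, smul_mul_assoc, smul_mul_assoc,
      mul_one, one_mul, this]
  rw [Ad, star_star, mul_assoc, h1, ← mul_assoc, star_mul_of h, one_mul, vee_hat]

theorem OmT_unit {z : E7} {v : EG} {Z : R3} (hv : D EG VV iota (uT z) v = tv 1 0 0 0 Z)
    (hZ : cross Z z.2 = 0) (w : EG) : OmT (uT z) v w = -dotL 3 Z w.1.2.2 := by
  obtain ⟨Z', hZ'⟩ := exists_D_iota_tv (uT z) w
  rw [OmT_apply, hv, hZ']
  refine (dForm_tv (x := z.1) (y := z.1) (ξ := z.2) (g := 1) (by simp [ns]) _ _ _ _ _ _ _ _).trans ?_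
  have c0 := congrFun hZ 0
  have c1 := congrFun hZ 1
  have c2 := congrFun hZ 2
  simp at c0 c1 c2
  have e1 : dotL 3 z.2 (cross Z (nv 1)) = 0 := by
    simp [dot3, nv, Ad_one]; linear_combination -c0
  simp only [omF, e1]
  simp [dot3]
  linear_combination -2 * Z' 0 * c0 - 2 * Z' 1 * c1 - 2 * Z' 2 * c2

/-- The integral affine coordinate. -/
def bb (y : MM) : ℝ := 2 * Real.pi * Real.sqrt (rr y)

theorem smAt_bb {y : MM} (h : rr y ≠ 0) : SmAt E7 ℝ bb y :=
  (smAt_iff_contDiffAt.2 (contDiffAt_const.mul (Real.contDiffAt_sqrt h))).comp_eq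
    (g := fun t => 2 * Real.pi * Real.sqrt t) (smAt_rr y) rfl

theorem D_bb {z : E7} {r : ℝ} {n : R3} (hr : 0 < r) (hn : dotL 3 n n = 1) (hz : z.2 = r • n)
    (v : E7) : D E7 ℝ bb (pM z) (D E7 E7 pM z v) = 2 * Real.pi * dotL 3 n v.2 := by
  have h0 : dotL 3 z.2 z.2 = r * r := by
    rw [hz]; simp only [map_smul, smul_apply, smul_eq_mul, hn, mul_one]
  have h1 : dotL 3 z.2 z.2 ≠ 0 := by rw [h0]; positivity
  have h2 := D_comp_eq (smAt_bb (y := pM z) h1) (pM_ld.sm z) rfl
  have h3 := ((dotL 3).comp (.snd ℝ R4 R3)).hasFDerivAt.clm_apply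
    (ContinuousLinearMap.snd ℝ R4 R3).hasFDerivAt (x := z)
  have h4 : HasFDerivAt (fun y => bb (pM y)) _ z := (h3.sqrt h1).const_mul (2 * Real.pi)
  rw [D_eq_fderiv, h4.fderiv] at h2
  have h5 := congrArg (fun L : E7 →L[ℝ] ℝ => L v) h2
  simp only [ContinuousLinearMap.comp_apply] at h5
  rw [← h5]
  have h6 : Real.sqrt (dotL 3 z.2 z.2) = r := by rw [h0, Real.sqrt_mul_self hr.le]
  simp [h6]
  rw [hz]
  simp [dot3]
  field_simp
  ring

theorem pP_unique {a b : GT} (h : pP a = pP b) (ht : tT a = tT b) (hs : sT a = sT b) : a = b := by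
  obtain ⟨δ, rfl⟩ := pP_eq.1 h
  rw [tT_vadd] at ht
  rw [sT_vadd] at hs
  have h1 : δ = 0 := Prod.ext (vadd_E7_cancel (ht.trans (zero_vadd _ _).symm))
    (vadd_E7_cancel (hs.trans (zero_vadd _ _).symm))
  rw [h1, zero_vadd]

theorem Om_curve {z : E7} {c : ℝ → GT} (hc : SmAt ℝ EG c 0) (h0 : c 0 = uT z) {Z : R3}
    (hZ : D EG VV iota (uT z) (D ℝ EG c 0 1) = tv 1 0 0 0 Z) (hZ' : cross Z z.2 = 0)
    (α : E7 →L[ℝ] ℝ) :
    (∀ w, Om (pP (c 0)) (D ℝ EG (fun τ => pP (c τ)) 0 1) w = α (D EG E7 tG (pP (c 0)) w)) ↔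
      ∀ v, α (D E7 E7 pM z v) = -dotL 3 Z v.2 := by
  rw [D_comp_eq (pP_ld.sm _) hc rfl, h0]
  constructor
  · intro h v
    have := h (D EG EG pP (uT z) ((v.1, 0, v.2), 0))
    rw [ContinuousLinearMap.comp_apply, Om_pP, OmT_unit hZ hZ', D_tG, D_tT] at this
    exact this.symm
  · intro h w
    obtain ⟨w, rfl⟩ := (pP_ld.D_bij (uT z)).2 w
    rw [ContinuousLinearMap.comp_apply, Om_pP, OmT_unit hZ hZ', D_tG, D_tT, tT_uT, h]

theorem D_iota_curve {c : ℝ → GT} (hc : SmAt ℝ EG c 0) {w : VV}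
    (h : HasDerivAt (fun τ => iota (c τ)) w 0) : D EG VV iota (c 0) (D ℝ EG c 0 1) = w := by
  have h1 := D_comp_eq (smAt_iota _) hc rfl
  rw [D_eq_fderiv, h.hasFDerivAt.fderiv] at h1
  simpa using (congrArg (fun L : ℝ →L[ℝ] VV => L 1) h1).symm

theorem mem_lattice {z : E7} {r : ℝ} {n : R3} (hr : 0 < r) (hn : dotL 3 n n = 1)
    (hz : z.2 = r • n) (α : E7 →L[ℝ] ℝ) :
    α ∈ GR.lattice E7 (pM z) ↔ ∃ k : ℤ, k • D E7 ℝ bb (pM z) = α := by
  have hpar : ∀ a : ℝ, cross (a • n) z.2 = 0 := fun a => by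
    rw [hz]; refine ext3 ?_ ?_ ?_ <;> simp <;> ring
  constructor
  · rintro ⟨c, hc, hst, hm, h1, hα⟩
    change ∀ τ, sG (c τ) = pM z ∧ tG (c τ) = pM z at hst
    choose c' hc' ht hs using fun τ => lift_st (c τ) (hst τ).2.symm (hst τ).1.symm
    have hcc : c = fun τ => pP (c' τ) := funext fun τ => (hc' τ).symm
    have hsm : SmAt ℝ EG c' 0 := by
      obtain ⟨b, hb0, hb1, hb2⟩ := pP_ld.lift (a := c) (z := 0)
        (Eventually.of_forall fun w => hc.smAt isOpen_univ trivial) (hc' 0)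
      have e1 : (fun w => tT (b w)) =ᶠ[𝓝 0] fun _ => z :=
        pM_ld.unique (continuous_tT.continuousAt.comp hb1.self_of_nhds.continuousAt)
          continuousAt_const (by simp only [hb0, ht])
          (hb2.mono fun w hw => by rw [← tG_pP, hw, (hst w).2])
      have e2 : (fun w => sT (b w)) =ᶠ[𝓝 0] fun _ => z :=
        pM_ld.unique (continuous_sT.continuousAt.comp hb1.self_of_nhds.continuousAt)
          continuousAt_const (by simp only [hb0, hs])
          (hb2.mono fun w hw => by rw [← sG_pP, hw, (hst w).1])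
      refine hb1.self_of_nhds.congr' ?_
      filter_upwards [hb2, e1, e2] with w h1 h2 h3
      exact pP_unique ((hc' w).trans h1.symm) ((ht w).trans h2.symm) ((hs w).trans h3.symm)
    have hmul : ∀ τ σ, c' (τ + σ) = mT (c' τ) (c' σ) := fun τ σ => by
      have h : sT (c' τ) = tT (c' σ) := (hs τ).trans (ht σ).symm
      refine pP_unique ?_ (by rw [tT_mT, ht, ht]) (by rw [sT_mT h, hs, hs])
      rw [← mG_pP h, hc', hc', hc']
      exact hm τ σ
    have hone : c' 1 = uT z :=
      pP_unique ((hc' 1).trans h1) (ht 1) ((hs 1).trans (sT_uT z).symm)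
    let g : ℝ → Qu := fun τ => (c' τ).2.1
    have hg : ∀ τ σ, g (τ + σ) = g τ * g σ := fun τ σ => by simp only [g, hmul]; rfl
    have hW : ∀ τ, (c' τ).1 = (z.1, z.1, z.2) := fun τ =>
      Prod.ext (Prod.ext_iff.1 (ht τ)).1 (Prod.ext (Prod.ext_iff.1 (hs τ)).1
        (Prod.ext_iff.1 (ht τ)).2)
    have hg0 : g 0 = 1 := by
      have h := hg 0 0
      rw [add_zero] at h
      have h2 := star_mul_of (ns_coe (c' 0).2)
      change star (g 0) * g 0 = 1 at h2
      calc g 0 = star (g 0) * (g 0 * g 0) := by rw [← mul_assoc, h2, one_mul]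
        _ = 1 := by rw [← h, h2]
    have h00 : c' 0 = uT z := GT_ext (hW 0) hg0
    have hd : DifferentiableAt ℝ (fun τ => iota (c' τ)) 0 :=
      cda_diff (smAt_iff_contDiffAt.1 ((smAt_iota _).comp_eq hsm rfl))
    have hg' : HasDerivAt g (deriv g 0) 0 := hd.snd.hasDerivAt
    have hd' : HasDerivAt (fun τ => iota (c' τ)) ((0 : W), deriv g 0) 0 := by
      have : (fun τ => iota (c' τ)) = fun τ => (((z.1, z.1, z.2) : W), g τ) :=
        funext fun τ => Prod.ext (hW τ) rfl
      rw [this]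
      exact (hasDerivAt_const _ _).prodMk hg'
    have hD := D_iota_curve hsm hd'
    obtain ⟨Z, hZ⟩ := exists_tv (ns_iota (c' 0)) ((0 : W), deriv g 0)
      ((D_iota_range (c' 0) _).1 ⟨_, hD⟩)
    rw [h00] at hD hZ
    have hZ2 : deriv g 0 = hat Z := ((Prod.ext_iff.1 hZ).2).trans (mul_one _)
    have hcomm : ∀ τ, hat z.2 * g τ = g τ * hat z.2 := fun τ => by
      have h := (Prod.ext_iff.1 (hs τ)).2
      change Ad (star (g τ)) (c' τ).1.2.2 = z.2 at h
      rw [hW] at h
      have h2 := mul_star_of (ns_coe (c' τ).2)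
      change g τ * star (g τ) = 1 at h2
      conv_rhs => rw [← h, hat_Ad, star_star, ← mul_assoc, ← mul_assoc, h2, one_mul]
    have hcr : cross Z z.2 = 0 := by
      have h := (hg'.const_mul (hat z.2)).unique
        ((funext hcomm).symm ▸ hg'.mul_const (hat z.2))
      rw [hZ2] at h
      have c1 := congrArg QuaternionAlgebra.imI h
      have c2 := congrArg QuaternionAlgebra.imJ h
      have c3 := congrArg QuaternionAlgebra.imK h
      simp at c1 c2 c3
      refine ext3 ?_ ?_ ?_ <;> simp <;> linarith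
    have hn0 : n ≠ 0 := fun h => by simp [h] at hn
    obtain ⟨a, rfl⟩ := parallel_of_cross (ζ := Z) hn0 (by
      rw [hz] at hcr
      have c0 := congrFun hcr 0
      have c1 := congrFun hcr 1
      have c2 := congrFun hcr 2
      simp at c0 c1 c2
      refine ext3 ?_ ?_ ?_ <;> refine mul_left_cancel₀ hr.ne' ?_ <;>
        simp only [cross_0, cross_1, cross_2, Pi.zero_apply] <;> linarith)
    have hode : ∀ τ, HasDerivAt g (g τ * hat (a • n)) τ := fun τ => by
      have h := HasDerivAt.comp_sub_const (f := fun s => g τ * g s) τ τ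
        (by rw [sub_self]; exact hg'.const_mul (g τ))
      rw [hZ2] at h
      simpa only [← hg, add_sub_cancel] using h
    have hconst : ∀ τ, HasDerivAt (fun τ => g τ * ex n (-a * τ)) 0 τ := fun τ => by
      convert! (hode τ).mul (hasDerivAt_ex hn (-a) τ) using 1
      simp [mul_assoc]
    have h10 := is_const_of_deriv_eq_zero (fun τ => (hconst τ).differentiableAt)
      (fun τ => (hconst τ).deriv) 1 0
    have hg1 : g 1 = 1 := by simp only [g, hone]; rfl
    simp only [hg0, hg1, mul_zero, ex_zero, mul_one, one_mul] at h10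
    have hcos : Real.cos (-a) = 1 := by simpa [ex] using congrArg QuaternionAlgebra.re h10
    obtain ⟨k, hk⟩ := (Real.cos_eq_one_iff _).1 hcos
    rw [hcc] at hα
    have key := (Om_curve hsm h00 (hD.trans hZ) (hpar a) α).1
      fun w => congrArg (fun L : Cov EG => L w) hα
    refine ⟨k, ContinuousLinearMap.ext fun v => ?_⟩
    obtain ⟨v, rfl⟩ := (pM_ld.D_bij z).2 v
    rw [key, smul_apply, D_bb hr hn hz]
    simp only [map_smul, smul_apply, smul_eq_mul, zsmul_eq_mul]
    linear_combination dotL 3 n v.2 * hk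
  · rintro ⟨k, rfl⟩
    set a : ℝ := -(k * (2 * Real.pi)) with ha
    let c : ℝ → GT := fun τ => ((z.1, z.1, z.2), mkS (ex n (a * τ)) (ns_ex hn _))
    have hc : ∀ τ, SmAt ℝ EG c τ := fun τ => smAt_of_iota (smAt_iff_contDiffAt.2
      (contDiffAt_const.prodMk ((contDiff_ex n).comp (contDiff_const.mul contDiff_id)).contDiffAt))
    have hs : ∀ τ, sT (c τ) = z := fun τ => Prod.ext rfl (by
      change Ad (star (ex n (a * τ))) z.2 = z.2
      rw [hz, Ad_ex hn])
    have h0 : c 0 = uT z := GT_ext rfl (by simp [c, mkS, uT, ex_zero])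
    refine ⟨fun τ => pP (c τ), sm_of_smAt fun τ _ => (pP_ld.sm _).comp_eq (hc τ) rfl,
      fun τ => ⟨congrArg pM (hs τ), rfl⟩, fun τ σ => ?_, ?_, ?_⟩
    · refine Eq.trans ?_ (mG_pP (hs τ)).symm
      exact congrArg pP (GT_ext rfl (by simp [c, mkS, mT, mul_add, ex_add hn]))
    · refine congrArg pP (GT_ext rfl ?_)
      have := Real.sin_add_int_mul_two_pi 0 k
      rw [zero_add, Real.sin_zero] at this
      simp [c, mkS, uT, ex, ha, this]
    · have hd : HasDerivAt (fun τ => iota (c τ)) (tv 1 0 0 0 (a • n)) 0 := by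
        have h := (hasDerivAt_const (0 : ℝ) ((z.1, z.1, z.2) : W)).prodMk (hasDerivAt_ex hn a 0)
        rw [mul_zero, ex_zero] at h
        exact h
      have hD := D_iota_curve (hc 0) hd
      rw [h0] at hD
      refine ContinuousLinearMap.ext 
        ((Om_curve (hc 0) h0 hD (hpar a) (k • D E7 ℝ bb (pM z))).2 fun v => ?_)
      rw [smul_apply, D_bb hr hn hz]
      simp only [map_smul, smul_apply, smul_eq_mul, zsmul_eq_mul, ha]
      ring

theorem bb_nonneg (y : MM) : 0 ≤ bb y := by unfold bb; positivity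

theorem bb_eq_iff (x y : MM) : bb x = bb y ↔ rr x = rr y := by
  obtain ⟨x, rfl⟩ := pM_surj x
  obtain ⟨y, rfl⟩ := pM_surj y
  unfold bb
  rw [mul_right_inj' (by positivity)]
  exact Real.sqrt_inj (dot_self_nonneg _) (dot_self_nonneg _)

theorem orbit_iff (u v : Fin 1 → ℝ) :
    (Quotient.mk _ u : MulAction.orbitRel.Quotient ℤˣ (Fin 1 → ℝ)) = Quotient.mk _ v ↔
      |u 0| = |v 0| := by
  rw [Quotient.eq, MulAction.orbitRel_apply, abs_eq_abs]
  constructor
  · rintro ⟨γ, rfl⟩
    rcases Int.units_eq_one_or γ with rfl | rfl <;> simp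
  · rintro (h | h)
    · exact ⟨1, by ext i; fin_cases i; simp [h]⟩
    · exact ⟨-1, by ext i; fin_cases i; simp [h]⟩

theorem isComplete : GR.IsComplete piM := by
  let β : MM → MulAction.orbitRel.Quotient ℤˣ (Fin 1 → ℝ) := fun y => Quotient.mk _ fun _ => bb y
  have hβ : Continuous β := continuous_quotient_mk'.comp (continuous_pi fun _ =>
    continuous_const.mul (Real.continuous_sqrt.comp continuous_rr))
  let j : MulAction.orbitRel.Quotient ℤˣ (Fin 1 → ℝ) → MM :=
    Quotient.lift (fun u => pM (0, (|u 0| / (2 * Real.pi)) • e0)) fun u v h => by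
      rw [(orbit_iff u v).1 (Quotient.sound h)]
  have hj : Continuous j := Continuous.quotient_lift (pM_ld.cont.comp (by fun_prop)) _
  have hjβ : RightInverse j β := by
    rintro ⟨u⟩
    refine (orbit_iff _ u).2 ?_
    change |2 * Real.pi * Real.sqrt (dotL 3 (_ • e0) (_ • e0))| = _
    have : dotL 3 e0 e0 = 1 := by simp [dot3]
    simp only [map_smul, smul_apply, smul_eq_mul, this, mul_one]
    rw [Real.sqrt_mul_self (by positivity), mul_div_cancel₀ _ (by positivity), abs_abs]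
  refine ⟨1, ℤˣ, inferInstance, inferInstance, β, ⟨inferInstance, fun γ => ?_⟩,
    Topology.IsQuotientMap.of_inverse hj hβ hjβ, fun x y => ?_, fun x hx => ?_⟩
  · refine ⟨fun _ _ => γ, 0, fun y => ?_⟩
    ext i; fin_cases i; simp [Units.smul_def]
  · rw [orbit_iff, abs_of_nonneg (bb_nonneg x), abs_of_nonneg (bb_nonneg y), bb_eq_iff]
    exact rr_eq_iff x y
  · have hx0 : rr x ≠ 0 := fun h => not_eventually_zero x (hx.mono fun y hy => by
      by_contra h1
      unfold corank at hy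
      rw [finrank_ker_one h1, finrank_ker_zero h] at hy
      exact absurd hy (by norm_num))
    refine ⟨{y | rr y ≠ 0}, fun y _ => bb y, isOpen_ne_fun continuous_rr continuous_const, hx0,
      fun _ => sm_of_smAt fun y hy => smAt_bb hy, fun y hy => ?_⟩
    obtain ⟨z, rfl⟩ := pM_surj y
    have h0 : 0 < dotL 3 z.2 z.2 := (dot_self_nonneg _).lt_of_ne (Ne.symm hy)
    set r := Real.sqrt (dotL 3 z.2 z.2) with hr
    have hr0 : 0 < r := Real.sqrt_pos.2 h0
    have hr2 : r * r = dotL 3 z.2 z.2 := Real.mul_self_sqrt h0.le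
    have hn : dotL 3 (r⁻¹ • z.2) (r⁻¹ • z.2) = 1 := by
      simp only [map_smul, smul_apply, smul_eq_mul, ← hr2]; field_simp
    have hz : z.2 = r • r⁻¹ • z.2 := by rw [smul_smul, mul_inv_cancel₀ hr0.ne', one_smul]
    refine ⟨rfl, linearIndependent_unique_iff.2 fun h => ?_, ?_⟩
    · have h1 := D_bb hr0 hn hz (0, r⁻¹ • z.2)
      have h2 : D E7 ℝ bb (pM z) = 0 := h
      rw [h2, hn] at h1
      simp at h1
    · ext α
      rw [mem_lattice hr0 hn hz, range_const, SetLike.mem_coe, Submodule.mem_span_singleton]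

theorem isCompleteSProper : IsCompleteSProper piM :=
  ⟨EG, inferInstance, inferInstance, inferInstance, GG, inferInstance, inferInstance, GR,
    inferInstance, inferInstance, inferInstance, integrates, isProperMap_sG, isConnected_fibre,
    isComplete⟩

end Pool.Agent.Lib.MP_91447a_gt
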