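import Pool.Agent.Lib.MP_91447a_gt.Flat

open scoped Manifold ContDiff Topology
open Set Function Filter

noncomputable section

namespace Pool.Agent.Lib.MP_91447a_gt

section lie

variable {𝔨 : Type} [LieRing 𝔨] [LieAlgebra ℝ 𝔨]

theorem perfect [LieAlgebra.IsSemisimple ℝ 𝔨] {S : Submodule ℝ 𝔨} (h : ∀ a b : 𝔨, ⁅a, b⁆ ∈ S) :
    S = ⊤ := by
  have h1 : ⁅(⊤ : LieIdeal ℝ 𝔨), (⊤ : LieIdeal ℝ 𝔨)⁆ = ⊤ := by
    rw [eq_top_iff]
    conv_lhs => rw [← LieAlgebra.IsSemisimple.sSup_atoms_eq_top (R := ℝ) (L := 𝔨)]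
    refine sSup_le fun I hI => ?_
    rw [← lie_eq_self_of_isAtom_of_nonabelian I hI
      (LieAlgebra.IsSemisimple.non_abelian_of_isAtom I hI)]
    exact LieSubmodule.mono_lie le_top le_top
  have h2 := LieSubmodule.lieIdeal_oper_eq_linear_span' (R := ℝ) (L := 𝔨) (M := 𝔨)
    (I := ⊤) (N := ⊤)
  rw [h1, LieSubmodule.top_toSubmodule] at h2
  rw [eq_top_iff, h2, Submodule.span_le]
  rintro _ ⟨x, -, y, -, rfl⟩
  exact h x y

theorem three_le [LieAlgebra.IsSemisimple ℝ 𝔨] [Nontrivial 𝔨] [FiniteDimensional ℝ 𝔨] :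
    3 ≤ Module.finrank ℝ 𝔨 := by
  by_contra h
  obtain ⟨x, y, hxy⟩ : ∃ x y : 𝔨, ∀ a, ∃ s t : ℝ, a = s • x + t • y := by
    have h0 : 0 < Module.finrank ℝ 𝔨 := Module.finrank_pos
    rcases (by omega : Module.finrank ℝ 𝔨 = 1 ∨ Module.finrank ℝ 𝔨 = 2) with h1 | h1
    · let b := Module.finBasisOfFinrankEq ℝ 𝔨 h1
      refine ⟨b 0, 0, fun a => ⟨b.repr a 0, 0, ?_⟩⟩
      simpa using (b.sum_repr a).symm
    · let b := Module.finBasisOfFinrankEq ℝ 𝔨 h1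
      refine ⟨b 0, b 1, fun a => ⟨b.repr a 0, b.repr a 1, ?_⟩⟩
      have := (b.sum_repr a).symm
      rwa [Fin.sum_univ_two] at this
  have h1 : Submodule.span ℝ {⁅x, y⁆} = ⊤ := perfect fun a b => by
    obtain ⟨s, t, rfl⟩ := hxy a
    obtain ⟨s', t', rfl⟩ := hxy b
    refine Submodule.mem_span_singleton.2 ⟨s * t' - t * s', ?_⟩
    simp only [add_lie, lie_add, smul_lie, lie_smul, lie_self, smul_zero, ← lie_skew x y]
    module
  have h2 : (⊥ : Submodule ℝ 𝔨) = ⊤ := perfect fun a b => by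
    obtain ⟨s, rfl⟩ := Submodule.mem_span_singleton.1 (h1 ▸ Submodule.mem_top (x := a))
    obtain ⟨t, rfl⟩ := Submodule.mem_span_singleton.1 (h1 ▸ Submodule.mem_top (x := b))
    simp
  exact bot_ne_top h2

variable {E F V : Type} [NormedAddCommGroup E] [NormedSpace ℝ E] [NormedAddCommGroup F]
  [NormedSpace ℝ F] [NormedAddCommGroup V] [NormedSpace ℝ V]

/-- The pointwise product formula. -/
def ProdF (e : 𝔨 ≃ₗ[ℝ] V →L[ℝ] ℝ) (P : (F × V) ≃L[ℝ] E) (π : (E →L[ℝ] ℝ) →L[ℝ] E)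
    (πN : (F →L[ℝ] ℝ) →L[ℝ] F) (ξ : V) : Prop :=
  ∀ (α β : E →L[ℝ] ℝ) (a b : 𝔨), (∀ v, α (P (0, v)) = e a v) → (∀ v, β (P (0, v)) = e b v) →
    β (π α) = β (P (πN (α.comp ((P : F × V →L[ℝ] E).comp (.inl ℝ F V))), 0)) + e ⁅a, b⁆ ξ

def cvP (e : 𝔨 ≃ₗ[ℝ] V →L[ℝ] ℝ) (P : (F × V) ≃L[ℝ] E) (l : F →L[ℝ] ℝ) (a : 𝔨) : E →L[ℝ] ℝ :=
  (l.coprod (e a)).comp (P.symm : E →L[ℝ] F × V)

theorem cvP_apply (e : 𝔨 ≃ₗ[ℝ] V →L[ℝ] ℝ) (P : (F × V) ≃L[ℝ] E) (l : F →L[ℝ] ℝ) (a : 𝔨)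
    (u : F) (v : V) : cvP e P l a (P (u, v)) = l u + e a v := by simp [cvP]

theorem cvP_inl (e : 𝔨 ≃ₗ[ℝ] V →L[ℝ] ℝ) (P : (F × V) ≃L[ℝ] E) (l : F →L[ℝ] ℝ) (a : 𝔨) :
    (cvP e P l a).comp ((P : F × V →L[ℝ] E).comp (.inl ℝ F V)) = l := by
  ext u; simp [cvP_apply]

variable {e : 𝔨 ≃ₗ[ℝ] V →L[ℝ] ℝ} {P : (F × V) ≃L[ℝ] E} {π : (E →L[ℝ] ℝ) →L[ℝ] E}
  {πN : (F →L[ℝ] ℝ) →L[ℝ] F} {ξ : V}

theorem ProdF.apply (h : ProdF e P π πN ξ) (α β : E →L[ℝ] ℝ) (a : 𝔨)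
    (ha : ∀ v, α (P (0, v)) = e a v) : ∃ b, β (π α) =
      β (P (πN (α.comp ((P : F × V →L[ℝ] E).comp (.inl ℝ F V))), 0)) + e ⁅a, b⁆ ξ :=
  ⟨e.symm (β.comp ((P : F × V →L[ℝ] E).comp (.inr ℝ F V))), h α β a _ ha fun v => by simp⟩

theorem ProdF.zero [FiniteDimensional ℝ E] (h : ProdF e P π πN 0)
    (h3 : Module.finrank ℝ π.ker ≤ 3) (hk : 3 ≤ Module.finrank ℝ 𝔨) :
    Module.finrank ℝ 𝔨 = 3 ∧ ∀ l, πN l = 0 → l = 0 := by
  have h0 : ∀ l a, πN l = 0 → cvP e P l a ∈ π.ker := fun l a hl => by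
    refine SeparatingDual.eq_zero_of_forall_dual_eq_zero (R := ℝ) fun β => ?_
    obtain ⟨b, hb⟩ := h.apply (cvP e P l a) β a (fun v => by simp [cvP_apply])
    rw [cvP_inl, hl, Prod.mk_zero_zero] at hb
    simpa using hb
  let f : 𝔨 →ₗ[ℝ] π.ker :=
    { toFun := fun a => ⟨cvP e P 0 a, h0 0 a (map_zero _)⟩
      map_add' := fun a b => by ext v; simp [cvP]
      map_smul' := fun c a => by ext v; simp [cvP] }
  have hf : Injective f := (injective_iff_map_eq_zero _).2 fun a ha => by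
    refine e.map_eq_zero_iff.1 (ContinuousLinearMap.ext fun v => ?_)
    have := congrArg (fun L : π.ker => L.1 (P (0, v))) ha
    simpa [f, cvP_apply] using this
  have h1 := LinearMap.finrank_le_finrank_of_injective hf
  have : FiniteDimensional ℝ 𝔨 := Module.finite_of_finrank_pos (by omega)
  refine ⟨by omega, fun l hl => ?_⟩
  obtain ⟨a, ha⟩ := (LinearMap.injective_iff_surjective_of_finrank_eq_finrank (K := ℝ)
    (V := 𝔨) (V₂ := π.ker) (le_antisymm h1 (h3.trans hk))).1 hf ⟨_, h0 l 0 hl⟩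
  ext u
  have := congrArg (fun L : π.ker => L.1 (P (u, 0))) ha
  simpa [f, cvP_apply] using this.symm

theorem ProdF.eq_zero [LieAlgebra.IsSemisimple ℝ 𝔨] [FiniteDimensional ℝ 𝔨]
    (h : ProdF e P π πN ξ) (h3 : Module.finrank ℝ π.ker = 3) (hk : Module.finrank ℝ 𝔨 = 3)
    (hN : ∀ l, πN l = 0 → l = 0) : ξ = 0 := by
  let f : π.ker →ₗ[ℝ] 𝔨 :=
    { toFun := fun α => e.symm (α.1.comp ((P : F × V →L[ℝ] E).comp (.inr ℝ F V)))
      map_add' := fun a b => by simp [ContinuousLinearMap.add_comp]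
      map_smul' := fun c a => by simp [ContinuousLinearMap.smul_comp] }
  have hfa : ∀ α v, α.1 (P (0, v)) = e (f α) v := fun α v => by simp [f]
  have hf : Injective f := (injective_iff_map_eq_zero _).2 fun α hα => by
    have h1 : P (πN (α.1.comp ((P : F × V →L[ℝ] E).comp (.inl ℝ F V))), 0) = 0 := by
      refine SeparatingDual.eq_zero_of_forall_dual_eq_zero (R := ℝ) fun β => ?_
      obtain ⟨b, hb⟩ := h.apply α.1 β _ (hfa α)
      rw [show π α.1 = 0 from α.2, hα] at hb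
      simpa using hb.symm
    have h2 := hN _ (Prod.ext_iff.1 (P.map_eq_zero_iff.1 h1)).1
    ext w
    obtain ⟨⟨u, v⟩, rfl⟩ := P.surjective w
    have h4 : α.1 (P (u, 0)) = 0 := congrArg (fun L : F →L[ℝ] ℝ => L u) h2
    have h5 := hfa α v
    rw [hα] at h5
    have : ((u, v) : F × V) = (u, 0) + (0, v) := by simp
    rw [this, map_add, map_add, h4, h5]
    simp
  have : FiniteDimensional ℝ π.ker := FiniteDimensional.of_injective f hf
  have hs := (LinearMap.injective_iff_surjective_of_finrank_eq_finrank (K := ℝ)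
    (V := π.ker) (V₂ := 𝔨) (h3.trans hk.symm)).1 hf
  have h1 : LinearMap.ker (((ContinuousLinearMap.apply ℝ ℝ ξ).toLinearMap).comp e.toLinearMap)
      = ⊤ := perfect fun a b => by
    obtain ⟨α, rfl⟩ := hs a
    have := h α.1 (cvP e P 0 b) _ b (hfa α) (fun v => by simp [cvP_apply])
    rw [show π α.1 = 0 from α.2, cvP_apply] at this
    simpa using this.symm
  refine SeparatingDual.eq_zero_of_forall_dual_eq_zero (R := ℝ) fun β => ?_
  have : e.symm β ∈ LinearMap.ker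
    (((ContinuousLinearMap.apply ℝ ℝ ξ).toLinearMap).comp e.toLinearMap) := h1 ▸ Submodule.mem_top
  simpa using this

end lie

abbrev En := R3 →L[ℝ] R3

def trE : En →L[ℝ] ℝ :=
  LinearMap.toContinuousLinearMap ((LinearMap.trace ℝ R3).comp (ContinuousLinearMap.coeLM ℝ))

theorem trE_comm (a b : En) : trE (a * b) = trE (b * a) :=
  LinearMap.trace_mul_comm ℝ (a : R3 →ₗ[ℝ] R3) (b : R3 →ₗ[ℝ] R3)

def SS : En := -crossL e0

@[simp] theorem SS_0 (v : R3) : SS v 0 = 0 := by simp [SS]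
@[simp] theorem SS_1 (v : R3) : SS v 1 = -v 2 := by simp [SS]
@[simp] theorem SS_2 (v : R3) : SS v 2 = v 1 := by simp [SS]

def Rot (θ : ℝ) : En := 1 + Real.sin (2 * θ) • SS + (1 - Real.cos (2 * θ)) • (SS * SS)

theorem Rot_apply (θ : ℝ) (v : R3) : Rot θ v = Ad (uu θ) v := by
  have h := Real.cos_sq_add_sin_sq θ
  refine ext3 ?_ ?_ ?_ <;> simp [Rot, Ad, Real.sin_two_mul, Real.cos_two_mul]
  · linear_combination -v 0 * h
  · linear_combination v 1 * h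
  · linear_combination v 2 * h

theorem Rot_add (θ φ : ℝ) : Rot θ * Rot φ = Rot (θ + φ) :=
  ContinuousLinearMap.ext fun v => by
    rw [mul_apply_eq_comp, Rot_apply, Rot_apply, Rot_apply, uu_add, Ad_mul]

theorem Rot_zero : Rot 0 = 1 := by simp [Rot]

theorem hasDerivAt_Rot (θ : ℝ) : HasDerivAt Rot (Rot θ * ((2 : ℝ) • SS)) θ := by
  have h0 : HasDerivAt (fun τ : ℝ => 2 * τ) 2 θ := by simpa using (hasDerivAt_id θ).const_mul 2
  have h := ((h0.sin.smul_const SS).const_add 1).add ((h0.cos.const_sub 1).smul_const (SS * SS))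
  convert! h using 1
  refine ContinuousLinearMap.ext fun v => ext3 ?_ ?_ ?_ <;> simp [Rot] <;> ring

theorem Rot_comm (θ : ℝ) : Rot θ * ((2 : ℝ) • SS) = ((2 : ℝ) • SS) * Rot θ := by
  refine ContinuousLinearMap.ext fun v => ext3 ?_ ?_ ?_ <;> simp [Rot]

theorem trE_SS : trE (((2 : ℝ) • SS) * ((2 : ℝ) • SS)) ≠ 0 := by
  have : trE (((2 : ℝ) • SS) * ((2 : ℝ) • SS)) = -8 := by
    change LinearMap.trace ℝ R3 _ = _
    rw [LinearMap.trace_eq_matrix_trace ℝ (Pi.basisFun ℝ (Fin 3))]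
    simp [Matrix.trace, Fin.sum_univ_three]
    norm_num
  rw [this]; norm_num

theorem no_flat' (𝓕 : R4 → (R4 → En) → Prop) (hex : ∀ x, ∃ G, 𝓕 x G)
    (hsm : ∀ x G, 𝓕 x G → ContDiffAt ℝ ∞ G x ∧ IsUnit (G x))
    (hopen : ∀ x G, 𝓕 x G → ∀ᶠ y in 𝓝 x, 𝓕 y G)
    (huniq : ∀ x G G', 𝓕 x G → 𝓕 x G' → ∃ C, G' =ᶠ[𝓝 x] fun y => C * G y)
    (hequiv : ∀ γ x G, 𝓕 (x + ell γ) G → 𝓕 x (fun y => G (y + ell γ) * Rot (cc γ y))) : False :=
  no_flat trE trE_comm _ trE_SS (fun γ y => Rot (cc γ y)) (fun γ y => Rot (-cc γ y))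
    (fun γ x => by rw [Rot_add, add_neg_cancel, Rot_zero])
    (fun γ x => by rw [Rot_add, neg_add_cancel, Rot_zero]) (fun γ x => Rot_comm _)
    (fun γ x => by
      convert! (hasDerivAt_Rot (cc γ x)).hasFDerivAt.comp x (cc γ).hasFDerivAt using 1)
    𝓕 hex hsm hopen huniq hequiv

end Pool.Agent.Lib.MP_91447a_gt
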