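import Pool.Agent.Lib.MP_91447a_gt.LinAlg
import Pool.Agent.Lib.MP_91447a_gt.Lattice

open scoped Manifold ContDiff Topology
open Set Function Filter

noncomputable section

namespace Pool.Agent.Lib.MP_91447a_gt

/-- A product, charted on the product vector space. -/
def PP (N V : Type) := N × V

variable {F : Type} [NormedAddCommGroup F] [NormedSpace ℝ F] {N : Type} [TopologicalSpace N]
  [ChartedSpace F N] {V : Type} [NormedAddCommGroup V] [NormedSpace ℝ V]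

instance : TopologicalSpace (PP N V) := inferInstanceAs (TopologicalSpace (N × V))
instance : ChartedSpace (F × V) (PP N V) := prodChartedSpace F N V V

def mkP (y : N) (ξ : V) : PP N V := (y, ξ)

theorem smAt_sndP (a : PP N V) : SmAt (F × V) V (fun a : PP N V => a.2) a := by
  unfold SmAt
  rw [modelWithCornersSelf_prod]
  exact contMDiffAt_snd (I := 𝓘(ℝ, F)) (J := 𝓘(ℝ, V)) (M := N) (N := V)

theorem D_sndP (a : PP N V) :
    D (F × V) V (fun a : PP N V => a.2) a = ContinuousLinearMap.snd ℝ F V := by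
  unfold D
  rw [modelWithCornersSelf_prod]
  exact mfderiv_snd (I := 𝓘(ℝ, F)) (I' := 𝓘(ℝ, V)) (M := N) (M' := V)

theorem smAt_inl (y : N) (ξ : V) : SmAt F (F × V) (fun y' : N => mkP y' ξ) y := by
  unfold SmAt
  rw [modelWithCornersSelf_prod]
  exact contMDiffAt_id.prodMk contMDiffAt_const

theorem smAt_inr (y : N) (ξ : V) : SmAt V (F × V) (fun η : V => mkP y η) ξ := by
  unfold SmAt
  rw [modelWithCornersSelf_prod]
  exact contMDiffAt_const.prodMk contMDiffAt_id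

theorem D_inl (y : N) (ξ : V) :
    D F (F × V) (fun y' : N => mkP y' ξ) y = ContinuousLinearMap.inl ℝ F V := by
  unfold D
  rw [modelWithCornersSelf_prod]
  exact mfderiv_prod_left (I := 𝓘(ℝ, F)) (I' := 𝓘(ℝ, V)) (M := N) (M' := V)

theorem D_inr (y : N) (ξ : V) :
    D V (F × V) (fun η : V => mkP y η) ξ = ContinuousLinearMap.inr ℝ F V := by
  unfold D
  rw [modelWithCornersSelf_prod]
  exact mfderiv_prod_right (I := 𝓘(ℝ, F)) (I' := 𝓘(ℝ, V)) (M := N) (M' := V)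

theorem fderiv_vadd (γ : Gam) (y : R4) (ζ : R3) :
    fderiv ℝ (fun z : E7 => γ +ᵥ z) (y, 0) (0, ζ) = (0, Rot (cc γ y) ζ) := by
  have h1 := (cda_diff (contDiff_vadd_E7 γ).contDiffAt (z := (y, 0))).hasFDerivAt.comp (0 : R3)
    ((hasFDerivAt_const y (0 : R3)).prodMk (hasFDerivAt_id (0 : R3)))
  have h2 : HasFDerivAt (fun ξ : R3 => γ +ᵥ ((y, ξ) : E7))
      ((0 : R3 →L[ℝ] R4).prod (Rot (cc γ y))) 0 := by
    have : (fun ξ : R3 => γ +ᵥ ((y, ξ) : E7)) = fun ξ => (y + ell γ, Rot (cc γ y) ξ) :=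
      funext fun ξ => by rw [Rot_apply]; rfl
    rw [this]
    exact (hasFDerivAt_const _ _).prodMk (Rot (cc γ y)).hasFDerivAt
  exact congrArg (fun L : R3 →L[ℝ] E7 => L ζ) (h1.unique h2)

theorem not_isModel (πN : N → (F →L[ℝ] ℝ) →L[ℝ] F) {𝔨 : Type} [LieRing 𝔨] [LieAlgebra ℝ 𝔨]
    [LieAlgebra.IsSemisimple ℝ 𝔨] [Nontrivial 𝔨] [FiniteDimensional ℝ 𝔨] [FiniteDimensional ℝ V]
    (e₀ : 𝔨 → Cov V) (Δ : Type) [Group Δ] [MulAction Δ N] [ContinuousConstSMul Δ N]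
    [MulAction Δ V] (Φ : N × V → MM) : ¬ IsModel piM πN e₀ Δ Φ := by
  rintro ⟨⟨hlin, hbij, hρ⟩, hΦ, hs, hfib, hprod⟩
  let e : 𝔨 ≃ₗ[ℝ] V →L[ℝ] ℝ := LinearEquiv.ofBijective (hlin.mk' e₀) hbij
  obtain ⟨τ, hτ⟩ : ∃ τ : Δ → V ≃L[ℝ] V, ∀ δ ξ, δ • ξ = τ δ ξ := by
    have key : ∀ (δ : Δ) (φ : Cov V), ∃ φ' : Cov V, ∀ ξ, φ (δ • ξ) = φ' ξ := fun δ φ => by
      obtain ⟨ρ, h⟩ := hρ δ
      obtain ⟨a, rfl⟩ := hbij.2 φ
      obtain ⟨a, rfl⟩ := ρ.surjective a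
      exact ⟨e₀ a, h a⟩
    have hl : ∀ δ : Δ, IsLinearMap ℝ fun ξ : V => δ • ξ := fun δ => by
      refine ⟨fun x y => ?_, fun c x => ?_⟩ <;>
        refine (SeparatingDual.eq_iff_forall_dual_eq (R := ℝ)).2 fun φ => ?_ <;>
        obtain ⟨φ', h⟩ := key δ φ <;> simp [h]
    exact ⟨fun δ => (LinearEquiv.ofBijective ((hl δ).mk' _)
      (MulAction.bijective δ)).toContinuousLinearEquiv, fun _ _ => rfl⟩
  simp only [hτ] at hfib
  let Ψ : PP N V → MM := Φ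
  have hΨ : LocDiff (F × V) E7 Ψ := locDiff_of (by rw [modelWithCornersSelf_prod]; exact hΦ)
  have hP : ∀ y ξ, ProdF e (hΨ.De (mkP y ξ)) (piM (Φ (y, ξ))) (πN y) ξ := by
    intro y ξ α β a b ha hb
    have h1 := D_comp_eq (hΨ.sm (mkP y ξ)) (smAt_inr y ξ) rfl
    have h2 := D_comp_eq (hΨ.sm (mkP y ξ)) (smAt_inl y ξ) rfl
    rw [D_inr] at h1
    rw [D_inl] at h2
    change D V E7 (fun η => Φ (y, η)) ξ = _ at h1
    change D F E7 (fun y' => Φ (y', ξ)) y = _ at h2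
    have := hprod y ξ α β a b (by rw [pb, h1]; exact ContinuousLinearMap.ext ha)
      (by rw [pb, h1]; exact ContinuousLinearMap.ext hb)
    rw [pb, pb, h2] at this
    exact this
  have hz : ∀ y, Module.finrank ℝ 𝔨 = 3 ∧ ∀ l, πN y l = 0 → l = 0 := fun y =>
    (hP y 0).zero (by
      by_cases h : rr (Φ (y, 0)) = 0
      · exact (finrank_ker_zero h).le
      · rw [finrank_ker_one h]; norm_num) three_le
  have hk : Module.finrank ℝ 𝔨 = 3 := (hz (hs (pM 0)).choose.1).1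
  have hzero : ∀ (a : PP N V) (x : R4), Ψ a = pM (x, 0) → a.2 = 0 := fun a x h =>
    (hP a.1 a.2).eq_zero (finrank_ker_zero (by
      change rr (Ψ a) = 0
      rw [h, rr_pM]; simp)) hk (hz a.1).2
  have hV : Module.finrank ℝ V = Module.finrank ℝ R3 := by
    rw [← Subspace.dual_finrank_eq,
      (LinearMap.toContinuousLinearMap (𝕜 := ℝ) (E := V) (F' := ℝ)).finrank_eq, ← e.finrank_eq, hk]
    simp
  let κ : V ≃L[ℝ] R3 := ContinuousLinearEquiv.ofFinrankEq hV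
  have hc0 : Continuous fun y : R4 => ((y, 0) : E7) := by fun_prop
  refine no_flat' (fun x G => ∃ ψ : E7 → PP N V,
    (∀ᶠ z in 𝓝 ((x, 0) : E7), SmAt E7 (F × V) ψ z ∧ Ψ (ψ z) = pM z) ∧
      G =ᶠ[𝓝 x] fun y => (κ : V →L[ℝ] R3).comp
        ((fderiv ℝ (fun z => (ψ z).2) (y, 0)).comp (.inr ℝ R4 R3))) ?_ ?_ ?_ ?_ ?_
  · intro x
    obtain ⟨a, ha⟩ := hs (pM (x, 0))
    obtain ⟨ψ, -, h1, h2⟩ := hΨ.lift (a := pM) (z := (x, 0)) (Eventually.of_forall pM_ld.sm)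
      (x := a) ha
    exact ⟨_, ψ, h1.and h2, EventuallyEq.rfl⟩
  · rintro x G ⟨ψ, hψ, hG⟩
    have h0 := hψ.self_of_nhds
    have h1 : SmAt E7 V (fun z => (ψ z).2) (x, 0) := (smAt_sndP _).comp_eq h0.1 rfl
    have h2 := smAt_iff_contDiffAt.1 h1
    refine ⟨ContDiffAt.congr_of_eventuallyEq (contDiffAt_const.clm_comp
      (((cda_fderiv h2).comp x (contDiffAt_id.prodMk contDiffAt_const)).clm_comp
        contDiffAt_const)) hG, ?_⟩
    rw [hG.self_of_nhds, ContinuousLinearMap.isUnit_iff_bijective]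
    have hsurj : Surjective ((κ : V →L[ℝ] R3).comp
        ((fderiv ℝ (fun z => (ψ z).2) (x, 0)).comp (.inr ℝ R4 R3))) := by
      intro v
      obtain ⟨v, rfl⟩ := κ.surjective v
      have h3 := D_comp_eq (hΨ.sm _) h0.1 rfl
      rw [D_congr (hψ.mono fun z hz => hz.2)] at h3
      obtain ⟨w, hw⟩ := (pM_ld.D_bij (x, 0)).2 (D (F × V) E7 Ψ (ψ (x, 0)) (0, v))
      have h4 : D E7 (F × V) ψ (x, 0) w = (0, v) := (hΨ.D_bij _).1 (by
        rw [← hw]; exact (congrArg (fun L : E7 →L[ℝ] E7 => L w) h3).symm)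
      have h5 := D_comp_eq (smAt_sndP _) h0.1 rfl
      rw [D_sndP, D_eq_fderiv] at h5
      have h6 : (fun y : R4 => (ψ (y, 0)).2) =ᶠ[𝓝 x] fun _ => 0 :=
        (hc0.continuousAt.eventually hψ).mono fun y hy => hzero _ y hy.2
      have h7 := ((HasFDerivAt.comp (f := fun y : R4 => ((y, 0) : E7)) x (cda_diff h2).hasFDerivAt
        ((hasFDerivAt_id x).prodMk
        (hasFDerivAt_const (0 : R3) x))).congr_of_eventuallyEq h6.symm).unique
          (hasFDerivAt_const (0 : V) x)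
      have h8 : fderiv ℝ (fun z => (ψ z).2) (x, 0) (w.1, 0) = 0 :=
        congrArg (fun L : R4 →L[ℝ] V => L w.1) h7
      have h9 : fderiv ℝ (fun z => (ψ z).2) (x, 0) w = v := by
        rw [h5, ContinuousLinearMap.comp_apply, h4]; rfl
      refine ⟨w.2, congrArg κ ?_⟩
      have : w = (w.1, 0) + (0, w.2) := by simp
      rw [this, map_add, h8, zero_add] at h9
      exact h9
    exact ⟨(LinearMap.injective_iff_surjective (f := (_ : En).toLinearMap)).2 hsurj, hsurj⟩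
  · rintro x G ⟨ψ, hψ, hG⟩
    filter_upwards [hc0.continuousAt.eventually hψ.eventually_nhds, hG.eventually_nhds]
      with y h1 h2 using ⟨ψ, h1, h2⟩
  · rintro x G G' ⟨ψ, hψ, hG⟩ ⟨ψ', hψ', hG'⟩
    obtain ⟨δ, hδ⟩ := (hfib _ _).1 (hψ.self_of_nhds.2.trans hψ'.self_of_nhds.2.symm)
    have hc : Continuous fun a : PP N V => ((δ • a.1, τ δ a.2) : PP N V) :=
      (show Continuous fun a : N × V => (δ • a.1, τ δ a.2) by fun_prop)
    have h1 : ψ' =ᶠ[𝓝 (x, 0)] fun z => (δ • (ψ z).1, τ δ (ψ z).2) := by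
      refine hΨ.unique hψ'.self_of_nhds.1.continuousAt
        (hc.continuousAt.comp hψ.self_of_nhds.1.continuousAt) hδ ?_
      filter_upwards [hψ, hψ'] with z h1 h2
      exact (h2.2.trans h1.2.symm).trans ((hfib _ _).2 ⟨δ, rfl⟩)
    refine ⟨(κ : V →L[ℝ] R3).comp ((τ δ : V →L[ℝ] V).comp (κ.symm : R3 →L[ℝ] V)), ?_⟩
    filter_upwards [hG, hG', hc0.continuousAt.eventually h1.eventually_nhds] with y h2 h3 h4
    have h5 : (fun z => (ψ' z).2) =ᶠ[𝓝 (y, 0)] τ δ ∘ fun z => (ψ z).2 :=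
      h4.mono fun z hz => (Prod.ext_iff.1 hz).2
    rw [h2, h3, h5.fderiv_eq, ContinuousLinearEquiv.comp_fderiv]
    ext v
    simp
  · rintro γ x G ⟨ψ, hψ, hG⟩
    have hv : ∀ y : R4, γ +ᵥ ((y, 0) : E7) = (y + ell γ, 0) := fun y => by
      rw [vadd_E7, Ad_zero]
    have hψ' : ∀ᶠ z in 𝓝 ((x, 0) : E7), SmAt E7 (F × V) ψ (γ +ᵥ z) ∧ Ψ (ψ (γ +ᵥ z)) = pM (γ +ᵥ z) :=
      ((contDiff_vadd_E7 γ).continuous.tendsto' _ _ (hv x)).eventually hψ
    refine ⟨fun z => ψ (γ +ᵥ z), hψ'.mono fun z hz => ⟨hz.1.comp_eq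
      (smAt_iff_contDiffAt.2 (contDiff_vadd_E7 γ).contDiffAt) rfl, hz.2.trans (pM_vadd _ _)⟩, ?_⟩
    have hc1 : ContinuousAt (fun y : R4 => y + ell γ) x := by fun_prop
    filter_upwards [hc1.eventually hG, hc0.continuousAt.eventually hψ'] with y h1 h2
    have h3 := smAt_iff_contDiffAt.1 ((smAt_sndP _).comp_eq h2.1 rfl)
    rw [h1, fderiv_fun_comp (g := fun z => (ψ z).2) _ (cda_diff h3)
      (cda_diff (contDiff_vadd_E7 γ).contDiffAt), hv]
    ext v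
    simp [fderiv_vadd]

end Pool.Agent.Lib.MP_91447a_gt
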