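import Pool.Agent.Lib.MP_91447a_gt.Sympl

open scoped Manifold ContDiff Topology Quaternion
open Set Function Filter Metric

noncomputable section

namespace Pool.Agent.Lib.MP_91447a_gt

/-- The squared norm of the fibre coordinate. -/
def rr : MM → ℝ := Quotient.lift (fun z : E7 => dotL 3 z.2 z.2) (by
  rintro a b ⟨γ, rfl⟩
  change dotL 3 (Ad _ _) (Ad _ _) = _
  rw [dot_Ad, ns_uu]; simp)

theorem rr_pM (z : E7) : rr (pM z) = dotL 3 z.2 z.2 := rfl

theorem contDiff_sq : ContDiff ℝ ∞ (fun z : E7 => dotL 3 z.2 z.2) :=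
  ((dotL 3).contDiff.comp contDiff_snd).clm_apply contDiff_snd

theorem smAt_rr (y : MM) : SmAt E7 ℝ rr y := by
  obtain ⟨z, rfl⟩ := pM_surj y
  exact pM_ld.smAt_of_comp (smAt_iff_contDiffAt.2 contDiff_sq.contDiffAt)

theorem continuous_rr : Continuous rr :=
  continuous_iff_continuousAt.2 fun y => (smAt_rr y).continuousAt

theorem dot_self_nonneg (ξ : R3) : 0 ≤ dotL 3 ξ ξ := by
  rw [dot3]; nlinarith [mul_self_nonneg (ξ 0), mul_self_nonneg (ξ 1), mul_self_nonneg (ξ 2)]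

theorem dot_self_eq_zero {ξ : R3} (h : dotL 3 ξ ξ = 0) : ξ = 0 := by
  rw [dot3] at h
  have h0 := mul_self_nonneg (ξ 0)
  have h1 := mul_self_nonneg (ξ 1)
  have h2 := mul_self_nonneg (ξ 2)
  refine ext3 ?_ ?_ ?_ <;> exact mul_self_eq_zero.1 (by linarith)

theorem exists_box (y : MM) : ∃ z : E7, pM z = y ∧ z.1 ∈ Icc (0 : R4) (fun _ => sg) := by
  obtain ⟨z, rfl⟩ := pM_surj y
  let γ : Gam := fun i => -⌊z.1 i / sg⌋
  refine ⟨γ +ᵥ z, pM_vadd _ _, fun i => ?_, fun i => ?_⟩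
  · have h := Int.floor_le (z.1 i / sg)
    rw [le_div_iff₀ sg_pos] at h
    simp only [vadd_E7, ell, γ, Pi.add_apply, Pi.zero_apply, Int.cast_neg]
    linarith
  · have h := Int.lt_floor_add_one (z.1 i / sg)
    rw [div_lt_iff₀ sg_pos] at h
    simp only [vadd_E7, ell, γ, Pi.add_apply, Int.cast_neg]
    linarith

theorem continuous_sG : Continuous sG :=
  continuous_iff_continuousAt.2 fun a => (smAt_sG a).continuousAt

theorem dot_sT (a : GT) : dotL 3 (sT a).2 (sT a).2 = dotL 3 (tT a).2 (tT a).2 := by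
  change dotL 3 (Ad _ _) (Ad _ _) = _
  rw [dot_Ad, ns_star, ns_coe]; simp [tT]

theorem isProperMap_sG : IsProperMap sG := by
  refine isProperMap_iff_isCompact_preimage.2 ⟨continuous_sG, fun K hK => ?_⟩
  obtain ⟨C, hC⟩ := (hK.image continuous_rr).isBounded.bddAbove
  have h1 : IsCompact (((Icc (0 : R4) (fun _ => sg)) ×ˢ (Icc (0 : R4) (fun _ => sg)) ×ˢ
      (Icc (fun _ => -(C + 1) : R3) (fun _ => C + 1))) ×ˢ (univ : Set S3) : Set (W × S3)) :=
    (isCompact_Icc.prod (isCompact_Icc.prod isCompact_Icc)).prod isCompact_univ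
  refine (IsCompact.image (f := pP) h1 pP_ld.cont).of_isClosed_subset
    (hK.isClosed.preimage continuous_sG) fun a ha => ?_
  obtain ⟨z, hz, hz'⟩ := exists_box (tG a)
  obtain ⟨w, hw, hw'⟩ := exists_box (sG a)
  obtain ⟨b, rfl, rfl, rfl⟩ := lift_st a hz hw
  have h2 : dotL 3 (tT b).2 (tT b).2 ≤ C := by
    rw [← dot_sT]; exact hC ⟨_, ha, rfl⟩
  have h3 : ∀ i, (tT b).2 i * (tT b).2 i ≤ C := by
    rw [dot3] at h2
    have h0 := mul_self_nonneg ((tT b).2 0)
    have h1 := mul_self_nonneg ((tT b).2 1)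
    have h2 := mul_self_nonneg ((tT b).2 2)
    intro i; fin_cases i <;> simp <;> linarith
  refine ⟨b, ⟨⟨hz', hw', fun i => ?_, fun i => ?_⟩, trivial⟩, rfl⟩
  · have := h3 i
    change -(C + 1) ≤ (tT b).2 i
    nlinarith
  · have := h3 i
    change (tT b).2 i ≤ C + 1
    nlinarith

instance : ConnectedSpace S3 := by
  refine isConnected_iff_connectedSpace.1 (isConnected_sphere ?_ 0 zero_le_one)
  rw [← Module.finrank_eq_rank, Quaternion.finrank_eq_four]
  norm_num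

theorem isConnected_fibre (y : MM) : IsConnected (sG ⁻¹' {y}) := by
  obtain ⟨z, rfl⟩ := pM_surj y
  let f : R4 × S3 → GT := fun p => ((p.1, z.1, Ad p.2.1 z.2), p.2)
  have hf : Continuous f := by
    have h1 : Continuous fun g : Qu => Ad g z.2 := continuous_iff_continuousAt.2 fun g =>
      (contDiffAt_Ad contDiffAt_id contDiffAt_const).continuousAt
    exact (show Continuous fun p : R4 × S3 => (((p.1, z.1, Ad p.2.1 z.2), p.2) : W × S3) by
      fun_prop)
  have : sG ⁻¹' {pM z} = range fun p => pP (f p) := by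
    ext a
    constructor
    · intro ha
      obtain ⟨b, rfl, rfl⟩ := lift_s a (z := z) (Eq.symm ha)
      refine ⟨(b.1.1, b.2), congrArg pP (GT_ext ?_ rfl)⟩
      simp [f, sT, Ad_Ad_star (ns_coe b.2)]
    · rintro ⟨p, rfl⟩
      change pM (z.1, Ad (star p.2.1) (Ad p.2.1 z.2)) = pM z
      rw [Ad_star_Ad (ns_coe _)]
  rw [this]
  exact isConnected_range (pP_ld.cont.comp hf)

theorem Ad_hat (v ξ : R3) : Ad (hat v) ξ = (2 * dotL 3 v ξ) • v - dotL 3 v v • ξ := by
  refine ext3 ?_ ?_ ?_ <;> simp [Ad, dot3] <;> ring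

theorem exists_Ad {ξ η : R3} (h : dotL 3 ξ ξ = dotL 3 η η) : ∃ g : Qu, ns g = 1 ∧ Ad g ξ = η := by
  have key : ∀ w : R3, w ≠ 0 → (2 * dotL 3 w ξ) • w = dotL 3 w w • (ξ + η) →
      ∃ g : Qu, ns g = 1 ∧ Ad g ξ = η := by
    intro w hw h1
    have h0 : 0 < dotL 3 w w :=
      (dot_self_nonneg w).lt_of_ne fun h => hw (dot_self_eq_zero h.symm)
    set r := Real.sqrt (dotL 3 w w) with hr
    have hr0 : r ≠ 0 := (Real.sqrt_pos.2 h0).ne'
    have hr2 : r * r = dotL 3 w w := Real.mul_self_sqrt h0.le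
    have h2 : dotL 3 (r⁻¹ • w) (r⁻¹ • w) = 1 := by
      simp only [map_smul, smul_apply, smul_eq_mul, ← hr2]; field_simp
    refine ⟨hat (r⁻¹ • w), ?_, ?_⟩
    · rw [← h2]; simp [ns, dot3]; ring
    · rw [Ad_hat, h2, one_smul, sub_eq_iff_eq_add', smul_smul]
      have h3 : 2 * dotL 3 (r⁻¹ • w) ξ * r⁻¹ = (r * r)⁻¹ * (2 * dotL 3 w ξ) := by
        simp only [map_smul, smul_apply, smul_eq_mul]; field_simp
      rw [h3, mul_smul, h1, smul_smul, hr2, inv_mul_cancel₀ h0.ne', one_smul]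
  by_cases h1 : ξ + η = 0
  · by_cases h2 : cross ξ e0 = 0
    · refine key ![0, 1, 0] (fun h => by simpa using congrFun h 1) ?_
      have := congrFun h2 2
      simp at this
      rw [h1]; simp [dot3, this]
    · refine key _ h2 ?_
      have : dotL 3 (cross ξ e0) ξ = 0 := by simp [dot3]; ring
      rw [h1, this]; simp
  · refine key _ h1 ?_
    congr 1
    simp only [dot3, Pi.add_apply] at h ⊢
    linear_combination h

theorem rr_eq_iff (x y : MM) : rr x = rr y ↔ ∃ a, tG a = x ∧ sG a = y := by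
  constructor
  · intro h
    obtain ⟨x, rfl⟩ := pM_surj x
    obtain ⟨y, rfl⟩ := pM_surj y
    obtain ⟨g, hg, h1⟩ := exists_Ad (show dotL 3 y.2 y.2 = dotL 3 x.2 x.2 from h.symm)
    refine ⟨pP ((x.1, y.1, x.2), mkS g hg), rfl, ?_⟩
    change pM (y.1, Ad (star g) x.2) = pM y
    rw [← h1, Ad_star_Ad hg]
  · rintro ⟨a, rfl, rfl⟩
    obtain ⟨a, rfl⟩ := pP_surj a
    exact (dot_sT a).symm

/-- Covectors vertical for the projection to `ℝ⁴`. -/
def cvL : R3 →ₗ[ℝ] (E7 →L[ℝ] ℝ) where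
  toFun ζ := covI 0 ζ
  map_add' a b := ContinuousLinearMap.ext fun v => by simp [covI_apply]
  map_smul' c a := ContinuousLinearMap.ext fun v => by simp [covI_apply]

theorem cvL_inj : Injective cvL := fun a b h => by
  have := congrArg cov h
  simp only [cvL, LinearMap.coe_mk, AddHom.coe_mk, cov_covI] at this
  exact (Prod.ext_iff.1 this).2

theorem ker_piT (z : E7) : (piT z).ker = Submodule.map cvL (crossL z.2).ker := by
  ext α
  simp only [LinearMap.mem_ker, Submodule.mem_map, ContinuousLinearMap.coe_coe, crossL_apply]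
  constructor
  · intro h
    rw [piT_apply] at h
    obtain ⟨h1, h2⟩ := Prod.ext_iff.1 h
    simp only [Kxi, Prod.fst_zero, Prod.snd_zero] at h1 h2
    rw [h1] at h2
    have h3 : cross z.2 (cov α).2 = 0 := by simpa using h2
    have h4 : (cov α).1 = 0 := by
      have ht : (2 * (1 + z.2 0 ^ 2))⁻¹ ≠ 0 := by positivity
      have ht' : (1 + z.2 0 ^ 2) ≠ 0 := by positivity
      simp only [Kx, h3, Pi.zero_apply, mul_zero, zero_smul, add_zero, smul_eq_zero,
        neg_eq_zero, ht, false_or] at h1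
      have c0 := congrFun h1 0
      have c1 := congrFun h1 1
      have c2 := congrFun h1 2
      have c3 := congrFun h1 3
      simp at c0 c1 c2 c3
      refine ext4 ?_ ?_ ?_ ?_ <;> refine mul_left_cancel₀ ht' ?_ <;> simp only [Pi.zero_apply]
      · linear_combination c1 - z.2 0 * c2
      · linear_combination -c0 + z.2 0 * c3
      · linear_combination c3 + z.2 0 * c0
      · linear_combination -c2 - z.2 0 * c1
    refine ⟨(cov α).2, ?_, ?_⟩
    · have c0 := congrFun h3 0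
      have c1 := congrFun h3 1
      have c2 := congrFun h3 2
      simp at c0 c1 c2
      refine ext3 ?_ ?_ ?_ <;> simp <;> linarith
    · rw [← covI_cov α, cov_covI, h4]; rfl
  · rintro ⟨ζ, h, rfl⟩
    have h3 : cross z.2 ζ = 0 := by
      have c0 := congrFun h 0
      have c1 := congrFun h 1
      have c2 := congrFun h 2
      simp at c0 c1 c2
      refine ext3 ?_ ?_ ?_ <;> simp <;> linarith
    change piT z (covI 0 ζ) = 0
    rw [piT_apply, cov_covI]
    simp only [Kx, Kxi, h3, Pi.zero_apply]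
    simp

theorem finrank_ker_piM (z : E7) :
    Module.finrank ℝ (piM (pM z)).ker = Module.finrank ℝ (crossL z.2).ker := by
  let e : (E7 →L[ℝ] ℝ) ≃ₗ[ℝ] (E7 →L[ℝ] ℝ) :=
    ((pM_ld.De z).symm.arrowCongr (ContinuousLinearEquiv.refl ℝ ℝ)).toLinearEquiv
  have he : ∀ α, e α = α.comp (D E7 E7 pM z) := fun α => rfl
  have h1 : (piM (pM z)).ker = Submodule.comap e.toLinearMap (piT z).ker := by
    ext α
    simp only [LinearMap.mem_ker, Submodule.mem_comap, ContinuousLinearMap.coe_coe,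
      LinearEquiv.coe_coe, he, piM_pM]
    exact map_eq_zero_iff _ (pM_ld.D_bij z).1
  rw [h1, Submodule.comap_equiv_eq_map_symm, LinearEquiv.finrank_map_eq, ker_piT]
  exact (Submodule.equivMapOfInjective cvL cvL_inj _).finrank_eq.symm

theorem finrank_ker_zero {y : MM} (h : rr y = 0) : Module.finrank ℝ (piM y).ker = 3 := by
  obtain ⟨z, rfl⟩ := pM_surj y
  rw [finrank_ker_piM, dot_self_eq_zero h]
  have : (crossL 0).ker = ⊤ := by
    ext ζ
    simp only [LinearMap.mem_ker, ContinuousLinearMap.coe_coe, crossL_apply, Submodule.mem_top,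
      iff_true]
    refine ext3 ?_ ?_ ?_ <;> simp
  rw [this]; simp

theorem parallel_of_cross {ξ ζ : R3} (hξ : ξ ≠ 0) (h : cross ζ ξ = 0) : ∃ c : ℝ, c • ξ = ζ := by
  have h0 : dotL 3 ξ ξ ≠ 0 := fun h => hξ (dot_self_eq_zero h)
  have c0 := congrFun h 0
  have c1 := congrFun h 1
  have c2 := congrFun h 2
  simp at c0 c1 c2
  refine ⟨dotL 3 ξ ζ / dotL 3 ξ ξ, ext3 ?_ ?_ ?_⟩ <;> simp only [Pi.smul_apply, smul_eq_mul] <;>
    field_simp <;> simp only [dot3]
  · linear_combination ξ 2 * c1 - ξ 1 * c2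
  · linear_combination ξ 0 * c2 - ξ 2 * c0
  · linear_combination ξ 1 * c0 - ξ 0 * c1

theorem finrank_ker_one {y : MM} (h : rr y ≠ 0) : Module.finrank ℝ (piM y).ker = 1 := by
  obtain ⟨z, rfl⟩ := pM_surj y
  have hξ : z.2 ≠ 0 := fun h0 => h (by rw [rr_pM, h0]; simp)
  rw [finrank_ker_piM]
  have : (crossL z.2).ker = Submodule.span ℝ {z.2} := by
    ext ζ
    simp only [LinearMap.mem_ker, ContinuousLinearMap.coe_coe, crossL_apply,
      Submodule.mem_span_singleton]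
    refine ⟨parallel_of_cross hξ, ?_⟩
    rintro ⟨c, rfl⟩
    refine ext3 ?_ ?_ ?_ <;> simp <;> ring
  rw [this, finrank_span_singleton hξ]

theorem not_eventually_zero (y : MM) : ¬ ∀ᶠ w in 𝓝 y, rr w = 0 := by
  obtain ⟨z, rfl⟩ := pM_surj y
  intro h
  have hc : ContinuousAt (fun t : ℝ => pM (z.1, z.2 + t • e0)) 0 :=
    (pM_ld.cont.comp (by fun_prop)).continuousAt
  have h1 := hc.eventually (by simpa using h)
  have h2 : ∀ᶠ t : ℝ in 𝓝 0, t = -z.2 0 := by
    filter_upwards [h1] with t ht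
    have := congrFun (dot_self_eq_zero (ξ := z.2 + t • e0) ht) 0
    simp at this
    linarith
  have h3 := h2.self_of_nhds
  rw [← h3] at h2
  have h4 : ∀ᶠ t : ℝ in 𝓝[≠] 0, t = 0 := h2.filter_mono nhdsWithin_le_nhds
  obtain ⟨t, ht, ht'⟩ := (h4.and self_mem_nhdsWithin).exists
  exact ht' ht

theorem nonAbelianAt {y : MM} (h : rr y = 0) : NonAbelianAt piM y := by
  obtain ⟨z, rfl⟩ := pM_surj y
  have hz : z.2 = 0 := dot_self_eq_zero h
  obtain ⟨σ, hσ⟩ := pM_ld.sec z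
  obtain ⟨U, hU, hUo, hzU⟩ := eventually_nhds_iff.1 hσ.sm
  have hsm : ∀ ζ : R3, Sm E7 ℝ (fun w => covI 0 ζ (σ w)) U := fun ζ =>
    sm_of_smAt fun w hw => (smAt_clm _ _).comp_eq (hU w hw) rfl
  have hD : ∀ ζ : R3, ∀ᶠ w in 𝓝 z,
      (D E7 ℝ (fun w => covI 0 ζ (σ w)) (pM w)).comp (D E7 E7 pM w) = covI 0 ζ := by
    intro ζ
    filter_upwards [hσ.left.eventually_nhds,
      pM_ld.cont.continuousAt.eventually (hUo.mem_nhds hzU)] with w h1 h2
    rw [← D_comp_eq ((hsm ζ).smAt hUo h2) (pM_ld.sm w) rfl]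
    exact (D_congr (h1.mono fun w hw => by simp only [hw])).trans (D_clm (covI 0 ζ) w)
  have hk : ∀ ζ : R3, piM (pM z) (D E7 ℝ (fun w => covI 0 ζ (σ w)) (pM z)) = 0 := by
    intro ζ
    rw [piM_pM, (hD ζ).self_of_nhds, map_eq_zero_iff _ (pM_ld.D_bij z).1]
    have : covI 0 ζ ∈ (piT z).ker := by
      rw [ker_piT]
      refine ⟨ζ, ?_, rfl⟩
      rw [hz]
      refine ext3 ?_ ?_ ?_ <;> simp
    exact this
  refine ⟨U, _, _, hUo, hzU, hsm ![0, 1, 0], hsm ![0, 0, 1], hk _, hk _, ?_⟩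
  have h1 := (isPoisson_piM.smooth U _ _ hUo (hsm ![0, 1, 0]) (hsm ![0, 0, 1])).smAt hUo hzU
  have h2 := D_comp_eq h1 (pM_ld.sm z) rfl
  have h3 : (fun w => br piM (fun w => covI 0 ![0, 1, 0] (σ w))
      (fun w => covI 0 ![0, 0, 1] (σ w)) (pM w)) =ᶠ[𝓝 z] covI 0 ![2, 0, 0] := by
    filter_upwards [hD ![0, 1, 0], hD ![0, 0, 1]] with w h1 h2
    unfold br ev sh
    rw [piM_pM, h1, ← ContinuousLinearMap.comp_apply, h2, piT_eq_Bf, cov_covI, cov_covI]
    simp only [Bf, ah, dot4, dot3, covI_apply, zero_add, Pi.smul_apply, smul_eq_mul, Iop_0, Iop_1,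
      Iop_2, Iop_3, Jop_0, Jop_1, Jop_2, Jop_3]
    simp
    right; ring
  rw [D_congr h3, D_clm] at h2
  refine ⟨D E7 E7 pM z (0, e0), fun h0 => ?_⟩
  have := (congrArg (fun L : E7 →L[ℝ] ℝ => L (0, e0)) h2).trans h0
  simp [covI_apply, dot3] at this

end Pool.Agent.Lib.MP_91447a_gt
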