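import Pool.Agent.Lib.MP_91447a_gt.Act

open scoped Manifold ContDiff Topology Quaternion
open Set Function Filter Metric

noncomputable section

namespace Pool.Agent.Lib.MP_91447a_gt

theorem hasFDerivAt_uc (γ : Gam) (x : R4) :
    HasFDerivAt (fun x : R4 => uu (cc γ x)) ((cc γ).smulRight (hat e0 * uu (cc γ x))) x := by
  have h := (hasDerivAt_uu (cc γ x)).hasFDerivAt.comp x (cc γ).hasFDerivAt
  convert! h using 1

theorem fderiv_TV (δ : Gam × Gam) (q u : VV) :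
    (fderiv ℝ (TV δ) q u).1.1 = u.1.1 ∧ (fderiv ℝ (TV δ) q u).1.2.1 = u.1.2.1 ∧
    (fderiv ℝ (TV δ) q u).2 =
      cc δ.1 u.1.1 • (hat e0 * uu (cc δ.1 q.1.1) * q.2 * star (uu (cc δ.2 q.1.2.1))) +
      uu (cc δ.1 q.1.1) * u.2 * star (uu (cc δ.2 q.1.2.1)) +
      cc δ.2 u.1.2.1 • (uu (cc δ.1 q.1.1) * q.2 * star (hat e0 * uu (cc δ.2 q.1.2.1))) := by
  have hd := (cda_diff (contDiff_TV δ).contDiffAt (z := q)).hasFDerivAt
  have h1 := (pX.hasFDerivAt.comp q hd).unique (pX.hasFDerivAt.add_const (ell δ.1))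
  have h2 := (pY.hasFDerivAt.comp q hd).unique (pY.hasFDerivAt.add_const (ell δ.2))
  have h3 := (pG.hasFDerivAt.comp q hd).unique
    ((((hasFDerivAt_uc δ.1 _).comp q pX.hasFDerivAt).mul' pG.hasFDerivAt).mul'
      (cj.hasFDerivAt.comp q ((hasFDerivAt_uc δ.2 _).comp q pY.hasFDerivAt)))
  refine ⟨congrArg (fun L : VV →L[ℝ] R4 => L u) h1, congrArg (fun L : VV →L[ℝ] R4 => L u) h2,
    (congrArg (fun L : VV →L[ℝ] Qu => L u) h3).trans ?_⟩
  simp [add_mul]
  abel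

theorem inner_mul_left (u a b : Qu) : inner ℝ (u * a) (u * b) = ns u * inner ℝ a b := by
  simp [inner_qu, ns]; ring

theorem inner_mul_right (u a b : Qu) : inner ℝ (a * u) (b * u) = ns u * inner ℝ a b := by
  simp [inner_qu, ns]; ring

theorem inner_mul_star (g a b : Qu) : inner ℝ a (g * b) = inner ℝ (star g * a) b := by
  simp [inner_qu]; ring

theorem Ad_uu_zero (θ : ℝ) (ξ : R3) : Ad (uu θ) ξ 0 = ξ 0 := by
  simp [Ad]
  linear_combination (ξ 0) * Real.cos_sq_add_sin_sq θ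

theorem Ad_star_uu_e0 (θ : ℝ) : Ad (star (uu θ)) e0 = e0 := by
  refine ext3 ?_ ?_ ?_ <;> simp [Ad]
  linear_combination Real.cos_sq_add_sin_sq θ

def LL (δ : Gam × Gam) : VV →L[ℝ] ℝ :=
  (dotL 4 (Iop (ell δ.1))).comp pX - (dotL 4 (Iop (ell δ.2))).comp pY

theorem Lam_TV (δ : Gam × Gam) {q : VV} (hq : ns q.2 = 1) (u : VV) :
    Lam (TV δ q) (fderiv ℝ (TV δ) q u) = Lam q u + LL δ u := by
  obtain ⟨h1, h2, h3⟩ := fderiv_TV δ q u
  rw [Lam_apply, Lam_apply, h1, h2, h3]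
  obtain ⟨⟨x, y, ξ⟩, g⟩ := q
  obtain ⟨⟨X, Y, Ξ⟩, G⟩ := u
  simp only [TV] at hq ⊢
  set u1 := uu (cc δ.1 x) with hu1
  set u2 := uu (cc δ.2 y) with hu2
  have n1 : ns u1 = 1 := ns_uu _
  have n2 : ns (star u2) = 1 := by rw [ns_star]; exact ns_uu _
  have e1 : dotL 3 (Ad u1 ξ) (nv (u1 * g * star u2)) = dotL 3 ξ (nv g) := by
    rw [nv, Ad_mul, Ad_mul, hu2, Ad_star_uu_e0, dot_Ad, n1, nv]; simp
  have e2 : hat (Ad u1 ξ) * (u1 * g * star u2) = u1 * (hat ξ * g * star u2) := by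
    rw [hat_Ad]
    simp only [mul_assoc]
    rw [← mul_assoc (star u1), star_mul_of n1, one_mul]
  have e3 : hat e0 * u1 * g * star u2 = u1 * (hat e0 * g * star u2) := by
    have : hat e0 * u1 = u1 * hat e0 := by rw [hu1]; ext <;> simp
    rw [this]; simp only [mul_assoc]
  have e4 : u1 * g * star (hat e0 * u2) = u1 * (-(g * hat e0) * star u2) := by
    have : star (hat e0 * u2) = -(hat e0 * star u2) := by rw [hu2]; ext <;> simp
    rw [this]; simp only [mul_assoc, neg_mul, mul_neg]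
  have e5 : inner ℝ (hat ξ * g) (hat e0 * g) = ξ 0 := by
    rw [inner_mul_right, hq]; simp [inner_qu]
  have e6 : inner ℝ (hat ξ * g) (g * hat e0) = dotL 3 ξ (nv g) := by
    simp [inner_qu, dot3, nv, Ad]; ring
  rw [e1, e2, e3, e4, hu1, Ad_uu_zero, ← hu1, mul_assoc u1 G, inner_add_right, inner_add_right,
    inner_smul_right, inner_smul_right, inner_mul_left, inner_mul_left, inner_mul_left,
    inner_mul_right _ (hat ξ * g) (hat e0 * g), inner_mul_right _ (hat ξ * g) G,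
    inner_mul_right _ (hat ξ * g), inner_neg_right, n1, n2, e5, e6]
  simp [LL, cc, dot4]
  ring

theorem OmT_vadd (δ : Gam × Gam) (a : GT) (u v : EG) :
    OmT (δ +ᵥ a) (D EG EG (fun a : GT => δ +ᵥ a) a u) (D EG EG (fun a : GT => δ +ᵥ a) a v) =
      OmT a u v := by
  obtain ⟨φ, z, hz, hφ, hD⟩ : ∃ (φ : EG → GT) (z : EG), φ z = a ∧
      (∀ᶠ w in 𝓝 z, SmAt EG EG φ w) ∧ Surjective (D EG EG φ z) := by
    have h0 : ∀ w ∈ (chartAt EG a).target, SmAt EG EG (chartAt EG a).symm w := fun w hw =>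
      (contMDiffOn_chart_symm (n := ∞)).contMDiffAt ((chartAt EG a).open_target.mem_nhds hw)
    have h1 : SmAt EG EG (chartAt EG a) a :=
      (contMDiffOn_chart (n := ∞)).contMDiffAt (chart_source_mem_nhds EG a)
    refine ⟨(chartAt EG a).symm, chartAt EG a a, (chartAt EG a).left_inv (mem_chart_source EG a),
      ?_, ?_⟩
    · filter_upwards [chart_target_mem_nhds EG a] with w hw using h0 w hw
    · have h2 := D_comp_eq (h0 _ (mem_chart_target EG a)) h1 rfl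
      have h3 : D EG EG (fun y => (chartAt EG a).symm (chartAt EG a y)) a =
          D EG EG (fun y : GT => y) a := D_congr (by
        filter_upwards [chart_source_mem_nhds EG a] with w hw using (chartAt EG a).left_inv hw)
      rw [h3, D_id] at h2
      intro w
      exact ⟨_, (congrArg (fun L : EG →L[ℝ] EG => L w) h2).symm⟩
  subst hz
  obtain ⟨u, rfl⟩ := hD u
  obtain ⟨v, rfl⟩ := hD v
  have hA : ∀ᶠ w in 𝓝 z, ContDiffAt ℝ ∞ (fun w => iota (φ w)) w := by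
    filter_upwards [hφ] with w hw using smAt_iff_contDiffAt.1 ((smAt_iota _).comp_eq hw rfl)
  have h0 := hφ.self_of_nhds
  have hC : ContDiffAt ℝ ∞ (fun w => TV δ (iota (φ w))) z :=
    (contDiff_TV δ).contDiffAt.comp z hA.self_of_nhds
  have key := dForm_eq_of contDiff_Lam hA.self_of_nhds hC (LL δ) (fun v => by
    filter_upwards [hA] with w hw
    unfold pull1
    rw [fderiv_fun_comp w (cda_diff (contDiff_TV δ).contDiffAt) (cda_diff hw)]
    exact Lam_TV δ (ns_iota _) _) u v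
  have e1 : fderiv ℝ (fun w => iota (φ w)) z = (D EG VV iota (φ z)).comp (D EG EG φ z) := by
    rw [← D_eq_fderiv]; exact D_comp_eq (smAt_iota _) h0 rfl
  have e2 : fderiv ℝ (fun w => TV δ (iota (φ w))) z = (D EG VV iota (δ +ᵥ φ z)).comp
      ((D EG EG (fun a : GT => δ +ᵥ a) (φ z)).comp (D EG EG φ z)) := by
    rw [← D_eq_fderiv, ← D_comp_eq (smAt_vadd_GT δ _) h0 rfl]
    exact D_comp_eq (smAt_iota _) ((smAt_vadd_GT δ _).comp_eq h0 rfl) rfl
  rw [e1, e2] at key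
  exact key

theorem exOm : ∃ S : GG → EG →L[ℝ] EG →L[ℝ] ℝ, ∀ x u v,
    S (pP x) (D EG EG pP x u) (D EG EG pP x v) = OmT x u v := by
  refine pP_ld.exists_desc2 pP_surj OmT fun x x' u u' v v' h hu hv => ?_
  obtain ⟨δ, rfl⟩ := pP_eq.1 h
  have h1 := D_comp_eq (pP_ld.sm (δ +ᵥ x')) (smAt_vadd_GT δ x') rfl
  have h2 : (fun y : GT => pP (δ +ᵥ y)) = pP := funext (pP_vadd δ)
  rw [h2] at h1
  rw [h1] at hu hv
  rw [(pP_ld.D_bij _).1 hu, (pP_ld.D_bij _).1 hv]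
  exact OmT_vadd δ x' u' v'

/-- The symplectic form. -/
def Om : GG → EG →L[ℝ] EG →L[ℝ] ℝ := exOm.choose

theorem Om_pP (x : GT) (u v : EG) :
    Om (pP x) (D EG EG pP x u) (D EG EG pP x v) = OmT x u v := exOm.choose_spec x u v

theorem Om_solve {a : GT} {v : EG} {α : E7 →L[ℝ] ℝ}
    (h : ∀ w, Om (pP a) v w = α (D EG E7 tG (pP a) w)) :
    D EG E7 tG (pP a) v = D E7 E7 pM (tT a) (piT (tT a) (α.comp (D E7 E7 pM (tT a)))) ∧
      (α = 0 → v = 0) := by
  obtain ⟨v, rfl⟩ := (pP_ld.D_bij a).2 v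
  have key := OmT_solve (a := a) (v := v) (α := α.comp (D E7 E7 pM (tT a))) (fun w => by
    rw [← Om_pP, h, D_tG]; rfl)
  refine ⟨by rw [D_tG, key.1], fun hα => ?_⟩
  rw [key.2 (by rw [hα]; rfl), map_zero]

theorem Om_nondeg (a : GG) (u : EG) (h : ∀ v, Om a u v = 0) : u = 0 := by
  obtain ⟨a, rfl⟩ := pP_surj a
  exact (Om_solve (α := 0) h).2 rfl

theorem Om_surj (a : GG) : Surjective (Om a) := by
  have h1 : Module.finrank ℝ EG = Module.finrank ℝ (EG →L[ℝ] ℝ) := by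
    rw [← (LinearMap.toContinuousLinearMap (𝕜 := ℝ) (E := EG) (F' := ℝ)).finrank_eq]
    exact Subspace.dual_finrank_eq.symm
  refine (LinearMap.injective_iff_surjective_of_finrank_eq_finrank h1
    (f := (Om a).toLinearMap)).1 ((injective_iff_map_eq_zero _).2 fun u hu => ?_)
  exact Om_nondeg a u fun v => congrArg (fun L : EG →L[ℝ] ℝ => L v) hu

theorem exPi : ∃ S : MM → (E7 →L[ℝ] ℝ) →L[ℝ] E7, ∀ x (α : E7 →L[ℝ] ℝ),
    S (pM x) α = D E7 E7 pM x (piT x (α.comp (D E7 E7 pM x))) := by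
  refine pM_ld.exists_descB pM_surj piT fun x x' α h => ?_
  obtain ⟨v, hv⟩ := Om_surj (uG (pM x)) (α.comp (D EG E7 tG (uG (pM x))))
  have h1 : ∀ w, Om (uG (pM x)) v w = α (D EG E7 tG (uG (pM x)) w) := fun w => by rw [hv]; rfl
  have h2 := (Om_solve (a := uT x) h1).1
  rw [h] at h1
  have h3 := (Om_solve (a := uT x') h1).1
  rw [← uG_pM, tT_uT] at h2 h3
  rw [← h2, ← h3, h]

/-- The Poisson structure. -/
def piM : MM → (E7 →L[ℝ] ℝ) →L[ℝ] E7 := exPi.choose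

theorem piM_pM (x : E7) (α : E7 →L[ℝ] ℝ) :
    piM (pM x) α = D E7 E7 pM x (piT x (α.comp (D E7 E7 pM x))) := exPi.choose_spec x α

theorem isPoisson_piM : IsPoisson piM :=
  isPoisson_of_desc pM_ld pM_surj contDiff_piT piT_skew piT_cyc piM_pM

theorem pull_lift {n : ℕ} {a : (Fin n → ℝ) → GG} {b : (Fin n → ℝ) → GT} {z : Fin n → ℝ}
    (hb : SmAt (Fin n → ℝ) EG b z) (h : ∀ᶠ w in 𝓝 z, pP (b w) = a w) (u v : Fin n → ℝ) :
    pull Om a u v z = dForm Lam (iota (b z)) (fderiv ℝ (fun w => iota (b w)) z u)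
      (fderiv ℝ (fun w => iota (b w)) z v) := by
  have h' : (fun w => pP (b w)) =ᶠ[𝓝 z] a := h
  unfold pull ev fl Dv
  rw [← D_congr h', ← h.self_of_nhds, D_comp_eq (pP_ld.sm _) hb rfl, ← D_eq_fderiv,
    D_comp_eq (smAt_iota _) hb rfl]
  exact Om_pP _ _ _

theorem isSymplectic_Om : IsSymplectic Om := by
  refine ⟨fun g u v => ?_, Om_nondeg, fun n U a ⟨hU, ha⟩ u v w => ?_⟩
  · obtain ⟨g, rfl⟩ := pP_surj g
    obtain ⟨u, rfl⟩ := (pP_ld.D_bij g).2 u
    obtain ⟨v, rfl⟩ := (pP_ld.D_bij g).2 v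
    unfold ev fl
    rw [Om_pP, Om_pP, OmT_skew]
  · have key : ∀ z ∈ U, ContDiffAt ℝ ∞ (pull Om a u v) z ∧ fderiv ℝ (pull Om a v w) z u +
        fderiv ℝ (pull Om a w u) z v + fderiv ℝ (pull Om a u v) z w = 0 := by
      intro z hz
      obtain ⟨x, hx⟩ := pP_surj (a z)
      obtain ⟨b, -, hb, hb'⟩ := pP_ld.lift (a := a) (z := z)
        (by filter_upwards [hU.mem_nhds hz] with w hw using ha.smAt hU hw) hx
      refine closed_pull contDiff_Lam (A := fun w => iota (b w)) ?_ (fun u v => ?_) u v w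
      · filter_upwards [hb] with w hw using smAt_iff_contDiffAt.1 ((smAt_iota _).comp_eq hw rfl)
      · filter_upwards [hb, hb'.eventually_nhds] with w h1 h2 using pull_lift h1 h2 u v
    refine ⟨⟨hU, sm_of_smAt fun z hz => smAt_iff_contDiffAt.2 (key z hz).1⟩, fun z hz => ?_⟩
    simp only [Dv, D_eq_fderiv]
    exact (key z hz).2

def mV (q : VV × VV) : VV := ((q.1.1.1, q.2.1.2.1, q.1.1.2.2), q.1.2 * q.2.2)

theorem contDiff_mV : ContDiff ℝ ∞ mV := by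
  unfold mV; fun_prop

theorem fderiv_mV (q u : VV × VV) : fderiv ℝ mV q u =
    ((u.1.1.1, u.2.1.2.1, u.1.1.2.2), q.1.2 * u.2.2 + u.1.2 * q.2.2) := by
  have h1 := (pX.comp (.fst ℝ VV VV)).hasFDerivAt (x := q)
  have h2 := (pY.comp (.snd ℝ VV VV)).hasFDerivAt (x := q)
  have h3 := (pXi.comp (.fst ℝ VV VV)).hasFDerivAt (x := q)
  have h4 := (pG.comp (.fst ℝ VV VV)).hasFDerivAt (x := q)
  have h5 := (pG.comp (.snd ℝ VV VV)).hasFDerivAt (x := q)
  have h : HasFDerivAt mV _ q := (h1.prodMk (h2.prodMk h3)).prodMk (h4.mul' h5)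
  rw [h.fderiv]
  simp

theorem Lam_mV {q u : VV × VV} (h2 : ns q.2.2 = 1) (h3 : q.1.1.2.1 = q.2.1.1)
    (h4 : Ad (star q.1.2) q.1.1.2.2 = q.2.1.2.2) (h5 : u.1.1.2.1 = u.2.1.1) :
    Lam (mV q) (fderiv ℝ mV q u) = Lam q.1 u.1 + Lam q.2 u.2 := by
  rw [fderiv_mV, Lam_apply, Lam_apply, Lam_apply]
  obtain ⟨⟨⟨x, y, ξ⟩, g⟩, ⟨⟨y', z, η⟩, h⟩⟩ := q
  obtain ⟨⟨⟨X, Y, Ξ⟩, G⟩, ⟨⟨Y', Z, H'⟩, H⟩⟩ := u
  simp only [mV] at *
  subst h3 h4 h5
  rw [inner_add_right, inner_mul_star, ← mul_assoc (hat ξ), inner_mul_right, h2, dot_nv, dot_nv,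
    dot_nv, star_mul, Ad_mul, hat_Ad, star_star]
  simp only [mul_assoc]
  ring

theorem mult_Om (n : ℕ) (U : Set (Fin n → ℝ)) (a b : (Fin n → ℝ) → GG) (hU : IsOpen U)
    (ha : Sm (Fin n → ℝ) EG a U) (hb : Sm (Fin n → ℝ) EG b U) (h : ∀ z ∈ U, sG (a z) = tG (b z)) :
    Sm (Fin n → ℝ) EG (fun z => mG (a z) (b z)) U ∧ ∀ u v, ∀ z ∈ U,
      pull Om (fun z => mG (a z) (b z)) u v z = pull Om a u v z + pull Om b u v z := by
  have key : ∀ z ∈ U, SmAt (Fin n → ℝ) EG (fun z => mG (a z) (b z)) z ∧ ∀ u v,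
      pull Om (fun z => mG (a z) (b z)) u v z = pull Om a u v z + pull Om b u v z := by
    intro z hz
    obtain ⟨x, hx⟩ := pP_surj (a z)
    obtain ⟨y, hy, hxy⟩ := lift_t (b z) (z := sT x) (by rw [← h z hz, ← hx]; rfl)
    obtain ⟨a', ha0, ha1, ha2⟩ := pP_ld.lift (a := a) (z := z)
      (by filter_upwards [hU.mem_nhds hz] with w hw using ha.smAt hU hw) hx
    obtain ⟨b', hb0, hb1, hb2⟩ := pP_ld.lift (a := b) (z := z)
      (by filter_upwards [hU.mem_nhds hz] with w hw using hb.smAt hU hw) hy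
    have hst : (fun w => sT (a' w)) =ᶠ[𝓝 z] fun w => tT (b' w) := by
      refine pM_ld.unique (continuous_sT.continuousAt.comp ha1.self_of_nhds.continuousAt)
        (continuous_tT.continuousAt.comp hb1.self_of_nhds.continuousAt)
        (by simp only [ha0, hb0, hxy]) ?_
      filter_upwards [ha2, hb2, hU.mem_nhds hz] with w h1 h2 hw
      rw [← sG_pP, ← tG_pP, h1, h2, h w hw]
    have hA : ∀ᶠ w in 𝓝 z, ContDiffAt ℝ ∞ (fun w => iota (a' w)) w := by
      filter_upwards [ha1] with w hw using smAt_iff_contDiffAt.1 ((smAt_iota _).comp_eq hw rfl)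
    have hB : ∀ᶠ w in 𝓝 z, ContDiffAt ℝ ∞ (fun w => iota (b' w)) w := by
      filter_upwards [hb1] with w hw using smAt_iff_contDiffAt.1 ((smAt_iota _).comp_eq hw rfl)
    have hC : ContDiffAt ℝ ∞ (fun w => mV (iota (a' w), iota (b' w))) z :=
      contDiff_mV.contDiffAt.comp z (hA.self_of_nhds.prodMk hB.self_of_nhds)
    have hc : SmAt (Fin n → ℝ) EG (fun w => mT (a' w) (b' w)) z :=
      smAt_of_iota (smAt_iff_contDiffAt.2 hC)
    have hm : ∀ᶠ w in 𝓝 z, pP (mT (a' w) (b' w)) = mG (a w) (b w) := by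
      filter_upwards [ha2, hb2, hst] with w h1 h2 h3
      rw [← h1, ← h2, mG_pP h3]
    refine ⟨((pP_ld.sm _).comp_eq hc rfl).congr' (hm.mono fun w hw => hw.symm), fun u v => ?_⟩
    rw [pull_lift hc hm, pull_lift ha1.self_of_nhds ha2, pull_lift hb1.self_of_nhds hb2]
    refine dForm_add_of contDiff_Lam hA.self_of_nhds hB.self_of_nhds hC (fun v => ?_) u v
    filter_upwards [hA, hB, hst.eventually_nhds] with w h1 h2 h3
    have h4 := (cda_diff h1).hasFDerivAt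
    have h5 := (cda_diff h2).hasFDerivAt
    have h6 : (fun w => pY (iota (a' w))) =ᶠ[𝓝 w] fun w => pX (iota (b' w)) :=
      h3.mono fun w hw => (Prod.ext_iff.1 hw).1
    have h7 := ((pY.hasFDerivAt.comp w h4).congr_of_eventuallyEq h6.symm).unique
      (pX.hasFDerivAt.comp w h5)
    unfold pull1
    rw [fderiv_fun_comp w (cda_diff contDiff_mV.contDiffAt) (h4.prodMk h5).differentiableAt,
      (h4.prodMk h5).fderiv]
    exact Lam_mV (ns_iota _) (Prod.ext_iff.1 h3.self_of_nhds).1 (Prod.ext_iff.1 h3.self_of_nhds).2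
      (congrArg (fun L : (Fin n → ℝ) →L[ℝ] R4 => L v) h7)
  exact ⟨sm_of_smAt fun z hz => (key z hz).1, fun u v z hz => (key z hz).2 u v⟩

/-- The symplectic groupoid. -/
def GR : Grpd EG GG MM := ⟨sG, tG, uG, iG, mG, Om⟩

theorem integrates : GR.Integrates piM where
  groupoid := isGroupoid Om
  sm_s := sm_of_smAt fun a _ => smAt_sG a
  sm_t := sm_of_smAt fun a _ => smAt_tG a
  sm_u := sm_of_smAt fun a _ => smAt_uG a
  sm_i := sm_of_smAt fun a _ => smAt_iG a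
  subm a := ⟨D_sG_surj a, D_tG_surj a⟩
  sympl := isSymplectic_Om
  mult n U a b ha hb h :=
    ⟨⟨ha.1, (mult_Om n U a b ha.1 ha.2 hb.2 h).1⟩, (mult_Om n U a b ha.1 ha.2 hb.2 h).2⟩
  poisson a α v h := by
    obtain ⟨a, rfl⟩ := pP_surj a
    exact (Om_solve fun w => congrArg (fun L : Cov EG => L w) h).1.trans (piM_pM _ _).symm

end Pool.Agent.Lib.MP_91447a_gt
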