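import Pool.Agent.Lib.MP_91447a_gt.Jac

open scoped Manifold ContDiff Topology Quaternion
open Set Function Filter Metric

noncomputable section

namespace Pool.Agent.Lib.MP_91447a_gt

instance factQu : Fact (Module.finrank ℝ Qu = 3 + 1) := ⟨Quaternion.finrank_eq_four⟩

abbrev S3 := sphere (0 : Qu) 1
abbrev E3 := EuclideanSpace ℝ (Fin 3)
abbrev EG := W × E3

/-- The groupoid upstairs. -/
def GT := W × S3

instance : TopologicalSpace GT := inferInstanceAs (TopologicalSpace (W × S3))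
instance : T2Space GT := inferInstanceAs (T2Space (W × S3))
instance : LocallyCompactSpace GT := inferInstanceAs (LocallyCompactSpace (W × S3))
instance : SecondCountableTopology GT := inferInstanceAs (SecondCountableTopology (W × S3))
instance : ChartedSpace EG GT := prodChartedSpace W W E3 S3

instance : IsManifold 𝓘(ℝ, EG) ∞ GT := by
  rw [modelWithCornersSelf_prod]
  exact (inferInstance : IsManifold (𝓘(ℝ, W).prod 𝓘(ℝ, E3)) ∞ (W × S3))

theorem ns_coe (g : S3) : ns g.1 = 1 := by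
  rw [ns_eq, norm_eq_of_mem_sphere g]; simp

def mkS (g : Qu) (h : ns g = 1) : S3 := ⟨g, by
  rw [ns_eq] at h
  simpa using (pow_eq_one_iff_of_nonneg (norm_nonneg g) two_ne_zero).1 h⟩

def iota (a : GT) : VV := (a.1, a.2.1)

theorem iota_inj : Injective iota := fun _ _ h =>
  Prod.ext (Prod.ext_iff.1 h).1 (Subtype.ext (Prod.ext_iff.1 h).2)

theorem ns_iota (a : GT) : ns (iota a).2 = 1 := ns_coe a.2

theorem smAt_fstG (a : GT) : SmAt EG W (fun a : GT => a.1) a := by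
  unfold SmAt
  rw [modelWithCornersSelf_prod]
  exact contMDiffAt_fst (I := 𝓘(ℝ, W)) (J := 𝓘(ℝ, E3)) (M := W) (N := S3)

theorem smAt_sndG (a : GT) : SmAt EG E3 (fun a : GT => a.2) a := by
  unfold SmAt
  rw [modelWithCornersSelf_prod]
  exact contMDiffAt_snd (I := 𝓘(ℝ, W)) (J := 𝓘(ℝ, E3)) (M := W) (N := S3)

theorem D_fstG (a : GT) : D EG W (fun a : GT => a.1) a = ContinuousLinearMap.fst ℝ W E3 := by
  unfold D
  rw [modelWithCornersSelf_prod]
  exact mfderiv_fst (I := 𝓘(ℝ, W)) (I' := 𝓘(ℝ, E3)) (M := W) (M' := S3)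

theorem D_sndG (a : GT) : D EG E3 (fun a : GT => a.2) a = ContinuousLinearMap.snd ℝ W E3 := by
  unfold D
  rw [modelWithCornersSelf_prod]
  exact mfderiv_snd (I := 𝓘(ℝ, W)) (I' := 𝓘(ℝ, E3)) (M := W) (M' := S3)

theorem smAt_coe (g : S3) : SmAt E3 Qu (fun g : S3 => g.1) g := contMDiff_coe_sphere (n := 3) g

theorem smAt_iota (a : GT) : SmAt EG VV iota a :=
  (smAt_fstG a).prodMk_space ((smAt_coe a.2).comp_eq (smAt_sndG a) rfl)

section

variable {E : Type} [NormedAddCommGroup E] [NormedSpace ℝ E]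
  {M : Type} [TopologicalSpace M] [ChartedSpace E M]

theorem smAt_clm {F F' : Type} [NormedAddCommGroup F] [NormedSpace ℝ F] [NormedAddCommGroup F']
    [NormedSpace ℝ F'] (L : F →L[ℝ] F') (x : F) : SmAt F F' L x :=
  smAt_iff_contDiffAt.2 L.contDiff.contDiffAt

theorem D_clm {F F' : Type} [NormedAddCommGroup F] [NormedSpace ℝ F] [NormedAddCommGroup F']
    [NormedSpace ℝ F'] (L : F →L[ℝ] F') (x : F) : D F F' L x = L := by
  rw [D_eq_fderiv, L.fderiv]

theorem smAt_sphere {f : M → S3} {x : M} (h : SmAt E Qu (fun y => (f y).1) x) :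
    SmAt E E3 f x := by
  unfold SmAt
  rw [contMDiffAt_iff_target]
  refine ⟨Topology.IsInducing.subtypeVal.continuousAt_iff.2 h.continuousAt, ?_⟩
  let U : _ ≃ₗᵢ[ℝ] _ := (OrthonormalBasis.fromOrthogonalSpanSingleton 3
    (ne_zero_of_mem_unit_sphere (-f x))).repr
  have h1 : ContDiffAt ℝ ∞ (stereoToFun ((-f x : S3) : Qu)) (f x).1 := by
    refine contDiffOn_stereoToFun.contDiffAt (IsOpen.mem_nhds ?_ ?_)
    · exact isOpen_ne_fun (innerSL ℝ _).continuous continuous_const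
    · simp only [mem_ofPred_eq, innerSL_apply_apply, coe_neg_sphere, inner_neg_left,
        real_inner_self_eq_norm_sq, norm_eq_of_mem_sphere]
      norm_num
  have h2 := (U.contDiff.contDiffAt.comp _ h1).contMDiffAt.comp x h
  exact h2

theorem smAt_of_iota {f : M → GT} {x : M} (h : SmAt E VV (fun y => iota (f y)) x) :
    SmAt E EG f x := by
  have h1 : SmAt E W (fun y => (f y).1) x :=
    (smAt_clm (ContinuousLinearMap.fst ℝ W Qu) _).comp_eq h rfl
  have h2 : SmAt E E3 (fun y => (f y).2) x :=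
    smAt_sphere ((smAt_clm (ContinuousLinearMap.snd ℝ W Qu) _).comp_eq h rfl)
  unfold SmAt
  rw [modelWithCornersSelf_prod]
  exact h1.prodMk h2

end

theorem D_iota (a : GT) (v : EG) :
    D EG VV iota a v = (v.1, D E3 Qu (fun g : S3 => g.1) a.2 v.2) := by
  have h1 := D_comp_eq (smAt_clm (ContinuousLinearMap.fst ℝ W Qu) _) (smAt_iota a) rfl
  have h2 := D_comp_eq (smAt_clm (ContinuousLinearMap.snd ℝ W Qu) _) (smAt_iota a) rfl
  have h3 := D_comp_eq (smAt_coe a.2) (smAt_sndG a) rfl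
  rw [D_clm] at h1 h2
  have e1 : D EG W (fun a : GT => a.1) a = _ := h1
  have e2 : D EG Qu (fun a : GT => a.2.1) a = _ := h2
  rw [D_fstG] at e1
  rw [h3, D_sndG] at e2
  exact Prod.ext (congrArg (fun L : EG →L[ℝ] W => L v) e1).symm
    (congrArg (fun L : EG →L[ℝ] Qu => L v) e2).symm

theorem D_iota_inj (a : GT) : Injective (D EG VV iota a) := by
  intro u v h
  rw [D_iota, D_iota] at h
  exact Prod.ext (Prod.ext_iff.1 h).1
    (injective_mvfderiv_subtypeVal_sphere (n := 3) a.2 (Prod.ext_iff.1 h).2)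

theorem D_iota_range (a : GT) (w : VV) :
    (∃ v, D EG VV iota a v = w) ↔ inner ℝ (iota a).2 w.2 = 0 := by
  have h := range_mvfderiv_subtypeVal (n := 3) a.2
  have h' : ∀ q : Qu, (∃ v, D E3 Qu (fun g : S3 => g.1) a.2 v = q) ↔ inner ℝ a.2.1 q = 0 := by
    intro q
    rw [← Submodule.mem_orthogonal_singleton_iff_inner_right, ← h]
    rfl
  constructor
  · rintro ⟨v, rfl⟩
    rw [D_iota]
    exact (h' _).1 ⟨_, rfl⟩
  · intro hw
    obtain ⟨v, hv⟩ := (h' _).2 hw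
    exact ⟨(w.1, v), by rw [D_iota, hv]⟩

theorem exists_D_iota_tv (a : GT) (v : EG) :
    ∃ Z, D EG VV iota a v = tv a.2.1 v.1.1 v.1.2.1 v.1.2.2 Z := by
  obtain ⟨Z, hZ⟩ := exists_tv (ns_iota a) (D EG VV iota a v) ((D_iota_range a _).1 ⟨v, rfl⟩)
  refine ⟨Z, hZ.trans ?_⟩
  rw [D_iota]; rfl

theorem exists_tv_D_iota (a : GT) (X Y : R4) (Ξ Z : R3) :
    ∃ v : EG, v.1 = (X, Y, Ξ) ∧ D EG VV iota a v = tv a.2.1 X Y Ξ Z := by
  obtain ⟨v, hv⟩ := (D_iota_range a (tv a.2.1 X Y Ξ Z)).2 (inner_tv _ _ _ _ _)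
  refine ⟨v, ?_, hv⟩
  rw [D_iota] at hv
  exact congrArg Prod.fst hv

/-- The symplectic form upstairs. -/
def OmT (a : GT) : EG →L[ℝ] EG →L[ℝ] ℝ :=
  (dForm Lam (iota a)).bilinearComp (D EG VV iota a) (D EG VV iota a)

theorem OmT_apply (a : GT) (u v : EG) :
    OmT a u v = dForm Lam (iota a) (D EG VV iota a u) (D EG VV iota a v) := rfl

def tT (a : GT) : E7 := (a.1.1, a.1.2.2)
def sT (a : GT) : E7 := (a.1.2.1, Ad (star a.2.1) a.1.2.2)
def uT (z : E7) : GT := ((z.1, z.1, z.2), mkS 1 (by simp [ns]))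
def iT (a : GT) : GT :=
  ((a.1.2.1, a.1.1, Ad (star a.2.1) a.1.2.2), mkS (star a.2.1) (by rw [ns_star, ns_coe]))
def mT (a b : GT) : GT :=
  ((a.1.1, b.1.2.1, a.1.2.2), mkS (a.2.1 * b.2.1) (by rw [ns_mul, ns_coe, ns_coe, one_mul]))

def tL : W →L[ℝ] E7 := (ContinuousLinearMap.fst ℝ R4 (R4 × R3)).prod
  ((ContinuousLinearMap.snd ℝ R4 R3).comp (.snd ℝ R4 (R4 × R3)))

theorem smAt_tT (a : GT) : SmAt EG E7 tT a := (smAt_clm tL _).comp_eq (smAt_fstG a) rfl

theorem D_tT (a : GT) (v : EG) : D EG E7 tT a v = (v.1.1, v.1.2.2) := by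
  have h := D_comp_eq (smAt_clm tL _) (smAt_fstG a) rfl
  rw [D_clm, D_fstG] at h
  exact congrArg (fun L : EG →L[ℝ] E7 => L v) h

def sV (q : VV) : E7 := (q.1.2.1, Ad (star q.2) q.1.2.2)

theorem contDiff_sV : ContDiff ℝ ∞ sV := contDiff_iff_contDiffAt.2 fun _ =>
  pY.contDiff.contDiffAt.prodMk (contDiffAt_Ad (contDiff_star.comp pG.contDiff).contDiffAt
    pXi.contDiff.contDiffAt)

theorem smAt_sT (a : GT) : SmAt EG E7 sT a :=
  (smAt_iff_contDiffAt.2 contDiff_sV.contDiffAt).comp_eq (smAt_iota a) rfl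

theorem smAt_uT (z : E7) : SmAt E7 EG uT z := by
  refine smAt_of_iota (smAt_iff_contDiffAt.2 ?_)
  change ContDiffAt ℝ ∞ (fun z : E7 => (((z.1, z.1, z.2), 1) : VV)) z
  fun_prop

def iV (q : VV) : VV := ((q.1.2.1, q.1.1, Ad (star q.2) q.1.2.2), star q.2)

theorem contDiff_iV : ContDiff ℝ ∞ iV :=
  (pY.contDiff.prodMk (pX.contDiff.prodMk contDiff_sV.snd)).prodMk
    (contDiff_star.comp pG.contDiff)

theorem smAt_iT (a : GT) : SmAt EG EG iT a :=
  smAt_of_iota ((smAt_iff_contDiffAt.2 contDiff_iV.contDiffAt).comp_eq (smAt_iota a) rfl)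

theorem GT_ext {a b : GT} (h1 : a.1 = b.1) (h2 : a.2.1 = b.2.1) : a = b :=
  Prod.ext h1 (Subtype.ext h2)

theorem sT_uT (z : E7) : sT (uT z) = z := by
  simp [sT, uT, mkS, Ad_one]

theorem tT_uT (z : E7) : tT (uT z) = z := rfl

theorem tT_iT (a : GT) : tT (iT a) = sT a := rfl

theorem sT_iT (a : GT) : sT (iT a) = tT a := by
  simp [sT, iT, tT, mkS, Ad_Ad_star (ns_coe a.2)]

theorem iT_iT (a : GT) : iT (iT a) = a :=
  GT_ext (by simp [iT, mkS, Ad_Ad_star (ns_coe a.2)]) (by simp [iT, mkS])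

theorem tT_mT (a b : GT) : tT (mT a b) = tT a := rfl

theorem sT_mT {a b : GT} (h : sT a = tT b) : sT (mT a b) = sT b := by
  have h2 : Ad (star a.2.1) a.1.2.2 = b.1.2.2 := congrArg Prod.snd h
  simp [sT, mT, mkS, Ad_mul, h2]

theorem mT_assoc (a b c : GT) : mT (mT a b) c = mT a (mT b c) :=
  GT_ext rfl (mul_assoc _ _ _)

theorem uT_mT (a : GT) : mT (uT (tT a)) a = a := GT_ext rfl (one_mul _)

theorem mT_uT (a : GT) : mT a (uT (sT a)) = a := GT_ext rfl (mul_one _)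

theorem mT_iT (a : GT) : mT a (iT a) = uT (tT a) := GT_ext rfl (mul_star_of (ns_coe a.2))

theorem iT_mT (a : GT) : mT (iT a) a = uT (sT a) := GT_ext rfl (star_mul_of (ns_coe a.2))

theorem OmT_skew (a : GT) (u v : EG) : OmT a u v = -OmT a v u := by
  simp only [OmT_apply, dForm_apply]; ring

theorem OmT_solve {a : GT} {v : EG} {α : E7 →L[ℝ] ℝ}
    (h : ∀ w, OmT a v w = α (D EG E7 tT a w)) :
    D EG E7 tT a v = piT (tT a) α ∧ (α = 0 → v = 0) := by
  obtain ⟨Z, hZ⟩ := exists_D_iota_tv a v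
  have key := solve_om (x := a.1.1) (y := a.1.2.1) (ξ := a.1.2.2) (n := nv a.2.1) (X := v.1.1)
    (Y := v.1.2.1) (Ξ := v.1.2.2) (Z := Z) (a := (cov α).1) (ζ := (cov α).2) (by
      intro X' Y' Ξ' Z'
      obtain ⟨w, hw1, hw⟩ := exists_tv_D_iota a X' Y' Ξ' Z'
      have := h w
      rw [OmT_apply, hZ, hw, D_tT, cov_spec, hw1] at this
      rw [← dForm_tv (ns_coe a.2)]
      exact this)
  obtain ⟨h1, h2, h3, h4⟩ := key
  refine ⟨by rw [D_tT, piT_apply]; exact Prod.ext h1 h2, fun hα => ?_⟩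
  subst hα
  have hX : v.1.1 = 0 := by rw [h1]; ext i; simp [Kx]
  have hΞ : v.1.2.2 = 0 := by rw [h2]; ext i; fin_cases i <;> simp [Kxi, Kx]
  have hY : v.1.2.1 = 0 := h4 (by simp) (by simp)
  refine D_iota_inj a ?_
  rw [hZ, h3, hX, hY, hΞ]
  simp [tv]

end Pool.Agent.Lib.MP_91447a_gt
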